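import Pool.Agent.H887R2.Ext

set_option autoImplicit false
set_option linter.unusedSimpArgs false
set_option linter.unusedVariables false

/-! Five-dimensional rational representations of `SL_5(ℤ)`: trivial or monomial with respect to
the diagonal group. -/

namespace Pool.Agent.H887R2

open scoped Matrix
open Matrix (SpecialLinearGroup)

noncomputable instance DG_fintype (n : ℕ) : Fintype (DG n) := Fintype.ofFinite _

namespace Dich

variable (ρ : SLn 5 →* (VQ →ₗ[ℚ] VQ))

/-- The character of the diagonal group attached to a set. -/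
def chi (S : Finset (Fin 5)) (ε : DG 5) : ℤˣ := ∏ i ∈ S, ε.1 i

theorem chi_mul (S : Finset (Fin 5)) (ε δ : DG 5) : chi S (ε * δ) = chi S ε * chi S δ := by
  simp [chi, Finset.prod_mul_distrib]

/-- `u` is a simultaneous eigenvector. -/
def HasChar (S : Finset (Fin 5)) (u : VQ) : Prop := ∀ ε : DG 5, ρ (dg ε) u = ((chi S ε : ℤ) : ℚ) • u

/-- Unnormalised projection. -/
noncomputable def e (S : Finset (Fin 5)) (v : VQ) : VQ := ∑ ε : DG 5, ((chi S ε : ℤ) : ℚ) • ρ (dg ε) v

theorem unit_sq (u : ℤˣ) : ((u : ℤ) : ℚ) * ((u : ℤ) : ℚ) = 1 := by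
  rcases Int.units_eq_one_or u with rfl | rfl <;> norm_num

theorem e_hasChar (S : Finset (Fin 5)) (v : VQ) : HasChar ρ S (e ρ S v) := by
  intro δ
  unfold e
  rw [map_sum, Finset.smul_sum, ← Equiv.sum_comp (Equiv.mulLeft δ)
    (fun ε => ((chi S δ : ℤ) : ℚ) • ((chi S ε : ℤ) : ℚ) • ρ (dg ε) v)]
  refine Finset.sum_congr rfl (fun ε _ => ?_)
  rw [map_smul]
  show _ = ((chi S δ : ℤ) : ℚ) • ((chi S (δ * ε) : ℤ) : ℚ) • ρ (dg (δ * ε)) v
  rw [chi_mul, map_mul, map_mul, smul_smul, Units.val_mul]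
  push_cast
  rw [← mul_assoc, unit_sq, one_mul]
  rfl

theorem sum_chi (ε : DG 5) : ∑ S : Finset (Fin 5), ((chi S ε : ℤ) : ℚ) = if ε = 1 then 32 else 0 := by
  have h1 : ∏ i : Fin 5, (1 + (((ε.1 i : ℤˣ) : ℤ) : ℚ)) = ∑ S : Finset (Fin 5), ((chi S ε : ℤ) : ℚ) := by
    rw [Finset.prod_one_add]
    rw [Finset.powerset_univ]
    refine Finset.sum_congr rfl (fun S _ => ?_)
    unfold chi
    push_cast
    rfl
  rw [← h1]
  by_cases h : ε = 1
  · rw [if_pos h, h]
    simp
    norm_num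
  · rw [if_neg h]
    have : ∃ i, ε.1 i ≠ 1 := by
      by_contra hh
      push Not at hh
      apply h
      apply Subtype.ext
      ext i
      rw [hh i]; rfl
    obtain ⟨i, hi⟩ := this
    refine Finset.prod_eq_zero (Finset.mem_univ i) ?_
    rcases Int.units_eq_one_or (ε.1 i) with h2 | h2
    · exact absurd h2 hi
    · rw [h2]; norm_num

theorem sum_e (v : VQ) : ∑ S : Finset (Fin 5), e ρ S v = (32 : ℚ) • v := by
  unfold e
  rw [Finset.sum_comm]
  simp only [← Finset.sum_smul, sum_chi]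
  rw [Finset.sum_eq_single 1]
  · rw [if_pos rfl, map_one, map_one]; rfl
  · intro b _ hb; rw [if_neg hb, zero_smul]
  · intro h; exact absurd (Finset.mem_univ _) h

theorem chi_univ (ε : DG 5) : chi Finset.univ ε = 1 := ε.2

theorem chi_empty (ε : DG 5) : chi ∅ ε = 1 := by simp [chi]

theorem chi_compl (S : Finset (Fin 5)) (ε : DG 5) : chi Sᶜ ε = chi S ε := by
  have h1 : chi S ε * chi Sᶜ ε = 1 := by
    unfold chi
    rw [Finset.prod_mul_prod_compl]
    exact ε.2
  rcases Int.units_eq_one_or (chi S ε) with h | h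
  · rw [h, one_mul] at h1; rw [h, h1]
  · rw [h] at h1 ⊢
    rw [neg_one_mul] at h1
    rw [← h1, neg_neg]

/-- Either the diagonal group acts trivially or there is an eigenvector with a nontrivial
character. -/
theorem triv_or : (∀ δ v, ρ (dg δ) v = v) ∨ ∃ S : Finset (Fin 5), (S.card = 1 ∨ S.card = 2) ∧
    ∃ u, u ≠ 0 ∧ HasChar ρ S u := by
  by_cases h : ∃ S : Finset (Fin 5), S ≠ ∅ ∧ S ≠ Finset.univ ∧ ∃ v, e ρ S v ≠ 0
  · right
    obtain ⟨S, h1, h2, v, hv⟩ := h
    have hc := e_hasChar ρ S v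
    have hc1 : S.card ≠ 0 := fun h => h1 (Finset.card_eq_zero.mp h)
    have hc2 : S.card ≠ 5 := fun h => h2 ((Finset.card_eq_iff_eq_univ S).mp (by rw [h]; rfl))
    have hc3 : S.card ≤ 5 := by simpa using Finset.card_le_univ S
    by_cases h3 : S.card ≤ 2
    · exact ⟨S, by omega, _, hv, hc⟩
    · refine ⟨Sᶜ, ?_, _, hv, ?_⟩
      · rw [Finset.card_compl, Fintype.card_fin]; omega
      · intro ε; rw [chi_compl]; exact hc ε
  · left
    push Not at h
    intro δ v
    have h1 : (32 : ℚ) • v = e ρ ∅ v + e ρ Finset.univ v := by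
      rw [← sum_e ρ v]
      rw [← Finset.sum_subset (Finset.subset_univ {∅, Finset.univ})]
      · rw [Finset.sum_pair]
        exact (Finset.univ_nonempty (α := Fin 5)).ne_empty.symm
      · intro S _ hS
        simp only [Finset.mem_insert, Finset.mem_singleton, not_or] at hS
        exact h S (Finset.nonempty_iff_ne_empty.mpr hS.1) hS.2 v
    have h2 : ρ (dg δ) ((32 : ℚ) • v) = (32 : ℚ) • v := by
      rw [h1, map_add, e_hasChar ρ ∅ v δ, e_hasChar ρ Finset.univ v δ, chi_empty, chi_univ]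
      simp
    rw [map_smul] at h2
    exact smul_right_injective VQ (by norm_num : (32 : ℚ) ≠ 0) h2

theorem transit {S T : Finset (Fin 5)} (hST : S.card = T.card) {u : VQ} (hu : u ≠ 0)
    (h : HasChar ρ S u) : ∃ u', u' ≠ 0 ∧ HasChar ρ T u' := by
  have eqv : {x // x ∈ T} ≃ {x // x ∈ S} := Finset.equivOfCardEq hST.symm
  set σ : Equiv.Perm (Fin 5) := eqv.extendSubtype with hσ
  have hmem : ∀ x, σ x ∈ S ↔ x ∈ T := by
    intro x
    constructor
    · intro hx
      by_contra hT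
      exact (Equiv.extendSubtype_not_mem eqv x hT) hx
    · intro hx
      exact Equiv.extendSubtype_mem eqv x hx
  obtain ⟨g, s, hg⟩ := exists_SP σ
  refine ⟨ρ g u, ?_, ?_⟩
  · intro h0
    apply hu
    have : ρ g⁻¹ (ρ g u) = u := by
      show (ρ g⁻¹ * ρ g) u = u
      rw [← map_mul, inv_mul_cancel, map_one]; rfl
    rw [h0, map_zero] at this
    exact this.symm
  · intro ε
    have h1 := hg.conj_dg (DG.perm σ⁻¹ ε)
    have h2 : DG.perm σ (DG.perm σ⁻¹ ε) = ε := by
      apply Subtype.ext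
      ext i
      simp [DG.perm]
    rw [h2] at h1
    have h3 : ρ (dg ε) (ρ g u) = ρ g (ρ (dg (DG.perm σ⁻¹ ε)) u) := by
      show (ρ (dg ε) * ρ g) u = (ρ g * ρ (dg (DG.perm σ⁻¹ ε))) u
      rw [← map_mul, ← map_mul, h1]
    rw [h3, h (DG.perm σ⁻¹ ε), map_smul]
    congr 3
    unfold chi
    refine Finset.prod_bij (fun x _ => σ⁻¹ x) ?_ ?_ ?_ ?_
    · intro x hx
      rw [← hmem]
      simpa using hx
    · intro a _ b _ hab
      exact σ⁻¹.injective hab
    · intro b hb
      exact ⟨σ b, (hmem b).mpr hb, by simp⟩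
    · intro x _
      rfl

theorem chi_single (i : Fin 5) (ε : DG 5) : chi {i} ε = ε.1 i := by simp [chi]

theorem chi_pair {i j : Fin 5} (h : i ≠ j) (ε : DG 5) : chi {i, j} ε = ε.1 i * ε.1 j := by
  simp [chi, Finset.prod_pair h]

/-- The combination of diagonal matrices separating the characters. -/
noncomputable def T : VQ →ₗ[ℚ] VQ :=
  ∑ k : Fin 4, ((3 : ℚ) ^ (k : ℕ)) • ρ (dg (flip 0 k.succ (Fin.succ_ne_zero k).symm))

/-- sign -/
def fl (k : Fin 4) (i : Fin 5) : ℤ := if i = 0 ∨ i = k.succ then -1 else 1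

theorem fl_eq (k : Fin 4) (i : Fin 5) :
    (((flip (0 : Fin 5) k.succ (Fin.succ_ne_zero k).symm).1 i : ℤˣ) : ℤ) = fl k i := by
  unfold flip fl
  show (((if i = 0 ∨ i = k.succ then (-1 : ℤˣ) else 1 : ℤˣ)) : ℤ) = _
  split_ifs <;> rfl

theorem T_apply {S : Finset (Fin 5)} {u : VQ} (h : HasChar ρ S u) : T ρ u =
    (∑ k : Fin 4, ((3 : ℚ) ^ (k : ℕ)) *
      ((chi S (flip 0 k.succ (Fin.succ_ne_zero k).symm) : ℤ) : ℚ)) • u := by
  unfold T
  rw [LinearMap.sum_apply, Finset.sum_smul]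
  refine Finset.sum_congr rfl (fun k _ => ?_)
  rw [LinearMap.smul_apply, h, smul_smul]

/-- eigenvalue -/
def mu1 (i : Fin 5) : ℤ := ∑ k : Fin 4, 3 ^ (k : ℕ) * fl k i

/-- eigenvalue -/
def mu2 (p : {p : Fin 5 × Fin 5 // p.1 < p.2}) : ℤ :=
  ∑ k : Fin 4, 3 ^ (k : ℕ) * (fl k p.1.1 * fl k p.1.2)

theorem mu1_inj : Function.Injective mu1 := by
  have : ∀ i j, mu1 i = mu1 j → i = j := by decide
  exact this

theorem mu2_inj : Function.Injective mu2 := by
  have : ∀ i j, mu2 i = mu2 j → i = j := by decide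
  exact this

theorem T_single {i : Fin 5} {u : VQ} (h : HasChar ρ {i} u) : T ρ u = ((mu1 i : ℤ) : ℚ) • u := by
  rw [T_apply ρ h]
  congr 1
  unfold mu1
  push_cast
  refine Finset.sum_congr rfl (fun k _ => ?_)
  rw [chi_single, fl_eq]

theorem T_pair (p : {p : Fin 5 × Fin 5 // p.1 < p.2}) {u : VQ} (h : HasChar ρ {p.1.1, p.1.2} u) :
    T ρ u = ((mu2 p : ℤ) : ℚ) • u := by
  rw [T_apply ρ h]
  congr 1
  unfold mu2
  push_cast
  refine Finset.sum_congr rfl (fun k _ => ?_)
  rw [chi_pair p.2.ne, Units.val_mul, fl_eq, fl_eq]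
  push_cast
  rfl

theorem finrank_VQ : Module.finrank ℚ VQ = 5 := by simp

theorem no_pair {S : Finset (Fin 5)} (hS : S.card = 2) {u : VQ} (hu : u ≠ 0)
    (h : HasChar ρ S u) : False := by
  have h1 : ∀ p : {p : Fin 5 × Fin 5 // p.1 < p.2}, ∃ u', u' ≠ 0 ∧ HasChar ρ {p.1.1, p.1.2} u' := by
    intro p
    exact transit ρ (by rw [hS, Finset.card_pair p.2.ne]) hu h
  choose f hf0 hf using h1
  have hli : LinearIndependent ℚ f := by
    refine Module.End.eigenvectors_linearIndependent' (T ρ) (fun p => ((mu2 p : ℤ) : ℚ)) ?_ f ?_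
    · intro a b hab
      exact mu2_inj (Int.cast_injective hab)
    · intro p
      exact Module.End.hasEigenvector_iff.mpr ⟨Module.End.mem_eigenspace_iff.mpr (T_pair ρ p (hf p)),
        hf0 p⟩
  have := hli.fintype_card_le_finrank
  rw [finrank_VQ] at this
  have hc : Fintype.card {p : Fin 5 × Fin 5 // p.1 < p.2} = 10 := by decide
  omega

theorem single_basis {S : Finset (Fin 5)} (hS : S.card = 1) {u : VQ} (hu : u ≠ 0)
    (h : HasChar ρ S u) : ∃ b : Module.Basis (Fin 5) ℚ VQ, ∀ (ε : DG 5) i,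
      ρ (dg ε) (b i) = ((ε.1 i : ℤ) : ℚ) • b i := by
  have h1 : ∀ i : Fin 5, ∃ u', u' ≠ 0 ∧ HasChar ρ {i} u' := by
    intro p
    exact transit ρ (by rw [hS, Finset.card_singleton]) hu h
  choose f hf0 hf using h1
  have hli : LinearIndependent ℚ f := by
    refine Module.End.eigenvectors_linearIndependent' (T ρ) (fun p => ((mu1 p : ℤ) : ℚ)) ?_ f ?_
    · intro a b hab
      exact mu1_inj (Int.cast_injective hab)
    · intro p
      exact Module.End.hasEigenvector_iff.mpr ⟨Module.End.mem_eigenspace_iff.mpr (T_single ρ (hf p)),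
        hf0 p⟩
  refine ⟨basisOfLinearIndependentOfCardEqFinrank hli (by rw [finrank_VQ]; rfl), fun ε i => ?_⟩
  rw [coe_basisOfLinearIndependentOfCardEqFinrank, hf i ε, chi_single]

theorem tr_conj (g h : SLn 5) : LinearMap.trace ℚ VQ (ρ (g⁻¹ * h * g)) = LinearMap.trace ℚ VQ (ρ h) := by
  rw [map_mul, LinearMap.trace_mul_comm, ← map_mul]
  congr 2
  group

theorem idem_trace {p : VQ →ₗ[ℚ] VQ} (hp : IsIdempotentElem p) :
    ∃ k : ℕ, LinearMap.trace ℚ VQ p = k ∧ (k = 0 → p = 0) := by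
  refine ⟨Module.finrank ℚ (LinearMap.range p), ?_, ?_⟩
  · exact (LinearMap.IsIdempotentElem.isProj_range p hp).trace
  · intro h
    have := (LinearMap.IsIdempotentElem.isProj_range p hp).trace
    rw [h] at this
    exact LinearMap.IsIdempotentElem.eq_zero_of_trace_eq_zero hp (by simpa using this)

theorem el_sq_triv (hD : ∀ δ v, ρ (dg δ) v = v) {i j k : Fin 5} (hij : i ≠ j) (hik : i ≠ k)
    (hjk : j ≠ k) : ρ (el i j) * ρ (el i j) = 1 := by
  have h1 := (dg_SP (flip i k hik)).conj_el hij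
  have h2 : ρ (dg (flip i k hik)) = 1 := LinearMap.ext (hD _)
  have h3 := congrArg ρ h1
  rw [map_mul, map_mul, h2, one_mul, mul_one, flip_a, flip_ne hik hij.symm hjk] at h3
  simp only [Equiv.Perm.coe_one, id_eq, Units.val_neg, Units.val_one, mul_one, zpow_neg,
    zpow_one] at h3
  nth_rewrite 1 [h3]
  rw [← map_mul, inv_mul_cancel, map_one]

theorem el_triv (hD : ∀ δ v, ρ (dg δ) v = v) {i j k l : Fin 5} (hij : i ≠ j) (hik : i ≠ k)
    (hil : i ≠ l) (hjk : j ≠ k) (hjl : j ≠ l) (hkl : k ≠ l) : ρ (el i j) = 1 := by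
  have ha := el_sq_triv ρ hD hij hik hjk
  have hb := el_sq_triv ρ hD hik hij hjk.symm
  have hc := el_sq_triv ρ hD hil hij hjl.symm
  have hab : ρ (el i j) * ρ (el i k) = ρ (el i k) * ρ (el i j) := by
    rw [← map_mul, ← map_mul, el_comm hij hik hij.symm hik]
  have hac : ρ (el i j) * ρ (el i l) = ρ (el i l) * ρ (el i j) := by
    rw [← map_mul, ← map_mul, el_comm hij hil hij.symm hil]
  have hbc : ρ (el i k) * ρ (el i l) = ρ (el i l) * ρ (el i k) := by
    rw [← map_mul, ← map_mul, el_comm hik hil hik.symm hil]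
  have key0 : ∀ {x y z : Fin 5}, x ≠ y → x ≠ z → y ≠ z →
      (el y z)⁻¹ * el x y * el y z = el x y * el x z := by
    intro x y z hxy hxz hyz
    have h1 := el_stein hxy hyz hxz
    have h2 := el_comm hxz hyz hyz.symm hxz
    rw [mul_assoc, h1, h2]
    rw [mul_assoc, inv_mul_cancel_left]
    exact (el_comm hxz hxy hxz.symm hxy)
  have key : ∀ {x y z : Fin 5}, x ≠ y → x ≠ z → y ≠ z →
      LinearMap.trace ℚ VQ (ρ (el x y) * ρ (el x z)) = LinearMap.trace ℚ VQ (ρ (el x y)) := by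
    intro x y z hxy hxz hyz
    rw [← tr_conj ρ (el y z) (el x y), ← map_mul, key0 hxy hxz hyz]
  set t := LinearMap.trace ℚ VQ (ρ (el i j)) with ht
  have tab : LinearMap.trace ℚ VQ (ρ (el i j) * ρ (el i k)) = t := key hij hik hjk
  have tac : LinearMap.trace ℚ VQ (ρ (el i j) * ρ (el i l)) = t := key hij hil hjl
  have tb : LinearMap.trace ℚ VQ (ρ (el i k)) = t := by
    rw [← key hik hij hjk.symm, ← hab, tab]
  have tc : LinearMap.trace ℚ VQ (ρ (el i l)) = t := by
    rw [← key hil hij hjl.symm, ← hac, tac]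
  have tbc : LinearMap.trace ℚ VQ (ρ (el i k) * ρ (el i l)) = t := by
    rw [key hik hil hkl, tb]
  have tabc : LinearMap.trace ℚ VQ (ρ (el i j) * ρ (el i k) * ρ (el i l)) = t := by
    rw [← tab, ← map_mul, ← map_mul, ← tr_conj ρ (el k l) (el i j * el i k)]
    congr 2
    have h3 := el_comm hkl hij hil.symm hjk.symm
    have h4 : (el k l)⁻¹ * el i j = el i j * (el k l)⁻¹ := by
      rw [inv_mul_eq_iff_eq_mul, ← mul_assoc, h3, mul_inv_cancel_right]
    have h5 := key0 hik hil hkl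
    calc el i j * el i k * el i l = el i j * ((el k l)⁻¹ * el i k * el k l) := by
          rw [h5, mul_assoc]
      _ = el i j * (el k l)⁻¹ * el i k * el k l := by group
      _ = (el k l)⁻¹ * el i j * el i k * el k l := by rw [h4]
      _ = (el k l)⁻¹ * (el i j * el i k) * el k l := by group
  generalize ρ (el i j) = a at *
  generalize ρ (el i k) = b at *
  generalize ρ (el i l) = c at *
  have idem : ∀ x : VQ →ₗ[ℚ] VQ, x * x = 1 → IsIdempotentElem ((1 / 2 : ℚ) • (1 + x)) := by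
    intro x hx
    unfold IsIdempotentElem
    rw [smul_mul_smul_comm, mul_add, add_mul, add_mul, hx, one_mul, one_mul, mul_one]
    module
  have h5 : IsIdempotentElem (((1 / 2 : ℚ) • (1 + a)) * ((1 / 2 : ℚ) • (1 + b)) *
      ((1 / 2 : ℚ) • (1 + c))) := by
    have c1 : Commute ((1 / 2 : ℚ) • (1 + a)) ((1 / 2 : ℚ) • (1 + b)) :=
      (((Commute.one_right _).add_right ((Commute.one_left _).add_left hab)).smul_left _).smul_right _
    have c2 : Commute ((1 / 2 : ℚ) • (1 + a)) ((1 / 2 : ℚ) • (1 + c)) :=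
      (((Commute.one_right _).add_right ((Commute.one_left _).add_left hac)).smul_left _).smul_right _
    have c3 : Commute ((1 / 2 : ℚ) • (1 + b)) ((1 / 2 : ℚ) • (1 + c)) :=
      (((Commute.one_right _).add_right ((Commute.one_left _).add_left hbc)).smul_left _).smul_right _
    exact IsIdempotentElem.mul_of_commute (c2.mul_left c3)
      (IsIdempotentElem.mul_of_commute c1 (idem a ha) (idem b hb)) (idem c hc)
  obtain ⟨m, hm, _⟩ := idem_trace h5
  have h6 : ((1 / 2 : ℚ) • (1 + a)) * ((1 / 2 : ℚ) • (1 + b)) * ((1 / 2 : ℚ) • (1 + c)) =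
      (1 / 8 : ℚ) • (1 + a + b + c + a * b + a * c + b * c + a * b * c) := by
    rw [smul_mul_smul_comm, smul_mul_smul_comm]
    have : (1 + a) * (1 + b) * (1 + c) = 1 + a + b + c + a * b + a * c + b * c + a * b * c := by
      noncomm_ring
    rw [this]
    norm_num
  have t1 : LinearMap.trace ℚ VQ (1 : VQ →ₗ[ℚ] VQ) = 5 := by
    rw [LinearMap.trace_one, finrank_VQ]; norm_num
  rw [h6, map_smul, map_add, map_add, map_add, map_add, map_add, map_add, map_add, tabc, tbc, tac,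
    tab, tc, tb, t1, ← ht] at hm
  have h7 : IsIdempotentElem ((1 / 2 : ℚ) • (1 - a)) := by
    have := idem (-a) (by
      apply LinearMap.ext
      intro v
      have := LinearMap.congr_fun ha v
      show (-a) ((-a) v) = v
      simpa using this)
    rwa [← sub_eq_add_neg] at this
  obtain ⟨k, hk, hk0⟩ := idem_trace h7
  rw [map_smul, map_sub, t1, ← ht] at hk
  have h8 : (k : ℚ) = 5 / 2 - t / 2 := by
    rw [← hk, smul_eq_mul]; ring
  have h9 : (m : ℚ) = (5 + 7 * t) / 8 := by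
    rw [← hm, smul_eq_mul]; ring
  have h10 : (4 * m + 7 * k : ℤ) = 20 := by
    have : ((4 * m + 7 * k : ℤ) : ℚ) = ((20 : ℤ) : ℚ) := by
      push_cast
      rw [h8, h9]; ring
    exact_mod_cast this
  have hk1 : k = 0 := by omega
  have h11 := hk0 hk1
  have h12 : (1 : VQ →ₗ[ℚ] VQ) - a = 0 := by
    rcases smul_eq_zero.mp h11 with h | h
    · norm_num at h
    · exact h
  exact (sub_eq_zero.mp h12).symm

theorem exists_kl : ∀ i j : Fin 5, i ≠ j → ∃ k l, i ≠ k ∧ i ≠ l ∧ j ≠ k ∧ j ≠ l ∧ k ≠ l := by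
  decide

theorem all_triv (hD : ∀ δ v, ρ (dg δ) v = v) : ∀ g v, ρ g v = v := by
  intro g v
  have hg : g ∈ Subgroup.closure {g : SLn 5 | ∃ i j, i ≠ j ∧ g = el i j} := by
    rw [closure_el]; trivial
  induction hg using Subgroup.closure_induction generalizing v with
  | mem y hy =>
    obtain ⟨i, j, hij, rfl⟩ := hy
    obtain ⟨k, l, h1, h2, h3, h4, h5⟩ := exists_kl i j hij
    rw [el_triv ρ hD hij h1 h2 h3 h4 h5]; rfl
  | one => rw [map_one]; rfl
  | mul y z _ _ hy hz =>
    rw [map_mul]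
    show ρ y (ρ z v) = v
    rw [hz, hy]
  | inv y _ hy =>
    have : ρ y⁻¹ (ρ y v) = v := by
      show (ρ y⁻¹ * ρ y) v = v
      rw [← map_mul, inv_mul_cancel, map_one]; rfl
    rwa [hy] at this

theorem dichotomy : (∀ g v, ρ g v = v) ∨ (∃ b : Module.Basis (Fin 5) ℚ VQ, ∀ (ε : DG 5) i,
      ρ (dg ε) (b i) = ((ε.1 i : ℤ) : ℚ) • b i) := by
  rcases triv_or ρ with h | ⟨S, hS, u, hu, hc⟩
  · exact Or.inl (all_triv ρ h)
  · rcases hS with hS | hS
    · exact Or.inr (single_basis ρ hS hu hc)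
    · exact (no_pair ρ hS hu hc).elim

end Dich

end Pool.Agent.H887R2
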