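import Pool.Agent.H887R2.W5

set_option autoImplicit false
set_option linter.unusedSimpArgs false
set_option linter.unusedVariables false

/-! Extensions of `SL_5(ℤ)` by `ℚ^5`; averaging. -/

namespace Pool.Agent.H887R2

open scoped Matrix
open Matrix (SpecialLinearGroup)

/-- The vector space `ℚ^5`. -/
abbrev VQ := Fin 5 → ℚ

/-- A group extension of `SL_5(ℤ)` by `ℚ^5`. -/
structure Ext (E : Type*) [Group E] where
  pr : E →* SLn 5
  ι : VQ → E
  ι_add : ∀ v w, ι (v + w) = ι v * ι w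
  ι_inj : Function.Injective ι
  ker : ∀ e, pr e = 1 ↔ ∃ v, ι v = e
  surj : Function.Surjective pr

theorem avg {F : Type*} [Group F] [Finite F] (t : F → VQ) (L : F → (VQ →ₗ[ℚ] VQ))
    (h : ∀ a b, t (a * b) = L a (t b) + t a) : ∃ τ, ∀ a, L a τ + t a = τ := by
  have := Fintype.ofFinite F
  have hc : (Fintype.card F : ℚ) ≠ 0 := Nat.cast_ne_zero.mpr Fintype.card_ne_zero
  refine ⟨(Fintype.card F : ℚ)⁻¹ • ∑ b, t b, fun a => ?_⟩
  have h1 : ∑ b, t b = ∑ b, t (a * b) := (Equiv.sum_comp (Equiv.mulLeft a) t).symm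
  have h2 : ∑ b, t (a * b) = L a (∑ b, t b) + (Fintype.card F : ℚ) • t a := by
    rw [map_sum]
    simp only [h]
    rw [Finset.sum_add_distrib, Finset.sum_const, Finset.card_univ, Nat.cast_smul_eq_nsmul]
  conv_rhs => rw [h1, h2]
  rw [map_smul, smul_add, smul_smul, inv_mul_cancel₀ hc, one_smul]

namespace Ext

variable {E : Type*} [Group E] (X : Ext E)

theorem ι_zero : X.ι 0 = 1 := by
  have := X.ι_add 0 0
  rw [add_zero] at this
  exact (mul_eq_left.mp this.symm)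

theorem ι_neg (v : VQ) : X.ι (-v) = (X.ι v)⁻¹ := by
  rw [eq_inv_iff_mul_eq_one, ← X.ι_add, neg_add_cancel, X.ι_zero]

theorem pr_ι (v : VQ) : X.pr (X.ι v) = 1 := (X.ker _).mpr ⟨v, rfl⟩

theorem ι_eq_one {v : VQ} (h : X.ι v = 1) : v = 0 := X.ι_inj (h.trans X.ι_zero.symm)

theorem exists_ι {e f : E} (h : X.pr e = X.pr f) : ∃ v, e = X.ι v * f := by
  have : X.pr (e * f⁻¹) = 1 := by rw [map_mul, map_inv, h, mul_inv_cancel]
  obtain ⟨v, hv⟩ := (X.ker _).mp this
  exact ⟨v, by rw [hv]; group⟩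

theorem exists_act (e : E) (v : VQ) : ∃ w, X.ι w = e * X.ι v * e⁻¹ := by
  apply (X.ker _).mp
  rw [map_mul, map_mul, X.pr_ι, mul_one, map_inv, mul_inv_cancel]

/-- The conjugation action. -/
noncomputable def actFun (e : E) (v : VQ) : VQ := Classical.choose (X.exists_act e v)

theorem ι_actFun (e : E) (v : VQ) : X.ι (X.actFun e v) = e * X.ι v * e⁻¹ :=
  Classical.choose_spec (X.exists_act e v)

theorem actFun_add (e : E) (v w : VQ) : X.actFun e (v + w) = X.actFun e v + X.actFun e w := by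
  apply X.ι_inj
  rw [X.ι_actFun, X.ι_add, X.ι_add, X.ι_actFun, X.ι_actFun]
  group

theorem actFun_zero (e : E) : X.actFun e 0 = 0 := by
  apply X.ι_inj
  rw [X.ι_actFun, X.ι_zero]
  group

theorem actFun_mul (e f : E) (v : VQ) : X.actFun (e * f) v = X.actFun e (X.actFun f v) := by
  apply X.ι_inj
  rw [X.ι_actFun, X.ι_actFun, X.ι_actFun]
  group

theorem ι_comm (v w : VQ) : X.ι v * X.ι w = X.ι w * X.ι v := by
  rw [← X.ι_add, add_comm, X.ι_add]

theorem actFun_ι (w v : VQ) : X.actFun (X.ι w) v = v := by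
  apply X.ι_inj
  rw [X.ι_actFun, X.ι_comm]
  group

theorem actFun_congr {e f : E} (h : X.pr e = X.pr f) (v : VQ) : X.actFun e v = X.actFun f v := by
  obtain ⟨w, rfl⟩ := X.exists_ι h
  rw [X.actFun_mul, X.actFun_ι]

theorem actFun_one (v : VQ) : X.actFun 1 v = v := by
  apply X.ι_inj
  rw [X.ι_actFun]
  group

/-- A set-theoretic section. -/
noncomputable def sec (g : SLn 5) : E := Function.surjInv X.surj g

theorem pr_sec (g : SLn 5) : X.pr (X.sec g) = g := Function.surjInv_eq X.surj g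

/-- The linear action of `SL_5(ℤ)` on `ℚ^5`. -/
noncomputable def ρ : SLn 5 →* (VQ →ₗ[ℚ] VQ) where
  toFun g := AddMonoidHom.toRatLinearMap
    { toFun := X.actFun (X.sec g), map_zero' := X.actFun_zero _, map_add' := X.actFun_add _ }
  map_one' := by
    apply LinearMap.ext
    intro v
    show X.actFun (X.sec 1) v = v
    rw [X.actFun_congr (f := 1) (by rw [X.pr_sec, map_one]), X.actFun_one]
  map_mul' a b := by
    apply LinearMap.ext
    intro v
    show X.actFun (X.sec (a * b)) v = X.actFun (X.sec a) (X.actFun (X.sec b) v)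
    rw [← X.actFun_mul]
    exact X.actFun_congr (by rw [X.pr_sec, map_mul, X.pr_sec, X.pr_sec]) v

theorem ρ_apply (e : E) (v : VQ) : X.ρ (X.pr e) v = X.actFun e v :=
  X.actFun_congr (X.pr_sec _) v

theorem conj (e : E) (v : VQ) : e * X.ι v = X.ι (X.ρ (X.pr e) v) * e := by
  rw [X.ρ_apply, X.ι_actFun]
  group

theorem conj' (e : E) (v : VQ) : e * X.ι v * e⁻¹ = X.ι (X.ρ (X.pr e) v) := by
  rw [X.conj, mul_inv_cancel_right]

theorem exists_om : ∃ ω : Wg 5 →* E, ∀ w, X.pr (ω w) = w.1 := by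
  have hf : ∀ a b : Wg 5, ∃ v, X.sec a.1 * X.sec b.1 = X.ι v * X.sec (a * b).1 := by
    intro a b
    apply X.exists_ι
    rw [map_mul, X.pr_sec, X.pr_sec, X.pr_sec]
    rfl
  choose f hf using hf
  have hcoc : ∀ a b c : Wg 5, f a b + f (a * b) c = X.ρ a.1 (f b c) + f a (b * c) := by
    intro a b c
    apply X.ι_inj
    have h1 : X.sec a.1 * X.sec b.1 * X.sec c.1 = X.ι (f a b + f (a * b) c) * X.sec (a * b * c).1 := by
      rw [hf a b, mul_assoc, hf (a * b) c, X.ι_add]; group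
    have h2 : X.sec a.1 * (X.sec b.1 * X.sec c.1) =
        X.ι (X.ρ a.1 (f b c) + f a (b * c)) * X.sec (a * (b * c)).1 := by
      rw [hf b c, ← mul_assoc, X.conj, mul_assoc, hf a (b * c), X.ι_add, X.pr_sec]; group
    rw [← mul_assoc, h1, mul_assoc a b c] at h2
    exact mul_right_cancel h2
  have := Fintype.ofFinite (Wg 5)
  have hc : (Fintype.card (Wg 5) : ℚ) ≠ 0 := Nat.cast_ne_zero.mpr Fintype.card_ne_zero
  set N : ℚ := (Fintype.card (Wg 5) : ℚ) with hN
  let h : Wg 5 → VQ := fun a => N⁻¹ • ∑ c, f a c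
  have hh : ∀ a b : Wg 5, f a b + h (a * b) = X.ρ a.1 (h b) + h a := by
    intro a b
    have h1 : ∑ c, (f a b + f (a * b) c) = ∑ c, (X.ρ a.1 (f b c) + f a (b * c)) :=
      Finset.sum_congr rfl (fun c _ => hcoc a b c)
    rw [Finset.sum_add_distrib, Finset.sum_add_distrib, Finset.sum_const, Finset.card_univ,
      ← map_sum, show ∑ c, f a (b * c) = ∑ c, f a c from
        Equiv.sum_comp (Equiv.mulLeft b) (fun c => f a c)] at h1
    have h2 : N⁻¹ • (Fintype.card (Wg 5) • f a b) = f a b := by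
      rw [← Nat.cast_smul_eq_nsmul ℚ, smul_smul, inv_mul_cancel₀ hc, one_smul]
    show f a b + N⁻¹ • ∑ c, f (a * b) c = X.ρ a.1 (N⁻¹ • ∑ c, f b c) + N⁻¹ • ∑ c, f a c
    rw [map_smul, ← smul_add, ← h1, smul_add, h2]
  let w : Wg 5 → E := fun a => X.ι (-h a) * X.sec a.1
  have hmul : ∀ a b, w (a * b) = w a * w b := by
    intro a b
    show X.ι (-h (a * b)) * X.sec (a * b).1 = X.ι (-h a) * X.sec a.1 * (X.ι (-h b) * X.sec b.1)
    have h3 : X.ι (-h a) * X.sec a.1 * (X.ι (-h b) * X.sec b.1)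
        = X.ι (-h a) * (X.sec a.1 * X.ι (-h b)) * X.sec b.1 := by group
    rw [h3, X.conj, X.pr_sec]
    have h4 : X.ι (-h a) * (X.ι (X.ρ a.1 (-h b)) * X.sec a.1) * X.sec b.1
        = X.ι (-h a) * X.ι (X.ρ a.1 (-h b)) * (X.sec a.1 * X.sec b.1) := by group
    rw [h4, hf a b, ← mul_assoc, ← X.ι_add, ← X.ι_add]
    congr 2
    rw [map_neg]
    have := hh a b
    linear_combination (exp := 1) -this
  refine ⟨MonoidHom.mk' w hmul, fun a => ?_⟩
  show X.pr (X.ι (-h a) * X.sec a.1) = a.1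
  rw [map_mul, X.pr_ι, one_mul, X.pr_sec]

end Ext

end Pool.Agent.H887R2
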