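import Pool.Agent.H887R2.Pres

set_option autoImplicit false
set_option linter.unusedSimpArgs false
set_option linter.unusedVariables false

/-! `SL_n(ℤ)` is generated by elementary matrices. -/

namespace Pool.Agent.H887R2

open scoped Matrix
open Matrix (SpecialLinearGroup)

/-- The subgroup generated by elementary matrices with indices `< m`. -/
def El (n m : ℕ) : Subgroup (SpecialLinearGroup (Fin n) ℤ) :=
  Subgroup.closure {g | ∃ (i j : Fin n) (h : i ≠ j), (i : ℕ) < m ∧ (j : ℕ) < m ∧
    g = SpecialLinearGroup.transvection h 1}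

variable {n : ℕ}

theorem vm_mul (v : Fin n → ℤ) (g h : SpecialLinearGroup (Fin n) ℤ) :
    v ᵥ* ((g * h : SpecialLinearGroup (Fin n) ℤ) : Matrix (Fin n) (Fin n) ℤ) =
      (v ᵥ* (g : Matrix (Fin n) (Fin n) ℤ)) ᵥ* (h : Matrix (Fin n) (Fin n) ℤ) := by
  simp [Matrix.vecMul_vecMul]

theorem vm_one (v : Fin n → ℤ) :
    v ᵥ* ((1 : SpecialLinearGroup (Fin n) ℤ) : Matrix (Fin n) (Fin n) ℤ) = v := by
  simp

theorem vm_mul_inv (v : Fin n → ℤ) (g : SpecialLinearGroup (Fin n) ℤ) :
    (v ᵥ* (g : Matrix (Fin n) (Fin n) ℤ)) ᵥ*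
      ((g⁻¹ : SpecialLinearGroup (Fin n) ℤ) : Matrix (Fin n) (Fin n) ℤ) = v := by
  rw [← vm_mul, mul_inv_cancel, vm_one]

theorem vm_inv_mul (v : Fin n → ℤ) (g : SpecialLinearGroup (Fin n) ℤ) :
    (v ᵥ* ((g⁻¹ : SpecialLinearGroup (Fin n) ℤ) : Matrix (Fin n) (Fin n) ℤ)) ᵥ*
      (g : Matrix (Fin n) (Fin n) ℤ) = v := by
  rw [← vm_mul, inv_mul_cancel, vm_one]

theorem sl_mul_val (g h : SpecialLinearGroup (Fin n) ℤ) : (g * h).1 = g.1 * h.1 := rfl

theorem tv_mem_El {m : ℕ} {i j : Fin n} (h : i ≠ j) (hi : (i : ℕ) < m) (hj : (j : ℕ) < m) (a : ℤ) :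
    SpecialLinearGroup.transvection h a ∈ El n m := by
  rw [← transvection_zpow]
  refine Subgroup.zpow_mem _ (Subgroup.subset_closure ?_) _
  exact ⟨i, j, h, hi, hj, rfl⟩

theorem El_coord {m : ℕ} {p : Fin n} (hp : m ≤ (p : ℕ)) {g : SpecialLinearGroup (Fin n) ℤ}
    (hg : g ∈ El n m) : ∀ u : Fin n → ℤ, (u ᵥ* (g : Matrix (Fin n) (Fin n) ℤ)) p = u p := by
  rw [El] at hg
  induction hg using Subgroup.closure_induction with
  | mem y hy =>
    obtain ⟨i, j, hij, hi, hj, rfl⟩ := hy
    intro u
    rw [vecMul_transvection, mv_ne]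
    rintro rfl; omega
  | one => intro u; simp
  | mul y z _ _ hy hz =>
    intro u
    rw [vm_mul, hz, hy]
  | inv y _ hy =>
    intro u
    have := hy (u ᵥ* ((y⁻¹ : SpecialLinearGroup (Fin n) ℤ) : Matrix (Fin n) (Fin n) ℤ))
    rw [vm_inv_mul] at this
    exact this.symm

theorem El_fix {m : ℕ} {p : Fin n} (hp : m ≤ (p : ℕ)) {g : SpecialLinearGroup (Fin n) ℤ}
    (hg : g ∈ El n m) : (Pi.single p 1) ᵥ* (g : Matrix (Fin n) (Fin n) ℤ) = Pi.single p 1 := by
  rw [El] at hg
  induction hg using Subgroup.closure_induction with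
  | mem y hy =>
    obtain ⟨i, j, hij, hi, hj, rfl⟩ := hy
    rw [vecMul_transvection, Sys.mv_single_ne]
    rintro rfl; omega
  | one => simp
  | mul y z _ _ hy hz =>
    rw [vm_mul, hy, hz]
  | inv y _ hy =>
    have := vm_mul_inv (Pi.single p 1) y
    rwa [hy] at this

theorem unimod_act {v : Fin n → ℤ} (hv : ∃ c : Fin n → ℤ, v ⬝ᵥ c = 1)
    (g : SpecialLinearGroup (Fin n) ℤ) :
    ∃ c : Fin n → ℤ, (v ᵥ* (g : Matrix (Fin n) (Fin n) ℤ)) ⬝ᵥ c = 1 := by
  obtain ⟨c, hc⟩ := hv
  refine ⟨((g⁻¹ : SpecialLinearGroup (Fin n) ℤ) : Matrix (Fin n) (Fin n) ℤ) *ᵥ c, ?_⟩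
  rw [Matrix.dotProduct_mulVec, vm_mul_inv, hc]

theorem row_reduce (p : Fin n) (q : Fin n) (hq : (q : ℕ) < p) : ∀ (N : ℕ) (v : Fin n → ℤ),
    nrm v ≤ N → (∀ k : Fin n, (p : ℕ) < k → v k = 0) → (∃ c : Fin n → ℤ, v ⬝ᵥ c = 1) →
    ∃ g ∈ El n ((p : ℕ) + 1), v ᵥ* (g : Matrix (Fin n) (Fin n) ℤ) = Pi.single p 1 := by
  have hqp : q ≠ p := by rintro rfl; omega
  intro N
  induction N with
  | zero =>
    intro v hN _ ⟨c, hc⟩
    exfalso
    have : v = 0 := by
      ext k
      have h1 : (v k).natAbs ≤ nrm v := by
        unfold nrm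
        exact Finset.single_le_sum (f := fun i => (v i).natAbs) (fun _ _ => Nat.zero_le _)
          (Finset.mem_univ k)
      simp only [Pi.zero_apply]
      omega
    rw [this] at hc
    simp at hc
  | succ N ih =>
    intro v hN hsupp hc
    have main : ∀ i j : Fin n, i ≠ j → v i ≠ 0 → v j ≠ 0 → (v j).natAbs ≤ (v i).natAbs →
        ∃ g ∈ El n ((p : ℕ) + 1), v ᵥ* (g : Matrix (Fin n) (Fin n) ℤ) = Pi.single p 1 := by
      intro i j hij hvi hvj hle
      have hi : (i : ℕ) < (p : ℕ) + 1 := by
        by_contra h; exact hvi (hsupp i (by omega))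
      have hj : (j : ℕ) < (p : ℕ) + 1 := by
        by_contra h; exact hvj (hsupp j (by omega))
      obtain ⟨a, ha⟩ : ∃ a : ℤ, (v i + a * v j).natAbs < (v i).natAbs := by
        by_cases hs : (0 < v i ∧ 0 < v j) ∨ (v i < 0 ∧ v j < 0)
        · exact ⟨-1, by omega⟩
        · exact ⟨1, by omega⟩
      have h1 := nrm_mv j i a v
      have h2 : ∀ k : Fin n, (p : ℕ) < k → mv j i a v k = 0 := by
        intro k hk
        rw [mv_ne, hsupp k hk]
        rintro rfl; omega
      have h3 := unimod_act hc (SpecialLinearGroup.transvection hij.symm a)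
      rw [vecMul_transvection] at h3
      obtain ⟨g, hg, he⟩ := ih (mv j i a v) (by omega) h2 h3
      refine ⟨SpecialLinearGroup.transvection hij.symm a * g,
        Subgroup.mul_mem _ (tv_mem_El hij.symm hj hi a) hg, ?_⟩
      rw [vm_mul, vecMul_transvection, he]
    by_cases hex : ∃ i j : Fin n, i ≠ j ∧ v i ≠ 0 ∧ v j ≠ 0
    · obtain ⟨i, j, hij, hvi, hvj⟩ := hex
      rcases le_total (v j).natAbs (v i).natAbs with h | h
      · exact main i j hij hvi hvj h
      · exact main j i hij.symm hvj hvi h
    · push Not at hex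
      -- exactly one nonzero coordinate
      have hne : ∃ k, v k ≠ 0 := by
        by_contra h
        push Not at h
        obtain ⟨c, hc⟩ := hc
        have : v = 0 := funext h
        rw [this] at hc
        simp at hc
      obtain ⟨k, hk⟩ := hne
      have hvk : v = Pi.single k (v k) := by
        ext l
        by_cases hl : l = k
        · subst hl; simp
        · rw [Pi.single_eq_of_ne hl]
          by_contra h
          exact hk (hex l k hl h)
      have hkp : (k : ℕ) < (p : ℕ) + 1 := by
        by_contra h; exact hk (hsupp k (by omega))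
      have hunit : v k = 1 ∨ v k = -1 := by
        obtain ⟨c, hc⟩ := hc
        rw [hvk, single_dotProduct] at hc
        exact Int.isUnit_iff.mp (IsUnit.of_mul_eq_one _ hc)
      have hp1 : (p : ℕ) < (p : ℕ) + 1 := by omega
      have step1 : ∀ (k : Fin n) (hkp : k ≠ p) (hk : (k : ℕ) < (p : ℕ) + 1) (a : ℤ),
          (a = 1 ∨ a = -1) → ∃ g ∈ El n ((p : ℕ) + 1),
          (Pi.single k a : Fin n → ℤ) ᵥ* (g : Matrix (Fin n) (Fin n) ℤ) = Pi.single p 1 := by
        intro k hkp hk a ha
        refine ⟨SpecialLinearGroup.transvection hkp a *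
          SpecialLinearGroup.transvection hkp.symm (-a), Subgroup.mul_mem _
          (tv_mem_El hkp hk hp1 a) (tv_mem_El hkp.symm hp1 hk (-a)), ?_⟩
        rw [vm_mul, vecMul_transvection, vecMul_transvection]
        ext l
        by_cases hlk : l = k
        · subst hlk
          rw [mv_self, mv_self, mv_ne hkp]
          simp [Pi.single_eq_of_ne hkp, Pi.single_eq_of_ne hkp.symm]
          rcases ha with rfl | rfl <;> norm_num
        · rw [mv_ne hlk]
          by_cases hlp : l = p
          · subst hlp
            rw [mv_self]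
            simp [Pi.single_eq_of_ne hlk]
            rcases ha with rfl | rfl <;> norm_num
          · rw [mv_ne hlp, Pi.single_eq_of_ne hlk, Pi.single_eq_of_ne hlp]
      by_cases hkp' : k = p
      · subst hkp'
        rcases hunit with h | h
        · exact ⟨1, Subgroup.one_mem _, by rw [hvk, h]; simp⟩
        · obtain ⟨g, hg, he⟩ := step1 q hqp (by omega) 1 (Or.inl rfl)
          refine ⟨SpecialLinearGroup.transvection hqp.symm (-1) *
            SpecialLinearGroup.transvection hqp 1 * g, Subgroup.mul_mem _ (Subgroup.mul_mem _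
            (tv_mem_El hqp.symm hp1 (by omega) (-1)) (tv_mem_El hqp (by omega) hp1 1)) hg, ?_⟩
          rw [vm_mul, vm_mul, vecMul_transvection, vecMul_transvection, ← he]
          congr 1
          rw [hvk, h]
          ext l
          by_cases hlk : l = k
          · subst hlk
            rw [mv_self, mv_ne hqp.symm, mv_self]
            simp [Pi.single_eq_of_ne hqp, Pi.single_eq_of_ne hqp.symm]
          · rw [mv_ne hlk]
            by_cases hlq : l = q
            · subst hlq
              rw [mv_self]
              simp [Pi.single_eq_of_ne hqp, Pi.single_eq_of_ne hqp.symm]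
            · rw [mv_ne hlq, Pi.single_eq_of_ne hlk, Pi.single_eq_of_ne hlq]
      · rw [hvk]
        exact step1 k hkp' hkp (v k) hunit

/-- `A` is block diagonal with identity block on the indices `≥ m`. -/
def Blk (m : ℕ) (A : SpecialLinearGroup (Fin n) ℤ) : Prop :=
  ∀ k : Fin n, m ≤ (k : ℕ) → (∀ l, A.1 k l = if l = k then 1 else 0) ∧
    (∀ l, A.1 l k = if l = k then 1 else 0)

theorem left_clear (p : Fin n) (s : Finset (Fin n)) (hs : ∀ i ∈ s, (i : ℕ) < p) :
    ∀ A : SpecialLinearGroup (Fin n) ℤ, (∀ l, A.1 p l = if l = p then 1 else 0) →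
    ∃ L ∈ El n ((p : ℕ) + 1), ∀ i l, (L * A).1 i l =
      if i ∈ s ∧ l = p then 0 else A.1 i l := by
  induction s using Finset.induction_on with
  | empty => intro A _; exact ⟨1, Subgroup.one_mem _, fun i l => by simp⟩
  | insert k s hks ih =>
    intro A hA
    have hk : (k : ℕ) < p := hs k (Finset.mem_insert_self _ _)
    have hkp : k ≠ p := by rintro rfl; omega
    obtain ⟨L, hL, he⟩ := ih (fun i hi => hs i (Finset.mem_insert_of_mem hi))
      (SpecialLinearGroup.transvection hkp (-(A.1 k p)) * A) (by
        intro l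
        show (Matrix.transvection k p (-(A.1 k p)) * A.1) p l = _
        rw [Matrix.transvection_mul_apply_of_ne _ _ _ _ hkp.symm]
        exact hA l)
    refine ⟨L * SpecialLinearGroup.transvection hkp (-(A.1 k p)), Subgroup.mul_mem _ hL
      (tv_mem_El hkp (by omega) (by omega) _), fun i l => ?_⟩
    rw [mul_assoc, he]
    have h2 : (SpecialLinearGroup.transvection hkp (-(A.1 k p)) * A).1 i l
        = if i = k ∧ l = p then 0 else A.1 i l := by
      show (Matrix.transvection k p (-(A.1 k p)) * A.1) i l = _
      by_cases hik : i = k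
      · subst hik
        rw [Matrix.transvection_mul_apply_same, hA l]
        by_cases hl : l = p
        · subst hl; simp
        · simp [hl]
      · rw [Matrix.transvection_mul_apply_of_ne _ _ _ _ hik]
        simp [hik]
    rw [h2]
    by_cases h3 : l = p
    · subst h3
      by_cases h4 : i = k
      · subst h4; simp [hks]
      · simp [h4]
    · simp [h3]

theorem blk_mem_El : ∀ m : ℕ, m ≤ n → ∀ A : SpecialLinearGroup (Fin n) ℤ, Blk m A →
    A ∈ El n n := by
  intro m
  induction m with
  | zero =>
    intro _ A hA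
    have : A = 1 := by
      ext i j
      show A.1 i j = (1 : Matrix (Fin n) (Fin n) ℤ) i j
      rw [(hA i (Nat.zero_le _)).1 j, Matrix.one_apply]
      simp only [eq_comm]
    rw [this]; exact Subgroup.one_mem _
  | succ m ih =>
    intro hm A hA
    by_cases hm0 : m = 0
    · subst hm0
      -- determinant argument
      have h0 : (0 : ℕ) < n := by omega
      have hdiag : A.1 = Matrix.diagonal (fun i : Fin n => if (i : ℕ) = 0 then A.1 ⟨0, h0⟩ ⟨0, h0⟩ else 1) := by
        ext i j
        by_cases hi : (i : ℕ) = 0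
        · have hi' : i = ⟨0, h0⟩ := Fin.ext hi
          by_cases hj : (j : ℕ) = 0
          · have hj' : j = ⟨0, h0⟩ := Fin.ext hj
            subst hi' hj'; simp
          · have hij : i ≠ j := by rintro rfl; exact hj hi
            rw [(hA j (by omega)).2 i, Matrix.diagonal_apply_ne _ hij, if_neg hij]
        · rw [(hA i (by omega)).1 j]
          by_cases hij : j = i
          · subst hij; simp [hi]
          · rw [Matrix.diagonal_apply_ne _ (Ne.symm hij), if_neg hij]
      have hdet := A.2
      rw [hdiag, Matrix.det_diagonal, Finset.prod_eq_single (⟨0, h0⟩ : Fin n)] at hdet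
      · have h00 : A.1 ⟨0, h0⟩ ⟨0, h0⟩ = 1 := by simpa using hdet
        have : A = 1 := by
          apply Subtype.ext
          rw [hdiag, h00]
          ext i j
          by_cases hij : i = j
          · subst hij; simp
          · simp [hij]
        rw [this]; exact Subgroup.one_mem _
      · intro b _ hb
        have : (b : ℕ) ≠ 0 := fun h => hb (Fin.ext h)
        simp [this]
      · intro h; exact absurd (Finset.mem_univ _) h
    · have hmn : m < n := by omega
      set p : Fin n := ⟨m, hmn⟩ with hp
      set q : Fin n := ⟨0, by omega⟩ with hq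
      have hpv : (p : ℕ) = m := rfl
      have hqv : (q : ℕ) = 0 := rfl
      -- the row `p`
      have hc : ∃ c : Fin n → ℤ, (A.1 p) ⬝ᵥ c = 1 := by
        refine ⟨fun k => (A⁻¹).1 k p, ?_⟩
        have h1 : (A * A⁻¹).1 p p = 1 := by rw [mul_inv_cancel]; simp
        exact h1
      obtain ⟨g, hg, he⟩ := row_reduce p q (by omega) _ (A.1 p) le_rfl (by
        intro k hk
        rw [(hA k (by omega)).2 p, if_neg]
        rintro h; rw [← h] at hk; omega) hc
      have hrow : ∀ i, (A * g).1 i = (A.1 i) ᵥ* (g : Matrix (Fin n) (Fin n) ℤ) := by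
        intro i; rfl
      obtain ⟨L, hL, hLe⟩ := left_clear p (Finset.univ.filter (fun i : Fin n => (i : ℕ) < p))
        (fun i hi => (Finset.mem_filter.mp hi).2) (A * g) (by
          intro l
          rw [hrow, hpv] at *
          rw [he]
          by_cases hl : l = p
          · subst hl; simp
          · simp [hl])
      have hblk : Blk m (L * (A * g)) := by
        intro k hk
        refine ⟨fun l => ?_, fun l => ?_⟩
        · rw [hLe]
          have hk2 : k ∉ Finset.univ.filter (fun i : Fin n => (i : ℕ) < p) := by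
            simp; omega
          rw [if_neg (fun h => hk2 h.1), hrow]
          by_cases hkp : k = p
          · rw [hkp, he]
            by_cases hl : l = p
            · subst hl; simp
            · simp [hl]
          · have hk3 : m + 1 ≤ (k : ℕ) := by
              have : (k : ℕ) ≠ m := fun h => hkp (Fin.ext h)
              omega
            have e1 : A.1 k = Pi.single k 1 := by
              ext l; rw [(hA k hk3).1 l]
              by_cases hl : l = k
              · subst hl; simp
              · simp [hl]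
            rw [e1, El_fix (m := (p : ℕ) + 1) (by omega) hg]
            by_cases hl : l = k
            · subst hl; simp
            · simp [hl]
        · rw [hLe]
          by_cases hkp : k = p
          · subst hkp
            by_cases hl : (l : ℕ) < p
            · rw [if_pos ⟨Finset.mem_filter.mpr ⟨Finset.mem_univ _, hl⟩, rfl⟩, if_neg]
              rintro rfl; omega
            · have hl2 : l ∉ Finset.univ.filter (fun i : Fin n => (i : ℕ) < p) :=
                fun h => hl (Finset.mem_filter.mp h).2
              rw [if_neg (fun h => hl2 h.1), hrow]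
              by_cases hlp : l = p
              · rw [hlp, he]; simp
              · have hk3 : m + 1 ≤ (l : ℕ) := by
                  have : (l : ℕ) ≠ m := fun h => hlp (Fin.ext h)
                  omega
                have e1 : A.1 l = Pi.single l 1 := by
                  ext l'; rw [(hA l hk3).1 l']
                  by_cases hl' : l' = l
                  · subst hl'; simp
                  · simp [hl']
                rw [e1, El_fix (m := (p : ℕ) + 1) (by omega) hg, if_neg hlp,
                  Pi.single_eq_of_ne (Ne.symm hlp)]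
          · rw [if_neg (fun h => hkp h.2), hrow]
            have hk3 : m + 1 ≤ (k : ℕ) := by
              have : (k : ℕ) ≠ m := fun h => hkp (Fin.ext h)
              omega
            rw [El_coord (m := (p : ℕ) + 1) (by omega) hg, (hA k hk3).2 l]
      have hfin := ih (by omega) _ hblk
      have hmono : El n ((p : ℕ) + 1) ≤ El n n := by
        refine Subgroup.closure_mono ?_
        rintro y ⟨i, j, hij, hi, hj, rfl⟩
        exact ⟨i, j, hij, i.isLt, j.isLt, rfl⟩
      have : A = L⁻¹ * (L * (A * g)) * g⁻¹ := by group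
      rw [this]
      exact Subgroup.mul_mem _ (Subgroup.mul_mem _ (Subgroup.inv_mem _ (hmono hL)) hfin)
        (Subgroup.inv_mem _ (hmono hg))

theorem El_top : El n n = ⊤ := by
  rw [eq_top_iff]
  intro A _
  refine blk_mem_El n le_rfl A (fun k hk => ?_)
  have := k.isLt
  omega

theorem closure_transvections : Subgroup.closure {g : SpecialLinearGroup (Fin n) ℤ |
    ∃ (i j : Fin n) (h : i ≠ j), g = SpecialLinearGroup.transvection h 1} = ⊤ := by
  rw [eq_top_iff, ← El_top]
  refine Subgroup.closure_mono ?_
  rintro y ⟨i, j, hij, _, _, rfl⟩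
  exact ⟨i, j, hij, rfl⟩

end Pool.Agent.H887R2
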