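import Pool.Agent.H887R2.Dich

set_option autoImplicit false
set_option linter.unusedSimpArgs false
set_option linter.unusedVariables false

/-! Every extension of `SL_5(ℤ)` by `ℚ^5` splits. -/

namespace Pool.Agent.H887R2

open scoped Matrix
open Matrix (SpecialLinearGroup)

/-- The exponent. -/
def sg (i j : Fin 5) (ε : DG 5) : ℤ := ((ε.1 i : ℤˣ) : ℤ) * ((ε.1 j : ℤˣ) : ℤ)

theorem sg_cases (i j : Fin 5) (ε : DG 5) : sg i j ε = 1 ∨ sg i j ε = -1 := by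
  unfold sg
  rcases Int.units_eq_one_or (ε.1 i) with h | h <;> rcases Int.units_eq_one_or (ε.1 j) with h' | h' <;>
    rw [h, h'] <;> simp

theorem sg_mul (i j : Fin 5) (ε δ : DG 5) : sg i j (ε * δ) = sg i j ε * sg i j δ := by
  unfold sg
  have h1 : ∀ k, (ε * δ).1 k = ε.1 k * δ.1 k := fun k => rfl
  rw [h1, h1]
  push_cast; ring

theorem sg_sq (i j : Fin 5) (ε : DG 5) : sg i j ε * sg i j ε = 1 := by
  rcases sg_cases i j ε with h | h <;> rw [h] <;> norm_num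

/-- Elements on which the diagonal group acts like on the elementary matrix `e_ij`. -/
def Good {M : Type*} [Group M] (φ : DG 5 →* M) (i j : Fin 5) (y : M) : Prop :=
  ∀ ε, φ ε * y * (φ ε)⁻¹ = y ^ sg i j ε

theorem Good.symm {M : Type*} [Group M] {φ : DG 5 →* M} {i j : Fin 5} {y : M} (h : Good φ i j y) :
    Good φ j i y := by
  intro ε
  rw [h ε]
  unfold sg
  rw [mul_comm]

theorem Good.zpow {M : Type*} [Group M] {φ : DG 5 →* M} {i j : Fin 5} {y : M} (h : Good φ i j y)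
    (a : ℤ) : Good φ i j (y ^ a) := by
  intro ε
  rw [← conj_zpow, h ε, ← zpow_mul, ← zpow_mul, mul_comm]

theorem Good.aba {M : Type*} [Group M] {φ : DG 5 →* M} {i j : Fin 5} {a b : M} (ha : Good φ i j a)
    (hb : Good φ i j b) : Good φ i j (a * b⁻¹ * a) := by
  intro ε
  have h1 : φ ε * (a * b⁻¹ * a) * (φ ε)⁻¹ =
      (φ ε * a * (φ ε)⁻¹) * (φ ε * b * (φ ε)⁻¹)⁻¹ * (φ ε * a * (φ ε)⁻¹) := by group
  rw [h1, ha ε, hb ε]
  rcases sg_cases i j ε with h | h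
  · rw [h]; group
  · rw [h]; group

theorem Good_el {i j : Fin 5} (hij : i ≠ j) : Good dg i j (el i j) := by
  intro ε
  have h1 := (dg_SP ε).conj_el hij
  simp only [Equiv.Perm.coe_one, id_eq] at h1
  rw [h1, mul_inv_cancel_right]
  rfl

theorem Good_wd {i j : Fin 5} (hij : i ≠ j) : Good dg i j (wd i j) :=
  (Good_el hij).aba (Good_el hij.symm).symm

/-! ### existence of sign vectors -/

theorem ex_fifth : ∀ i j k l : Fin 5, ∃ m, m ≠ i ∧ m ≠ j ∧ m ≠ k ∧ m ≠ l := by decide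

theorem ex3 {i j k : Fin 5} (hij : i ≠ j) (hik : i ≠ k) (hjk : j ≠ k) (m : Fin 5) :
    ∃ ε : DG 5, ε.1 m = -1 ∧ ε.1 i = ε.1 j ∧ ε.1 j = ε.1 k := by
  obtain ⟨m', h1, h2, h3, h4⟩ := ex_fifth i j k m
  by_cases hm : m = i ∨ m = j ∨ m = k
  · refine ⟨flip i j hij * flip k m' h3.symm, ?_⟩
    have e : ∀ l, (flip i j hij * flip k m' h3.symm).1 l = (flip i j hij).1 l * (flip k m' h3.symm).1 l :=
      fun _ => rfl
    have ei : (flip i j hij * flip k m' h3.symm).1 i = -1 := by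
      rw [e, flip_a, flip_ne _ hik h1.symm, mul_one]
    have ej : (flip i j hij * flip k m' h3.symm).1 j = -1 := by
      rw [e, flip_b, flip_ne _ hjk h2.symm, mul_one]
    have ek : (flip i j hij * flip k m' h3.symm).1 k = -1 := by
      rw [e, flip_ne _ hik.symm hjk.symm, flip_a, one_mul]
    refine ⟨?_, by rw [ei, ej], by rw [ej, ek]⟩
    rcases hm with rfl | rfl | rfl
    · exact ei
    · exact ej
    · exact ek
  · push Not at hm
    refine ⟨flip m m' h4.symm, flip_a _, ?_, ?_⟩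
    · rw [flip_ne _ hm.1.symm h1.symm, flip_ne _ hm.2.1.symm h2.symm]
    · rw [flip_ne _ hm.2.1.symm h2.symm, flip_ne _ hm.2.2.symm h3.symm]

theorem ex2 {i j : Fin 5} (hij : i ≠ j) (m : Fin 5) : ∃ ε : DG 5, ε.1 m = -1 ∧ ε.1 i = ε.1 j := by
  obtain ⟨k, h1, h2, _, _⟩ := ex_fifth i j i j
  obtain ⟨ε, h3, h4, _⟩ := ex3 hij h1.symm h2.symm m
  exact ⟨ε, h3, h4⟩

theorem sg_eq_one {i j : Fin 5} {ε : DG 5} (h : ε.1 i = ε.1 j) : sg i j ε = 1 := by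
  unfold sg
  rw [h, ← Units.val_mul, Int.units_mul_self]; rfl

theorem sg_eq {i j : Fin 5} {ε : DG 5} {a b : ℤˣ} (h : ε.1 i = a) (h' : ε.1 j = b) :
    sg i j ε = (a : ℤ) * (b : ℤ) := by
  unfold sg
  rw [h, h']

namespace Ext

variable {E : Type*} [Group E] (X : Ext E) (ω : Wg 5 →* E)

/-- The lift of diagonal matrices. -/
def od (ω : Wg 5 →* E) : DG 5 →* E where
  toFun ε := ω ⟨dg ε, dg_mem ε⟩
  map_one' := by
    have : (⟨dg 1, dg_mem 1⟩ : Wg 5) = 1 := Subtype.ext (map_one dg)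
    rw [this, map_one]
  map_mul' a b := by
    rw [← map_mul]
    congr 1
    exact Subtype.ext (map_mul dg a b)

theorem pr_od (hω : ∀ w, X.pr (ω w) = w.1) (ε : DG 5) : X.pr (od ω ε) = dg ε := hω _

theorem good_transport {g : SLn 5} {σ : Equiv.Perm (Fin 5)} {s : Fin 5 → ℤˣ} (hg : SP g σ s)
    {i j : Fin 5} {y : E} (h : Good (od ω) (σ i) (σ j) y) :
    Good (od ω) i j (ω ⟨g, hg.mem⟩ * y * (ω ⟨g, hg.mem⟩)⁻¹) := by
  intro ε
  have h1 := hg.conj_dg (DG.perm σ⁻¹ ε)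
  have h2 : DG.perm σ (DG.perm σ⁻¹ ε) = ε := by
    apply Subtype.ext
    ext i
    simp [DG.perm]
  rw [h2] at h1
  have h3 : ω ⟨g, hg.mem⟩ * od ω (DG.perm σ⁻¹ ε) = od ω ε * ω ⟨g, hg.mem⟩ := by
    show ω ⟨g, hg.mem⟩ * ω ⟨dg _, _⟩ = ω ⟨dg ε, _⟩ * ω ⟨g, hg.mem⟩
    rw [← map_mul, ← map_mul]
    congr 1
    exact Subtype.ext h1
  have h4 : od ω ε * (ω ⟨g, hg.mem⟩ * y * (ω ⟨g, hg.mem⟩)⁻¹) * (od ω ε)⁻¹ =
      (od ω ε * ω ⟨g, hg.mem⟩) * y * (od ω ε * ω ⟨g, hg.mem⟩)⁻¹ := by group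
  rw [h4, ← h3]
  have h5 : ω ⟨g, hg.mem⟩ * od ω (DG.perm σ⁻¹ ε) * y * (ω ⟨g, hg.mem⟩ * od ω (DG.perm σ⁻¹ ε))⁻¹ =
      ω ⟨g, hg.mem⟩ * (od ω (DG.perm σ⁻¹ ε) * y * (od ω (DG.perm σ⁻¹ ε))⁻¹) * (ω ⟨g, hg.mem⟩)⁻¹ := by
    group
  rw [h5, h, ← conj_zpow]
  congr 1
  unfold sg
  have h6 : ∀ k, (DG.perm σ⁻¹ ε).1 (σ k) = ε.1 k := by
    intro k; simp [DG.perm]
  rw [h6, h6]

/-- the two cases -/
def CaseA : Prop := ∀ g v, X.ρ g v = v

/-- the two cases -/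
def CaseB (b : Module.Basis (Fin 5) ℚ VQ) : Prop := ∀ (ε : DG 5) i,
      X.ρ (dg ε) (b i) = ((ε.1 i : ℤ) : ℚ) • b i

theorem CaseB.repr {b : Module.Basis (Fin 5) ℚ VQ} (hb : X.CaseB b) (ε : DG 5) (z : VQ) (m : Fin 5) :
    b.repr (X.ρ (dg ε) z) m = ((ε.1 m : ℤ) : ℚ) * b.repr z m := by
  conv_lhs => rw [← b.sum_repr z]
  rw [map_sum, map_sum, Finset.sum_apply']
  rw [Finset.sum_eq_single m]
  · rw [map_smul, hb ε m, map_smul, map_smul]
    simp [mul_comm]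
  · intro k _ hk
    rw [map_smul, hb ε k, map_smul, map_smul]
    simp [hk]
  · intro h; exact absurd (Finset.mem_univ _) h

theorem CaseB.coord {b : Module.Basis (Fin 5) ℚ VQ} (hb : X.CaseB b) {ε : DG 5} {z : VQ} {m : Fin 5}
    (h : X.ρ (dg ε) z = z) (hm : ε.1 m = -1) : b.repr z m = 0 := by
  have h1 := CaseB.repr X hb ε z m
  rw [h, hm] at h1
  simp at h1
  linarith

theorem CaseB.vanish {b : Module.Basis (Fin 5) ℚ VQ} (hb : X.CaseB b) {z : VQ}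
    (h : ∀ m, ∃ ε : DG 5, ε.1 m = -1 ∧ X.ρ (dg ε) z = z) : z = 0 := by
  apply b.repr.injective
  rw [map_zero]
  ext m
  obtain ⟨ε, h1, h2⟩ := h m
  rw [CaseB.coord X hb h2 h1]; rfl

theorem conj_rel (hω : ∀ w, X.pr (ω w) = w.1) {y y' : E} {z : VQ} (h : y = X.ι z * y') (ε : DG 5) :
    od ω ε * y * (od ω ε)⁻¹ = X.ι (X.ρ (dg ε) z) * (od ω ε * y' * (od ω ε)⁻¹) := by
  rw [h, ← mul_assoc, X.conj, X.pr_od ω hω]
  group

theorem unique (hω : ∀ w, X.pr (ω w) = w.1) {i j : Fin 5} (hij : i ≠ j) {y y' : E}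
    (h : Good (od ω) i j y) (h' : Good (od ω) i j y') (hp : X.pr y = X.pr y') : y = y' := by
  obtain ⟨z, hz⟩ := X.exists_ι hp
  have h1 : ∀ ε : DG 5, ε.1 i = ε.1 j → X.ρ (dg ε) z = z := by
    intro ε hε
    have h2 := X.conj_rel ω hω hz ε
    rw [h ε, h' ε, sg_eq_one hε, zpow_one, zpow_one, hz] at h2
    exact (X.ι_inj (mul_right_cancel h2)).symm
  suffices z = 0 by rw [hz, this, X.ι_zero, one_mul]
  rcases Dich.dichotomy X.ρ with hA | ⟨b, hb⟩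
  · obtain ⟨k, hk1, hk2, _, _⟩ := ex_fifth i j i j
    have h2 := X.conj_rel ω hω hz (flip i k hk1.symm)
    have hs : sg i j (flip i k hk1.symm) = -1 := by
      rw [sg_eq (flip_a _) (flip_ne _ hij.symm hk2.symm)]; rfl
    rw [h, h', hs, hA, zpow_neg_one, zpow_neg_one, hz, mul_inv_rev, ← X.ι_neg, X.conj, hA] at h2
    have h3 := X.ι_inj (mul_right_cancel h2)
    have h4 : (2 : ℚ) • z = 0 := by
      rw [two_smul]
      nth_rewrite 1 [← h3]
      exact neg_add_cancel z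
    exact (smul_eq_zero.mp h4).resolve_left (by norm_num)
  · refine CaseB.vanish X hb (fun m => ?_)
    obtain ⟨ε, h2, h3⟩ := ex2 hij m
    exact ⟨ε, h2, h1 ε h3⟩

theorem exists_good (hω : ∀ w, X.pr (ω w) = w.1) {i j : Fin 5} (hij : i ≠ j) :
    ∃ y, X.pr y = el i j ∧ Good (od ω) i j y := by
  set x := X.sec (el i j) with hx
  have hpx : X.pr x = el i j := X.pr_sec _
  let T : DG 5 → E → E := fun ε y => (od ω ε * y * (od ω ε)⁻¹) ^ sg i j ε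
  have hpc : ∀ ε, X.pr (od ω ε * x * (od ω ε)⁻¹) = el i j ^ sg i j ε := by
    intro ε
    rw [map_mul, map_mul, map_inv, X.pr_od ω hω, hpx]
    exact Good_el hij ε
  have hpT : ∀ ε, X.pr (T ε x) = X.pr x := by
    intro ε
    show X.pr ((od ω ε * x * (od ω ε)⁻¹) ^ sg i j ε) = _
    rw [map_zpow, hpc, ← zpow_mul, sg_sq, zpow_one, hpx]
  have ht : ∀ ε, ∃ v, T ε x = X.ι v * x := fun ε => X.exists_ι (hpT ε)
  choose t ht using ht
  let L : DG 5 → (VQ →ₗ[ℚ] VQ) := fun ε => if sg i j ε = 1 then X.ρ (dg ε) else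
    -(X.ρ (el i j) * X.ρ (dg ε))
  have hTL : ∀ ε v, T ε (X.ι v * x) = X.ι (L ε v) * T ε x := by
    intro ε v
    show (od ω ε * (X.ι v * x) * (od ω ε)⁻¹) ^ sg i j ε = X.ι (L ε v) *
      (od ω ε * x * (od ω ε)⁻¹) ^ sg i j ε
    rw [X.conj_rel ω hω rfl ε]
    rcases sg_cases i j ε with h | h
    · simp only [L, h, if_true, zpow_one]
    · have h2 : X.pr (od ω ε * x * (od ω ε)⁻¹)⁻¹ = el i j := by
        rw [map_inv, hpc, h, zpow_neg_one, inv_inv]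
      have hL : L ε v = -(X.ρ (el i j) (X.ρ (dg ε) v)) := by
        show (if sg i j ε = 1 then X.ρ (dg ε) else -(X.ρ (el i j) * X.ρ (dg ε))) v = _
        rw [h, if_neg (by norm_num)]; rfl
      rw [h, zpow_neg_one, zpow_neg_one, mul_inv_rev, ← X.ι_neg, X.conj, h2, hL, map_neg]
  have hTT : ∀ ε δ y, T (ε * δ) y = T ε (T δ y) := by
    intro ε δ y
    show (od ω (ε * δ) * y * (od ω (ε * δ))⁻¹) ^ sg i j (ε * δ) =
      (od ω ε * ((od ω δ * y * (od ω δ)⁻¹) ^ sg i j δ) * (od ω ε)⁻¹) ^ sg i j ε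
    rw [← conj_zpow, ← zpow_mul, sg_mul, mul_comm (sg i j ε), map_mul]
    congr 1
    group
  obtain ⟨τ, hτ⟩ := avg t L (by
    intro a b
    apply X.ι_inj
    have : X.ι (t (a * b)) * x = X.ι (L a (t b) + t a) * x := by
      rw [← ht (a * b), hTT, ht b, hTL, ht a, X.ι_add]; group
    exact mul_right_cancel this)
  refine ⟨X.ι τ * x, ?_, ?_⟩
  · rw [map_mul, X.pr_ι, one_mul, hpx]
  · intro ε
    have h1 : T ε (X.ι τ * x) = X.ι τ * x := by
      rw [hTL, ht, ← mul_assoc, ← X.ι_add, hτ]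
    have h2 : (od ω ε * (X.ι τ * x) * (od ω ε)⁻¹) ^ sg i j ε = X.ι τ * x := h1
    nth_rewrite 2 [← h2]
    rw [← zpow_mul, sg_sq, zpow_one]

end Ext

end Pool.Agent.H887R2
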