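import Pool.Agent.H887R2.Lift

set_option autoImplicit false
set_option linter.unusedSimpArgs false
set_option linter.unusedVariables false

/-! Every extension of `SL_5(ℤ)` by `ℚ^5` splits: relations and conclusion. -/

namespace Pool.Agent.H887R2

open scoped Matrix
open Matrix (SpecialLinearGroup)

namespace Ext

variable {E : Type*} [Group E] (X : Ext E) (ω : Wg 5 →* E)

/-- Compatible data of good lifts. -/
structure GLift (x : Fin 5 → Fin 5 → E) : Prop where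
  hω : ∀ w, X.pr (ω w) = w.1
  pr : ∀ i j, i ≠ j → X.pr (x i j) = el i j
  good : ∀ i j, i ≠ j → Good (od ω) i j (x i j)

theorem exists_GLift (hω : ∀ w, X.pr (ω w) = w.1) : ∃ x, GLift X ω x := by
  have : ∀ i j : Fin 5, ∃ y : E, i ≠ j → X.pr y = el i j ∧ Good (od ω) i j y := by
    intro i j
    by_cases h : i = j
    · exact ⟨1, fun h' => absurd h h'⟩
    · obtain ⟨y, hy⟩ := X.exists_good ω hω h
      exact ⟨y, fun _ => hy⟩
  choose x hx using this
  exact ⟨x, hω, fun i j h => (hx i j h).1, fun i j h => (hx i j h).2⟩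

variable {X ω}

theorem two_z {z : VQ} (h : -z = z) : z = 0 := by
  have h4 : (2 : ℚ) • z = 0 := by
    rw [two_smul]
    nth_rewrite 1 [← h]
    exact neg_add_cancel z
  exact (smul_eq_zero.mp h4).resolve_left (by norm_num)

/-- the fixed vector -/
theorem CaseB.pm_smul {b : Module.Basis (Fin 5) ℚ VQ} (hb : X.CaseB b) (τ : Equiv.Perm (Fin 5))
    (hτ : Equiv.Perm.sign τ = 1) {m : Fin 5} (hm : τ m = m) :
    ∃ c : ℚ, X.ρ (pm τ hτ) (b m) = c • b m := by
  have hm' : τ⁻¹ m = m := by rw [Equiv.Perm.inv_eq_iff_eq]; exact hm.symm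
  have h0 : ∀ ε : DG 5, X.ρ (dg ε) (X.ρ (pm τ hτ) (b m)) = ((ε.1 m : ℤ) : ℚ) • X.ρ (pm τ hτ) (b m) := by
    intro ε
    have h1 := (pm_SP τ hτ).conj_dg (DG.perm τ⁻¹ ε)
    have h2 : DG.perm τ (DG.perm τ⁻¹ ε) = ε := by
      apply Subtype.ext
      ext i
      simp [DG.perm]
    rw [h2] at h1
    have h3 : X.ρ (dg ε) (X.ρ (pm τ hτ) (b m)) = X.ρ (pm τ hτ) (X.ρ (dg (DG.perm τ⁻¹ ε)) (b m)) := by
      show (X.ρ (dg ε) * X.ρ (pm τ hτ)) (b m) = (X.ρ (pm τ hτ) * X.ρ (dg (DG.perm τ⁻¹ ε))) (b m)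
      rw [← map_mul, ← map_mul, h1]
    rw [h3, hb, map_smul]
    have h4 : (DG.perm τ⁻¹ ε).1 m = ε.1 m := by
      show ε.1 (τ⁻¹ m) = ε.1 m
      rw [hm']
    rw [h4]
  refine ⟨b.repr (X.ρ (pm τ hτ) (b m)) m, ?_⟩
  apply b.repr.injective
  ext a
  by_cases ha : a = m
  · subst ha; simp
  · obtain ⟨a', h1, h2, _, _⟩ := ex_fifth a m a m
    have h3 := CaseB.repr X hb (flip a a' h1.symm) (X.ρ (pm τ hτ) (b m)) a
    rw [h0, flip_ne _ (Ne.symm ha) h2.symm, flip_a] at h3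
    simp only [map_smul, Finsupp.smul_apply, smul_eq_mul, b.repr_self, Finsupp.single_apply] at h3 ⊢
    rw [if_neg (Ne.symm ha), mul_zero]
    push_cast at h3
    linarith

theorem CaseB.pm_fix {b : Module.Basis (Fin 5) ℚ VQ} (hb : X.CaseB b) {a c d m : Fin 5}
    (hac : a ≠ c) (had : a ≠ d) (hcd : c ≠ d) (hma : m ≠ a) (hmc : m ≠ c) (hmd : m ≠ d)
    (hτ : Equiv.Perm.sign (Equiv.swap a c * Equiv.swap a d) = 1) :
    X.ρ (pm (Equiv.swap a c * Equiv.swap a d) hτ) (b m) = b m := by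
  have h3 := Equiv.Perm.isThreeCycle_swap_mul_swap_same hac had hcd
  obtain ⟨q, hq⟩ := CaseB.pm_smul hb (Equiv.swap a c * Equiv.swap a d) hτ (m := m) (by
    rw [Equiv.Perm.mul_apply, Equiv.swap_apply_of_ne_of_ne hma hmd,
      Equiv.swap_apply_of_ne_of_ne hma hmc])
  have hpow : (pm (Equiv.swap a c * Equiv.swap a d) hτ) ^ 3 = 1 := by
    have ho := h3.orderOf
    have h5 : (Equiv.swap a c * Equiv.swap a d) ^ 3 = 1 := by rw [← ho]; exact pow_orderOf_eq_one _
    generalize Equiv.swap a c * Equiv.swap a d = τ at *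
    apply Subtype.ext
    show ((pm τ hτ) ^ 3).1 = (1 : Matrix (Fin 5) (Fin 5) ℤ)
    have h6 : ((pm τ hτ) ^ 3).1 = τ.permMatrix ℤ * τ.permMatrix ℤ * τ.permMatrix ℤ := by
      rw [pow_succ, pow_succ, pow_one]; rfl
    rw [h6, ← Matrix.permMatrix_mul, ← Matrix.permMatrix_mul]
    have h7 : τ * (τ * τ) = 1 := by
      rw [← h5, pow_succ, pow_succ, pow_one, mul_assoc]
    rw [h7, Matrix.permMatrix_one]
  have h4 : (X.ρ (pm (Equiv.swap a c * Equiv.swap a d) hτ ^ 3)) (b m) = (q ^ 3) • b m := by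
    rw [map_pow, pow_succ, pow_succ, pow_one]
    show X.ρ _ (X.ρ _ (X.ρ _ (b m))) = _
    rw [hq, map_smul, hq, map_smul, map_smul, hq, smul_smul, smul_smul]
    congr 1; ring
  rw [hpow, map_one] at h4
  have h5 : (q ^ 3 - 1) • b m = 0 := by
    rw [sub_smul, ← h4, one_smul]
    exact sub_self _
  have h6 : q ^ 3 = 1 := by
    rcases smul_eq_zero.mp h5 with h | h
    · linarith
    · exact absurd h (b.ne_zero m)
  have h7 : q = 1 := by
    nlinarith [sq_nonneg (q + 1 / 2), sq_nonneg (q - 1), sq_nonneg q, mul_self_nonneg (q ^ 2 + q + 1)]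
  rw [hq, h7, one_smul]

variable {x : Fin 5 → Fin 5 → E} (G : GLift X ω x)

include G

theorem GLift.conjx {g : SLn 5} {σ : Equiv.Perm (Fin 5)} {s : Fin 5 → ℤˣ} (hg : SP g σ s)
    {i j : Fin 5} (hij : i ≠ j) :
    ω ⟨g, hg.mem⟩ * x (σ i) (σ j) * (ω ⟨g, hg.mem⟩)⁻¹ = x i j ^ ((s i : ℤ) * (s j : ℤ)) := by
  have hσ : σ i ≠ σ j := fun h => hij (σ.injective h)
  refine X.unique ω G.hω hij (good_transport ω hg (G.good _ _ hσ)) ((G.good i j hij).zpow _) ?_
  rw [map_mul, map_mul, map_inv, G.hω, G.pr _ _ hσ, map_zpow, G.pr _ _ hij]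
  show g * _ * g⁻¹ = _
  rw [hg.conj_el hij, mul_inv_cancel_right]

/-- conjugation of a commutation relation -/
theorem GLift.conj_comm {i j k l : Fin 5} (hij : i ≠ j) (hkl : k ≠ l) {z : VQ}
    (h : x i j * x k l = X.ι z * (x k l * x i j)) (ε : DG 5) :
    x i j ^ sg i j ε * x k l ^ sg k l ε =
      X.ι (X.ρ (dg ε) z) * (x k l ^ sg k l ε * x i j ^ sg i j ε) := by
  have h1 := X.conj_rel ω G.hω h ε
  have e1 : od ω ε * (x i j * x k l) * (od ω ε)⁻¹ =
      (od ω ε * x i j * (od ω ε)⁻¹) * (od ω ε * x k l * (od ω ε)⁻¹) := by group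
  have e2 : od ω ε * (x k l * x i j) * (od ω ε)⁻¹ =
      (od ω ε * x k l * (od ω ε)⁻¹) * (od ω ε * x i j * (od ω ε)⁻¹) := by group
  rw [e1, e2, G.good i j hij, G.good k l hkl] at h1
  exact h1

theorem GLift.inv1 {i j k l : Fin 5} (hij : i ≠ j) (hkl : k ≠ l) {z : VQ}
    (h : x i j * x k l = X.ι z * (x k l * x i j)) {ε : DG 5} (h1 : sg i j ε = 1) (h2 : sg k l ε = 1) :
    X.ρ (dg ε) z = z := by
  have h3 := G.conj_comm hij hkl h ε
  rw [h1, h2, zpow_one, zpow_one, h] at h3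
  exact (X.ι_inj (mul_right_cancel h3)).symm

/-- the central case -/
theorem GLift.inv2 (hA : X.CaseA) {i j k l : Fin 5} (hij : i ≠ j) (hkl : k ≠ l) {z : VQ}
    (h : x i j * x k l = X.ι z * (x k l * x i j)) {ε : DG 5} (h1 : sg i j ε = -1) (h2 : sg k l ε = 1) :
    z = 0 := by
  have h3 := G.conj_comm hij hkl h ε
  rw [h1, h2, zpow_one, zpow_neg_one, hA] at h3
  apply two_z
  apply X.ι_inj
  -- `x_ij⁻¹ x_kl = ι(-z) x_kl x_ij⁻¹`
  have hc : ∀ e : E, e * X.ι z = X.ι z * e := by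
    intro e
    rw [X.conj, hA]
  have h4 : (x i j)⁻¹ * x k l = X.ι (-z) * (x k l * (x i j)⁻¹) := by
    have h5 : x k l * x i j = X.ι (-z) * (x i j * x k l) := by
      rw [h, ← mul_assoc, ← X.ι_add, neg_add_cancel, X.ι_zero, one_mul]
    have h6 : x k l * (x i j)⁻¹ = X.ι z * ((x i j)⁻¹ * x k l) := by
      have h7 : x k l = (x i j)⁻¹ * (X.ι z * (x k l * x i j)) := by
        rw [← h]; group
      have h8 : (x i j)⁻¹ * (X.ι z * (x k l * x i j)) = X.ι z * ((x i j)⁻¹ * x k l * x i j) := by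
        rw [← mul_assoc, hc]; group
      rw [h8] at h7
      nth_rewrite 1 [h7]
      group
    rw [h6, ← mul_assoc, ← X.ι_add, neg_add_cancel, X.ι_zero, one_mul]
  rw [h3] at h4
  exact (mul_right_cancel h4).symm

theorem GLift.comm4 {b : Module.Basis (Fin 5) ℚ VQ} (hb : X.CaseB b) {i j k l : Fin 5}
    (hij : i ≠ j) (hik : i ≠ k) (hil : i ≠ l) (hjk : j ≠ k) (hjl : j ≠ l) (hkl : k ≠ l) {z : VQ}
    (h : x i j * x k l = X.ι z * (x k l * x i j)) : z = 0 := by
  obtain ⟨m, hmi, hmj, hmk, hml⟩ := ex_fifth i j k l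
  -- `z` is a multiple of `b m`
  have hz : z = (b.repr z m) • b m := by
    apply b.repr.injective
    ext a
    by_cases ha : a = m
    · subst ha; simp
    · have : b.repr z a = 0 := by
        have hm4 : a = i ∨ a = j ∨ a = k ∨ a = l := by
          have hdec : ∀ i j k l m a : Fin 5, i ≠ j → i ≠ k → i ≠ l → j ≠ k → j ≠ l → k ≠ l →
            m ≠ i → m ≠ j → m ≠ k → m ≠ l → a ≠ m → a = i ∨ a = j ∨ a = k ∨ a = l := by
            intro i j k l m a
            omega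
          exact hdec i j k l m a hij hik hil hjk hjl hkl hmi hmj hmk hml ha
        have f1 : X.ρ (dg (flip i j hij)) z = z := G.inv1 hij hkl h
          (sg_eq_one (by rw [flip_a, flip_b]))
          (sg_eq_one (by rw [flip_ne _ hik.symm hjk.symm, flip_ne _ hil.symm hjl.symm]))
        have f2 : X.ρ (dg (flip k l hkl)) z = z := G.inv1 hij hkl h
          (sg_eq_one (by rw [flip_ne _ hik hil, flip_ne _ hjk hjl]))
          (sg_eq_one (by rw [flip_a, flip_b]))
        rcases hm4 with rfl | rfl | rfl | rfl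
        · exact CaseB.coord X hb f1 (flip_a _)
        · exact CaseB.coord X hb f1 (flip_b _)
        · exact CaseB.coord X hb f2 (flip_a _)
        · exact CaseB.coord X hb f2 (flip_b _)
      rw [this]
      simp [Finsupp.single_apply, Ne.symm ha]
  -- the permutation
  have s1 : Equiv.Perm.sign (Equiv.swap j i * Equiv.swap j l) = 1 :=
    (Equiv.Perm.isThreeCycle_swap_mul_swap_same hij.symm hjl hil).sign
  have s2 : Equiv.Perm.sign (Equiv.swap i k * Equiv.swap i j) = 1 :=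
    (Equiv.Perm.isThreeCycle_swap_mul_swap_same hik hij hjk.symm).sign
  set σ : Equiv.Perm (Fin 5) := (Equiv.swap i k * Equiv.swap i j) * (Equiv.swap j i * Equiv.swap j l)
    with hσ
  have hsp : SP (pm _ s1 * pm _ s2) σ (fun l' => (1 : Fin 5 → ℤˣ) l' *
    (1 : Fin 5 → ℤˣ) ((Equiv.swap j i * Equiv.swap j l) l')) := (pm_SP _ s1).mul (pm_SP _ s2)
  have σi : σ i = k := by
    rw [hσ]; simp only [Equiv.Perm.mul_apply]
    rw [Equiv.swap_apply_of_ne_of_ne hij hil, Equiv.swap_apply_right, Equiv.swap_apply_right,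
      Equiv.swap_apply_left]
  have σj : σ j = l := by
    rw [hσ]; simp only [Equiv.Perm.mul_apply]
    rw [Equiv.swap_apply_left, Equiv.swap_apply_of_ne_of_ne hjl.symm hil.symm,
      Equiv.swap_apply_of_ne_of_ne hil.symm hjl.symm, Equiv.swap_apply_of_ne_of_ne hil.symm hkl.symm]
  have σk : σ k = i := by
    rw [hσ]; simp only [Equiv.Perm.mul_apply]
    rw [Equiv.swap_apply_of_ne_of_ne hjk.symm hkl, Equiv.swap_apply_of_ne_of_ne hjk.symm hik.symm,
      Equiv.swap_apply_of_ne_of_ne hik.symm hjk.symm, Equiv.swap_apply_right]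
  have σl : σ l = j := by
    rw [hσ]; simp only [Equiv.Perm.mul_apply]
    rw [Equiv.swap_apply_right, Equiv.swap_apply_left, Equiv.swap_apply_left,
      Equiv.swap_apply_of_ne_of_ne hij.symm hjk]
  have c1 := G.conjx hsp hij
  have c2 := G.conjx hsp hkl
  rw [σi, σj] at c1
  rw [σk, σl] at c2
  simp only [Pi.one_apply, mul_one, Units.val_one, zpow_one] at c1 c2
  set w := ω ⟨pm _ s1 * pm _ s2, hsp.mem⟩ with hw
  have hprw : X.pr w = pm _ s1 * pm _ s2 := G.hω _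
  have hzfix : X.ρ (X.pr w) z = z := by
    rw [hprw, map_mul, hz, map_smul]
    show _ • X.ρ _ (X.ρ _ (b m)) = _
    rw [CaseB.pm_fix hb hik hij hjk.symm hmi hmk hmj, CaseB.pm_fix hb hij.symm hjl hil hmj hmi hml]
  have h1 : w * (x i j * x k l) * w⁻¹ = w * (X.ι z * (x k l * x i j)) * w⁻¹ := by rw [h]
  have e1 : w * (x i j * x k l) * w⁻¹ = (w * x i j * w⁻¹) * (w * x k l * w⁻¹) := by group
  have e2 : w * (X.ι z * (x k l * x i j)) * w⁻¹ =
      (w * X.ι z * w⁻¹) * ((w * x k l * w⁻¹) * (w * x i j * w⁻¹)) := by group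
  rw [e1, e2, c1, c2, X.conj', hzfix, h, ← mul_assoc, ← X.ι_add] at h1
  -- `x k l * x i j = ι (z + z) * (x k l * x i j)`
  have h2 : X.ι (z + z) = 1 := by
    have : 1 * (x k l * x i j) = X.ι (z + z) * (x k l * x i j) := by rw [one_mul]; exact h1
    exact (mul_right_cancel this).symm
  have h3 := X.ι_eq_one h2
  have h4 : (2 : ℚ) • z = 0 := by rw [two_smul]; exact h3
  exact (smul_eq_zero.mp h4).resolve_left (by norm_num)

theorem GLift.comm (i j k l : Fin 5) (hij : i ≠ j) (hkl : k ≠ l) (hjk : j ≠ k) (hil : i ≠ l) :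
    x i j * x k l = x k l * x i j := by
  have hp : X.pr (x i j * x k l) = X.pr (x k l * x i j) := by
    rw [map_mul, map_mul, G.pr i j hij, G.pr k l hkl, el_comm hij hkl hjk hil]
  obtain ⟨z, hz⟩ := X.exists_ι hp
  suffices z = 0 by rw [hz, this, X.ι_zero, one_mul]
  by_cases hsame : i = k ∧ j = l
  · obtain ⟨rfl, rfl⟩ := hsame
    apply X.ι_eq_one
    have : 1 * (x i j * x i j) = X.ι z * (x i j * x i j) := by rw [one_mul]; exact hz
    exact (mul_right_cancel this).symm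
  rcases Dich.dichotomy X.ρ with hA | ⟨b, hb⟩
  · obtain ⟨m, hmi, hmj, hmk, hml⟩ := ex_fifth i j k l
    by_cases hik : i = k
    · subst hik
      have hjl : j ≠ l := fun h => hsame ⟨rfl, h⟩
      refine G.inv2 hA hij hkl hz (ε := flip j m hmj.symm) ?_ ?_
      · rw [sg_eq (flip_ne _ hij hmi.symm) (flip_a _)]; rfl
      · rw [sg_eq (flip_ne _ hij hmi.symm) (flip_ne _ hjl.symm hml.symm)]; rfl
    · refine G.inv2 hA hij hkl hz (ε := flip i m hmi.symm) ?_ ?_
      · rw [sg_eq (flip_a _) (flip_ne _ hij.symm hmj.symm)]; rfl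
      · rw [sg_eq (flip_ne _ (Ne.symm hik) hmk.symm) (flip_ne _ hil.symm hml.symm)]; rfl
  · by_cases hik : i = k
    · subst hik
      have hjl : j ≠ l := fun h => hsame ⟨rfl, h⟩
      refine CaseB.vanish X hb (fun m => ?_)
      obtain ⟨ε, h1, h2, h3⟩ := ex3 hij hil hjl m
      exact ⟨ε, h1, G.inv1 hij hkl hz (sg_eq_one h2) (sg_eq_one (h2.trans h3))⟩
    · by_cases hjl : j = l
      · subst hjl
        refine CaseB.vanish X hb (fun m => ?_)
        obtain ⟨ε, h1, h2, h3⟩ := ex3 hij hik hjk m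
        exact ⟨ε, h1, G.inv1 hij hkl hz (sg_eq_one h2) (sg_eq_one h3.symm)⟩
      · exact G.comm4 hb hij hik hil hjk hjl hkl hz

theorem GLift.stein (i j k : Fin 5) (hij : i ≠ j) (hjk : j ≠ k) (hik : i ≠ k) :
    x i j * x j k = x i k * x j k * x i j := by
  have hp : X.pr (x i j * x j k) = X.pr (x i k * x j k * x i j) := by
    rw [map_mul, map_mul, map_mul, G.pr i j hij, G.pr j k hjk, G.pr i k hik, el_stein hij hjk hik]
  obtain ⟨z, hz⟩ := X.exists_ι hp
  suffices z = 0 by rw [hz, this, X.ι_zero, one_mul]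
  have hconj : ∀ ε : DG 5, x i j ^ sg i j ε * x j k ^ sg j k ε = X.ι (X.ρ (dg ε) z) *
      (x i k ^ sg i k ε * x j k ^ sg j k ε * x i j ^ sg i j ε) := by
    intro ε
    have h1 := X.conj_rel ω G.hω hz ε
    have e1 : od ω ε * (x i j * x j k) * (od ω ε)⁻¹ =
        (od ω ε * x i j * (od ω ε)⁻¹) * (od ω ε * x j k * (od ω ε)⁻¹) := by group
    have e2 : od ω ε * (x i k * x j k * x i j) * (od ω ε)⁻¹ =
        (od ω ε * x i k * (od ω ε)⁻¹) * (od ω ε * x j k * (od ω ε)⁻¹) *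
        (od ω ε * x i j * (od ω ε)⁻¹) := by group
    rw [e1, e2, G.good i j hij, G.good j k hjk, G.good i k hik] at h1
    exact h1
  rcases Dich.dichotomy X.ρ with hA | ⟨b, hb⟩
  · have h1 := hconj (flip i j hij)
    have s1 : sg i j (flip i j hij) = 1 := sg_eq_one (by rw [flip_a, flip_b])
    have s2 : sg j k (flip i j hij) = -1 := by
      rw [sg_eq (flip_b _) (flip_ne _ hik.symm hjk.symm)]; rfl
    have s3 : sg i k (flip i j hij) = -1 := by
      rw [sg_eq (flip_a _) (flip_ne _ hik.symm hjk.symm)]; rfl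
    rw [s1, s2, s3, hA, zpow_one, zpow_neg_one, zpow_neg_one] at h1
    have hc : ∀ e : E, e * X.ι (-z) = X.ι (-z) * e := by
      intro e
      rw [X.conj, hA]
    apply two_z
    apply X.ι_inj
    have h2 : x i j * x j k * (x i j)⁻¹ = X.ι z * (x i k * x j k) := by
      rw [hz]; group
    have h3 : x i j * (x j k)⁻¹ * (x i j)⁻¹ = X.ι (-z) * ((x i k)⁻¹ * (x j k)⁻¹) := by
      have h4 : x i j * (x j k)⁻¹ * (x i j)⁻¹ = (x i j * x j k * (x i j)⁻¹)⁻¹ := by group
      rw [h4, h2, mul_inv_rev, ← X.ι_neg, hc]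
      congr 1
      rw [G.comm i k j k hik hjk hjk.symm hik, mul_inv_rev]
    have h5 : x i j * (x j k)⁻¹ * (x i j)⁻¹ = X.ι z * ((x i k)⁻¹ * (x j k)⁻¹) := by
      rw [h1]; group
    rw [h3] at h5
    exact mul_right_cancel h5
  · refine CaseB.vanish X hb (fun m => ?_)
    obtain ⟨ε, h1, h2, h3⟩ := ex3 hij hik hjk m
    refine ⟨ε, h1, ?_⟩
    have h4 := hconj ε
    rw [sg_eq_one h2, sg_eq_one h3, sg_eq_one (h2.trans h3), zpow_one, zpow_one, zpow_one, hz] at h4
    exact (X.ι_inj (mul_right_cancel h4)).symm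

theorem GLift.wmem (i j : Fin 5) (hij : i ≠ j) :
    x i j * (x j i)⁻¹ * x i j = ω ⟨wd i j, wd_mem hij⟩ := by
  refine X.unique ω G.hω hij ((G.good i j hij).aba (G.good j i hij.symm).symm) ?_ ?_
  · intro ε
    have h1 := Good_wd hij ε
    have h2 : (⟨dg ε, dg_mem ε⟩ : Wg 5) * ⟨wd i j, wd_mem hij⟩ * (⟨dg ε, dg_mem ε⟩ : Wg 5)⁻¹ =
        ⟨wd i j, wd_mem hij⟩ ^ sg i j ε := Subtype.ext h1
    show ω ⟨dg ε, dg_mem ε⟩ * _ * (ω ⟨dg ε, dg_mem ε⟩)⁻¹ = _
    rw [← map_inv, ← map_mul, ← map_mul, h2, map_zpow]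
  · rw [map_mul, map_mul, map_inv, G.pr i j hij, G.pr j i hij.symm, G.hω]
    rfl

/-- The system. -/
def GLift.sys : Sys 5 E where
  pr := X.pr
  x := x
  Om := ω.range
  hx i j h := by rw [G.pr i j h, el_of h]
  comm i j k l := G.comm i j k l
  stein i j k := G.stein i j k
  conj := by
    rintro w ⟨g, rfl⟩ i j hij
    obtain ⟨σ, s, hs⟩ := W_struct g.2
    refine ⟨σ⁻¹ i, σ⁻¹ j, (s (σ⁻¹ i) : ℤ) * (s (σ⁻¹ j) : ℤ), fun h => hij (σ⁻¹.injective h), ?_, ?_⟩
    · rcases Int.units_eq_one_or (s (σ⁻¹ i)) with h | h <;>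
        rcases Int.units_eq_one_or (s (σ⁻¹ j)) with h' | h' <;> rw [h, h'] <;> simp
    · have h1 := G.conjx hs (i := σ⁻¹ i) (j := σ⁻¹ j) (fun h => hij (σ⁻¹.injective h))
      have e1 : σ (σ⁻¹ i) = i := by simp
      have e2 : σ (σ⁻¹ j) = j := by simp
      rw [e1, e2] at h1
      rw [← h1]
      group
  norm := by
    rintro w ⟨g, rfl⟩ v
    rw [G.hω]
    exact g.2 v
  inj := by
    rintro w ⟨g, rfl⟩ h
    rw [G.hω] at h
    have : g = 1 := Subtype.ext h
    rw [this, map_one]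
  wmem i j hij := ⟨_, (G.wmem i j hij).symm⟩

end Ext

/-- Every extension of `SL_5(ℤ)` by `ℚ^5` has a complement. -/
theorem Ext.exists_complement {E : Type*} [Group E] (X : Ext E) : ∃ S : Subgroup E,
    (∀ g ∈ S, X.pr g = 1 → g = 1) ∧ (∀ a : SLn 5, ∃ g ∈ S, X.pr g = a) := by
  obtain ⟨ω, hω⟩ := X.exists_om
  obtain ⟨x, G⟩ := X.exists_GLift ω hω
  refine ⟨Subgroup.closure ({g | ∃ i j, i ≠ j ∧ g = x i j} ∪ ω.range), ?_, ?_⟩
  · intro g hg hp
    exact (Ext.GLift.sys G).ker_main hg hp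
  · intro a
    have ha : a ∈ Subgroup.closure {g : SLn 5 | ∃ i j, i ≠ j ∧ g = el i j} := by
      rw [closure_el]; trivial
    induction ha using Subgroup.closure_induction with
    | mem y hy =>
      obtain ⟨i, j, hij, rfl⟩ := hy
      exact ⟨x i j, Subgroup.subset_closure (Or.inl ⟨i, j, hij, rfl⟩), G.pr i j hij⟩
    | one => exact ⟨1, Subgroup.one_mem _, map_one _⟩
    | mul y z _ _ hy hz =>
      obtain ⟨g, hg, rfl⟩ := hy
      obtain ⟨h, hh, rfl⟩ := hz
      exact ⟨g * h, Subgroup.mul_mem _ hg hh, map_mul _ _ _⟩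
    | inv y _ hy =>
      obtain ⟨g, hg, rfl⟩ := hy
      exact ⟨g⁻¹, Subgroup.inv_mem _ hg, map_inv _ _⟩

/-- The projection cocycle of a complement. -/
theorem Ext.exists_cocycle {E : Type*} [Group E] (X : Ext E) : ∃ c : E → VQ,
    (∀ v, c (X.ι v) = v) ∧ ∀ e f, c (e * f) = c e + X.ρ (X.pr e) (c f) := by
  obtain ⟨S, h1, h2⟩ := X.exists_complement
  have h3 : ∀ e : E, ∃ v, ∃ s ∈ S, e = X.ι v * s := by
    intro e
    obtain ⟨s, hs, hp⟩ := h2 (X.pr e)
    obtain ⟨v, hv⟩ := X.exists_ι hp.symm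
    exact ⟨v, s, hs, hv⟩
  have huniq : ∀ v v' : VQ, ∀ s ∈ S, ∀ s' ∈ S, X.ι v * s = X.ι v' * s' → v = v' := by
    intro v v' s hs s' hs' h
    have hp : X.pr s = X.pr s' := by
      have := congrArg X.pr h
      rwa [map_mul, map_mul, X.pr_ι, X.pr_ι, one_mul, one_mul] at this
    have h4 : s * s'⁻¹ = 1 := h1 _ (S.mul_mem hs (S.inv_mem hs')) (by
      rw [map_mul, map_inv, hp, mul_inv_cancel])
    have h5 : s = s' := mul_inv_eq_one.mp h4
    rw [h5] at h
    exact X.ι_inj (mul_right_cancel h)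
  choose c s hs hc using h3
  refine ⟨c, fun v => ?_, fun e f => ?_⟩
  · refine huniq _ _ _ (hs (X.ι v)) 1 S.one_mem ?_
    rw [← hc (X.ι v), mul_one]
  · refine huniq _ _ _ (hs (e * f)) (s e * s f) (S.mul_mem (hs e) (hs f)) ?_
    rw [← hc (e * f)]
    have hp : X.pr (s e) = X.pr e := by
      conv_rhs => rw [hc e]
      rw [map_mul, X.pr_ι, one_mul]
    have h6 : e * f = X.ι (c e) * (s e * X.ι (c f)) * s f := by
      conv_lhs => rw [hc e, hc f]
      group
    rw [h6, X.conj, hp, X.ι_add]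
    group

end Pool.Agent.H887R2
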