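import Mathlib

set_option autoImplicit false
set_option linter.unusedSimpArgs false
set_option linter.unusedVariables false

/-! A group with the Steinberg relations over `ℤ` and a lift of the signed permutation group maps
injectively to `SL_n(ℤ)` (peak reduction for the `ℓ¹`-norm, following Silvester). -/

namespace Pool.Agent.H887R2

open scoped Matrix
open Matrix (SpecialLinearGroup)

/-- The `ℓ¹`-norm of an integer vector. -/
def nrm {n : ℕ} (v : Fin n → ℤ) : ℕ := ∑ i, (v i).natAbs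

theorem nrm_update {n : ℕ} (v : Fin n → ℤ) (j : Fin n) (a : ℤ) :
    nrm (Function.update v j a) + (v j).natAbs = nrm v + a.natAbs := by
  unfold nrm
  rw [← Finset.add_sum_erase _ _ (Finset.mem_univ j),
    ← Finset.add_sum_erase _ (fun i => (v i).natAbs) (Finset.mem_univ j)]
  have : ∑ x ∈ Finset.univ.erase j, (Function.update v j a x).natAbs
      = ∑ x ∈ Finset.univ.erase j, (v x).natAbs := by
    refine Finset.sum_congr rfl (fun x hx => ?_)
    rw [Function.update_of_ne (Finset.ne_of_mem_erase hx)]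
  rw [this, Function.update_self]
  omega

/-- The elementary move on vectors. -/
def mv {n : ℕ} (i j : Fin n) (a : ℤ) (v : Fin n → ℤ) : Fin n → ℤ :=
  Function.update v j (v j + a * v i)

theorem mv_self {n : ℕ} (i j : Fin n) (a : ℤ) (v : Fin n → ℤ) : mv i j a v j = v j + a * v i := by
  simp [mv]

theorem mv_ne {n : ℕ} {i j k : Fin n} (h : k ≠ j) (a : ℤ) (v : Fin n → ℤ) : mv i j a v k = v k := by
  simp [mv, Function.update_of_ne h]

theorem nrm_mv {n : ℕ} (i j : Fin n) (a : ℤ) (v : Fin n → ℤ) :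
    nrm (mv i j a v) + (v j).natAbs = nrm v + (v j + a * v i).natAbs :=
  nrm_update v j _

theorem vecMul_transvection {n : ℕ} {i j : Fin n} (h : i ≠ j) (a : ℤ) (v : Fin n → ℤ) :
    v ᵥ* (SpecialLinearGroup.transvection h a : Matrix (Fin n) (Fin n) ℤ) = mv i j a v := by
  ext k
  rw [SpecialLinearGroup.transvection_coe, Matrix.vecMul_add, Matrix.vecMul_one, Pi.add_apply]
  by_cases hk : k = j
  · subst hk; rw [mv_self]
    simp [Matrix.vecMul, dotProduct, Matrix.single_apply, mul_comm]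
  · rw [mv_ne hk]
    simp [Matrix.vecMul, dotProduct, Ne.symm hk]

theorem transvection_zpow {n : ℕ} {i j : Fin n} (h : i ≠ j) (a : ℤ) :
    (SpecialLinearGroup.transvection h (1 : ℤ)) ^ a = SpecialLinearGroup.transvection h a := by
  induction a using Int.induction_on with
  | zero =>
    rw [zpow_zero]
    ext k l
    rw [SpecialLinearGroup.transvection_coe]
    simp
  | succ k ih => rw [zpow_add, ih, zpow_one, SpecialLinearGroup.transvection_add]
  | pred k ih =>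
    rw [zpow_sub, ih, zpow_one, SpecialLinearGroup.transvection_inv, sub_eq_add_neg,
      SpecialLinearGroup.transvection_add]

/-- Data: a group over `SL_n(ℤ)` with lifts of the elementary matrices satisfying the Steinberg
relations, and a lift of a group of signed permutations. -/
structure Sys (n : ℕ) (E : Type*) [Group E] where
  pr : E →* SpecialLinearGroup (Fin n) ℤ
  x : Fin n → Fin n → E
  Om : Subgroup E
  hx : ∀ i j (h : i ≠ j), pr (x i j) = SpecialLinearGroup.transvection h 1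
  comm : ∀ i j k l, i ≠ j → k ≠ l → j ≠ k → i ≠ l → x i j * x k l = x k l * x i j
  stein : ∀ i j k, i ≠ j → j ≠ k → i ≠ k → x i j * x j k = x i k * x j k * x i j
  conj : ∀ w ∈ Om, ∀ i j, i ≠ j → ∃ i' j', ∃ ε : ℤ, i' ≠ j' ∧ (ε = 1 ∨ ε = -1) ∧
    w * x i j = x i' j' ^ ε * w
  norm : ∀ w ∈ Om, ∀ v : Fin n → ℤ, nrm (v ᵥ* (pr w : Matrix (Fin n) (Fin n) ℤ)) = nrm v
  inj : ∀ w ∈ Om, pr w = 1 → w = 1
  wmem : ∀ i j, i ≠ j → x i j * (x j i)⁻¹ * x i j ∈ Om

namespace Sys

variable {n : ℕ} {E : Type*} [Group E] (S : Sys n E)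

/-- The right action on row vectors. -/
def act (v : Fin n → ℤ) (g : E) : Fin n → ℤ := v ᵥ* (S.pr g : Matrix (Fin n) (Fin n) ℤ)

theorem act_mul (v : Fin n → ℤ) (g h : E) : S.act v (g * h) = S.act (S.act v g) h := by
  simp [act, Matrix.vecMul_vecMul]

theorem act_one (v : Fin n → ℤ) : S.act v 1 = v := by
  simp [act]

theorem pr_zpow {i j : Fin n} (h : i ≠ j) (a : ℤ) :
    S.pr (S.x i j ^ a) = SpecialLinearGroup.transvection h a := by
  rw [map_zpow, S.hx i j h, transvection_zpow]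

theorem act_x {i j : Fin n} (h : i ≠ j) (a : ℤ) (v : Fin n → ℤ) :
    S.act v (S.x i j ^ a) = mv i j a v := by
  rw [act, S.pr_zpow h, vecMul_transvection]

theorem act_w {w : E} (hw : w ∈ S.Om) (v : Fin n → ℤ) : nrm (S.act v w) = nrm v := S.norm w hw v

theorem commz {i j k l : Fin n} (hij : i ≠ j) (hkl : k ≠ l) (hjk : j ≠ k) (hil : i ≠ l) (a b : ℤ) :
    S.x i j ^ a * S.x k l ^ b = S.x k l ^ b * S.x i j ^ a := by
  have h : Commute (S.x i j) (S.x k l) := S.comm i j k l hij hkl hjk hil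
  exact (h.zpow_zpow a b)

theorem heis {i j k : Fin n} (hij : i ≠ j) (hjk : j ≠ k) (hik : i ≠ k) (a b : ℤ) :
    S.x i j ^ a * S.x j k ^ b = S.x i k ^ (a * b) * S.x j k ^ b * S.x i j ^ a := by
  have h00 := S.stein i j k hij hjk hik
  have hXZ : Commute (S.x i j) (S.x i k) := S.comm i j i k hij hik hij.symm hik
  have hYZ : Commute (S.x j k) (S.x i k) := S.comm j k i k hjk hik hik.symm hjk
  generalize S.x i j = X at *
  generalize S.x j k = Y at *
  generalize S.x i k = Z at *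
  have h0 : X * Y * X⁻¹ = Z * Y := by
    rw [h00]; group
  have h1 : ∀ b : ℤ, X * Y ^ b * X⁻¹ = Z ^ b * Y ^ b := by
    intro b
    rw [← conj_zpow, h0]
    exact (hYZ.symm).mul_zpow b
  have h2 : (Y ^ b)⁻¹ * X * Y ^ b = Z ^ b * X := by
    have h3 : X * Y ^ b = Z ^ b * Y ^ b * X := by
      rw [← h1 b]; group
    have h4 : Commute (Y ^ b) (Z ^ b) := hYZ.zpow_zpow b b
    calc (Y ^ b)⁻¹ * X * Y ^ b = (Y ^ b)⁻¹ * (X * Y ^ b) := by group
      _ = (Y ^ b)⁻¹ * (Z ^ b * Y ^ b * X) := by rw [h3]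
      _ = (Y ^ b)⁻¹ * (Y ^ b * Z ^ b * X) := by rw [h4.eq]
      _ = Z ^ b * X := by group
  have h5 : (Y ^ b)⁻¹ * X ^ a * Y ^ b = Z ^ (a * b) * X ^ a := by
    have h6 : (Y ^ b)⁻¹ * X ^ a * Y ^ b = ((Y ^ b)⁻¹ * X * Y ^ b) ^ a := by
      have := conj_zpow (a := (Y ^ b)⁻¹) (b := X) (i := a)
      rw [inv_inv] at this
      exact this.symm
    rw [h6, h2]
    have h7 : Commute (Z ^ b) X := (hXZ.symm).zpow_left b
    rw [h7.mul_zpow, ← zpow_mul, mul_comm a b]
  have h8 : Commute (Y ^ b) (Z ^ (a * b)) := hYZ.zpow_zpow b (a * b)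
  calc X ^ a * Y ^ b = Y ^ b * ((Y ^ b)⁻¹ * X ^ a * Y ^ b) := by group
    _ = Y ^ b * (Z ^ (a * b) * X ^ a) := by rw [h5]
    _ = (Y ^ b * Z ^ (a * b)) * X ^ a := by group
    _ = Z ^ (a * b) * Y ^ b * X ^ a := by rw [h8.eq]

/-- The elements of `Om` fixing the basis vectors `e_k`, `k ≥ m`. -/
def OM (m : ℕ) : Subgroup E where
  carrier := {w | w ∈ S.Om ∧ ∀ k : Fin n, m ≤ (k : ℕ) → S.act (Pi.single k 1) w = Pi.single k 1}
  mul_mem' := by
    rintro a b ⟨ha, ha'⟩ ⟨hb, hb'⟩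
    refine ⟨S.Om.mul_mem ha hb, fun k hk => ?_⟩
    rw [S.act_mul, ha' k hk, hb' k hk]
  one_mem' := ⟨S.Om.one_mem, fun k _ => S.act_one _⟩
  inv_mem' := by
    rintro a ⟨ha, ha'⟩
    refine ⟨S.Om.inv_mem ha, fun k hk => ?_⟩
    have h := ha' k hk
    have h2 : S.act (Pi.single k 1) (a * a⁻¹) = Pi.single k 1 := by
      rw [mul_inv_cancel]; exact S.act_one _
    rw [S.act_mul, h] at h2
    exact h2

/-- Paths all of whose later vertices have norm `< N`. -/
inductive P (m N : ℕ) : (Fin n → ℤ) → E → Prop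
  | nil (v) : P m N v 1
  | cx (v : Fin n → ℤ) (g : E) (i j : Fin n) (ε : ℤ) : i ≠ j → (i : ℕ) < m → (j : ℕ) < m →
      (ε = 1 ∨ ε = -1) → nrm (mv i j ε v) < N → P m N (mv i j ε v) g → P m N v (S.x i j ^ ε * g)
  | cw (v : Fin n → ℤ) (g w : E) : w ∈ S.OM m → nrm (S.act v w) < N → P m N (S.act v w) g →
      P m N v (w * g)

theorem P.append {m N : ℕ} {v : Fin n → ℤ} {g : E} (h : S.P m N v g) :
    ∀ {g' : E}, S.P m N (S.act v g) g' → S.P m N v (g * g') := by
  induction h with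
  | nil v => intro g' h'; rw [S.act_one] at h'; rwa [one_mul]
  | cx v g i j ε hij hi hj hε hn hp ih =>
    intro g' h'
    rw [mul_assoc]
    refine P.cx v (g * g') i j ε hij hi hj hε hn (ih ?_)
    rwa [S.act_mul, S.act_x hij] at h'
  | cw v g w hw hn hp ih =>
    intro g' h'
    rw [mul_assoc]
    refine P.cw v (g * g') w hw hn (ih ?_)
    rwa [S.act_mul] at h'

/-- one-letter path -/
theorem one_x' {m N : ℕ} {v : Fin n → ℤ} {i j : Fin n} {ε : ℤ} (hij : i ≠ j) (hi : (i : ℕ) < m)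
    (hj : (j : ℕ) < m) (hε : ε = 1 ∨ ε = -1) (hn : nrm (mv i j ε v) < N) :
    S.P m N v (S.x i j ^ ε) := by
  have := P.cx v 1 i j ε hij hi hj hε hn (P.nil (S := S) _)
  rwa [mul_one] at this

theorem P.nil' {m N : ℕ} {v : Fin n → ℤ} {g : E} (hg : g = 1) : S.P m N v g := by
  subst hg; exact P.nil v

theorem P.congr {m N : ℕ} {v : Fin n → ℤ} {g g' : E} (h : S.P m N v g) (hg : g' = g) :
    S.P m N v g' := by
  subst hg; exact h

section cases

variable {m : ℕ} {i j k l : Fin n} {ε δ : ℤ} (v : Fin n → ℤ)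

/-- Case 0: the same root subgroup. -/
theorem case0 (hε : ε = 1 ∨ ε = -1) (hδ : δ = 1 ∨ δ = -1)
    (h1 : nrm (mv i j ε v) ≤ nrm v) (h2 : nrm (mv i j δ v) < nrm v) :
    S.P m (nrm v) (mv i j ε v) (S.x i j ^ (-ε) * S.x i j ^ δ) := by
  have a1 := nrm_mv i j ε v
  have a2 := nrm_mv i j δ v
  have hed : ε = δ := by
    rcases hε with rfl | rfl <;> rcases hδ with rfl | rfl
    · rfl
    · omega
    · omega
    · rfl
  subst hed
  refine P.nil' (S := S) ?_
  rw [zpow_neg, inv_mul_cancel]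

/-- Case 1: commuting root subgroups with different targets. -/
theorem case1 (hij : i ≠ j) (hkl : k ≠ l) (hjk : j ≠ k) (hil : i ≠ l) (hjl : j ≠ l)
    (hi : (i : ℕ) < m) (hj : (j : ℕ) < m) (hk : (k : ℕ) < m) (hl : (l : ℕ) < m)
    (hε : ε = 1 ∨ ε = -1) (hδ : δ = 1 ∨ δ = -1)
    (h1 : nrm (mv i j ε v) ≤ nrm v) (h2 : nrm (mv k l δ v) < nrm v) :
    S.P m (nrm v) (mv i j ε v) (S.x i j ^ (-ε) * S.x k l ^ δ) := by
  have hε' : -ε = 1 ∨ -ε = -1 := by omega
  rw [S.commz hij hkl hjk hil]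
  have a1 := nrm_mv i j ε v
  have a2 := nrm_mv k l δ v
  have a3 := nrm_mv k l δ (mv i j ε v)
  have a4 := nrm_mv i j (-ε) (mv k l δ (mv i j ε v))
  rw [mv_ne hjl.symm, mv_ne hjk.symm] at a3
  rw [mv_ne hjl, mv_self, mv_ne hil, mv_ne hij] at a4
  refine P.cx _ _ k l δ hkl hk hl hδ ?_ (S.one_x' hij hi hj hε' ?_)
  · rcases hε with rfl | rfl <;> rcases hδ with rfl | rfl <;> omega
  · rcases hε with rfl | rfl <;> rcases hδ with rfl | rfl <;> omega

/-- Case 2: the same target. -/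
theorem case2 (hij : i ≠ j) (hkj : k ≠ j) (hik : i ≠ k)
    (hi : (i : ℕ) < m) (hj : (j : ℕ) < m) (hk : (k : ℕ) < m)
    (hε : ε = 1 ∨ ε = -1) (hδ : δ = 1 ∨ δ = -1)
    (h1 : nrm (mv i j ε v) ≤ nrm v) (h2 : nrm (mv k j δ v) < nrm v) :
    S.P m (nrm v) (mv i j ε v) (S.x i j ^ (-ε) * S.x k j ^ δ) := by
  have hε' : -ε = 1 ∨ -ε = -1 := by omega
  have a1 := nrm_mv i j ε v
  have a2 := nrm_mv k j δ v
  by_cases hv : v i = 0
  · rw [S.commz hij hkj hkj.symm hij]
    have a3 := nrm_mv k j δ (mv i j ε v)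
    have a4 := nrm_mv i j (-ε) (mv k j δ (mv i j ε v))
    rw [mv_self, mv_ne hkj] at a3
    rw [mv_self, mv_self, mv_ne hij, mv_ne hij, mv_ne hkj] at a4
    refine P.cx _ _ k j δ hkj hk hj hδ ?_ (S.one_x' hij hi hj hε' ?_)
    · rcases hε with rfl | rfl <;> rcases hδ with rfl | rfl <;> omega
    · rcases hε with rfl | rfl <;> rcases hδ with rfl | rfl <;> omega
  · have hτ : -(ε * δ) = 1 ∨ -(ε * δ) = -1 := by
      rcases hε with rfl | rfl <;> rcases hδ with rfl | rfl <;> simp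
    have hτ' : -(-(ε * δ)) = 1 ∨ -(-(ε * δ)) = -1 := by omega
    by_cases hc : (v k).natAbs ≤ (v i).natAbs
    · have hg : S.x i j ^ (-ε) * S.x k j ^ δ =
          S.x k i ^ (-(ε * δ)) * (S.x i j ^ (-ε) * S.x k i ^ (-(-(ε * δ)))) := by
        have h3 := S.heis (i := k) (j := i) (k := j) hik.symm hij hkj (-(ε * δ)) (-ε)
        have h4 : (-(ε * δ)) * (-ε) = δ := by
          rcases hε with rfl | rfl <;> rcases hδ with rfl | rfl <;> norm_num
        rw [h4] at h3
        rw [← mul_assoc, h3, S.commz hij hkj hkj.symm hij]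
        group
      rw [hg]
      have a3 := nrm_mv k i (-(ε * δ)) (mv i j ε v)
      have a4 := nrm_mv i j (-ε) (mv k i (-(ε * δ)) (mv i j ε v))
      have a5 := nrm_mv k i (-(-(ε * δ))) (mv i j (-ε) (mv k i (-(ε * δ)) (mv i j ε v)))
      simp only [mv_self, mv_ne hij, mv_ne hij.symm, mv_ne hik, mv_ne hik.symm, mv_ne hkj,
        mv_ne hkj.symm] at a3 a4 a5
      refine P.cx _ _ k i _ hik.symm hk hi hτ ?_ (P.cx _ _ i j (-ε) hij hi hj hε' ?_
        (S.one_x' hik.symm hk hi hτ' ?_))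
      · rcases hε with rfl | rfl <;> rcases hδ with rfl | rfl <;> omega
      · rcases hε with rfl | rfl <;> rcases hδ with rfl | rfl <;> omega
      · rcases hε with rfl | rfl <;> rcases hδ with rfl | rfl <;> omega
    · have hg : S.x i j ^ (-ε) * S.x k j ^ δ =
          S.x i k ^ (-(ε * δ)) * (S.x k j ^ δ * S.x i k ^ (-(-(ε * δ)))) := by
        have h3 := S.heis (i := i) (j := k) (k := j) hik hkj hij (-(ε * δ)) δ
        have h4 : (-(ε * δ)) * δ = -ε := by
          rcases hε with rfl | rfl <;> rcases hδ with rfl | rfl <;> norm_num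
        rw [h4] at h3
        rw [← mul_assoc, h3]
        group
      rw [hg]
      have a3 := nrm_mv i k (-(ε * δ)) (mv i j ε v)
      have a4 := nrm_mv k j δ (mv i k (-(ε * δ)) (mv i j ε v))
      have a5 := nrm_mv i k (-(-(ε * δ))) (mv k j δ (mv i k (-(ε * δ)) (mv i j ε v)))
      simp only [mv_self, mv_ne hij, mv_ne hij.symm, mv_ne hik, mv_ne hik.symm, mv_ne hkj,
        mv_ne hkj.symm] at a3 a4 a5
      refine P.cx _ _ i k _ hik hi hk hτ ?_ (P.cx _ _ k j δ hkj hk hj hδ ?_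
        (S.one_x' hik hi hk hτ' ?_))
      · rcases hε with rfl | rfl <;> rcases hδ with rfl | rfl <;> omega
      · rcases hε with rfl | rfl <;> rcases hδ with rfl | rfl <;> omega
      · rcases hε with rfl | rfl <;> rcases hδ with rfl | rfl <;> omega

theorem mv_mv_neg (i j : Fin n) (hij : i ≠ j) (ε : ℤ) (v : Fin n → ℤ) :
    mv i j (-ε) (mv i j ε v) = v := by
  ext k
  by_cases hk : k = j
  · subst hk
    rw [mv_self, mv_self, mv_ne hij]; ring
  · rw [mv_ne hk, mv_ne hk]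

theorem act_braid (hij : i ≠ j) (hε : ε = 1 ∨ ε = -1) (v : Fin n → ℤ) :
    mv i j (-ε) (mv j i ε (mv i j (-ε) v)) = mv j i ε (mv i j (-ε) (mv j i ε v)) := by
  ext k
  by_cases hk : k = j
  · subst hk
    simp only [mv_self, mv_ne hij, mv_ne hij.symm]
    rcases hε with rfl | rfl <;> ring
  · by_cases hk2 : k = i
    · subst hk2
      simp only [mv_self, mv_ne hij, mv_ne hij.symm]
      rcases hε with rfl | rfl <;> ring
    · simp only [mv_ne hk, mv_ne hk2]

theorem pr_eq_of_act {g h : E} (hgh : ∀ v, S.act v g = S.act v h) : S.pr g = S.pr h := by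
  ext a b
  have := congrFun (hgh (Pi.single a 1)) b
  simpa [act, Matrix.single_one_vecMul] using this

theorem wmem' (hij : i ≠ j) (hε : ε = 1 ∨ ε = -1) :
    S.x i j ^ (-ε) * S.x j i ^ ε * S.x i j ^ (-ε) ∈ S.Om := by
  have h := S.wmem i j hij
  rcases hε with rfl | rfl
  · have h2 := S.Om.inv_mem h
    convert h2 using 1
    group
  · convert h using 1
    group

theorem braid (hij : i ≠ j) (hε : ε = 1 ∨ ε = -1) :
    S.x i j ^ (-ε) * S.x j i ^ ε * S.x i j ^ (-ε) = S.x j i ^ ε * S.x i j ^ (-ε) * S.x j i ^ ε := by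
  have h1 := S.wmem' hij hε
  have hε' : -ε = 1 ∨ -ε = -1 := by omega
  have h2 := S.wmem' hij.symm hε'
  rw [neg_neg] at h2
  rw [← mul_inv_eq_one]
  refine S.inj _ (S.Om.mul_mem h1 (S.Om.inv_mem h2)) ?_
  rw [map_mul, map_inv, mul_inv_eq_one]
  refine S.pr_eq_of_act (fun v => ?_)
  simp only [S.act_mul, S.act_x hij, S.act_x hij.symm]
  exact act_braid hij hε v

theorem wmemOM (hij : i ≠ j) (hi : (i : ℕ) < m) (hj : (j : ℕ) < m) (hε : ε = 1 ∨ ε = -1) :
    S.x i j ^ (-ε) * S.x j i ^ ε * S.x i j ^ (-ε) ∈ S.OM m := by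
  refine ⟨S.wmem' hij hε, fun k hk => ?_⟩
  simp only [S.act_mul, S.act_x hij, S.act_x hij.symm]
  have hki : i ≠ k := by rintro rfl; omega
  have hkj : j ≠ k := by rintro rfl; omega
  have h1 : ∀ a, mv i j a (Pi.single k 1) = Pi.single k 1 := by
    intro a
    ext l
    by_cases hl : l = j
    · subst hl; rw [mv_self]; simp [hki]
    · rw [mv_ne hl]
  have h2 : ∀ a, mv j i a (Pi.single k 1) = Pi.single k 1 := by
    intro a
    ext l
    by_cases hl : l = i
    · subst hl; rw [mv_self]; simp [hkj]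
    · rw [mv_ne hl]
  rw [h1, h2, h1]

/-- Case 5: opposite root subgroups. -/
theorem case5 (hij : i ≠ j) (hi : (i : ℕ) < m) (hj : (j : ℕ) < m)
    (hε : ε = 1 ∨ ε = -1) (hδ : δ = 1 ∨ δ = -1)
    (h1 : nrm (mv i j ε v) ≤ nrm v) (h2 : nrm (mv j i δ v) < nrm v) :
    S.P m (nrm v) (mv i j ε v) (S.x i j ^ (-ε) * S.x j i ^ δ) := by
  have hε' : -ε = 1 ∨ -ε = -1 := by omega
  have a1 := nrm_mv i j ε v
  have a2 := nrm_mv j i δ v
  have hed : ε = δ := by
    rcases hε with rfl | rfl <;> rcases hδ with rfl | rfl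
    · rfl
    · omega
    · omega
    · rfl
  subst hed
  have hg : S.x i j ^ (-ε) * S.x j i ^ ε = S.x j i ^ (-ε) *
      ((S.x i j ^ (-ε) * S.x j i ^ ε * S.x i j ^ (-ε)) * 1) := by
    rw [S.braid hij hε]
    group
  rw [hg]
  have a3 := nrm_mv j i (-ε) (mv i j ε v)
  simp only [mv_self, mv_ne hij] at a3
  have key : nrm (mv j i (-ε) (mv i j ε v)) < nrm v := by
    rcases hε with rfl | rfl <;> omega
  have hw := S.wmemOM hij hi hj hε
  refine P.cx _ _ j i (-ε) hij.symm hj hi hε' key (P.cw _ _ _ hw ?_ (P.nil _))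
  rw [S.act_w hw.1]
  exact key

/-- Case 4: `(i,j)` and `(j,l)`. -/
theorem case4 (hij : i ≠ j) (hjl : j ≠ l) (hil : i ≠ l)
    (hi : (i : ℕ) < m) (hj : (j : ℕ) < m) (hl : (l : ℕ) < m)
    (hε : ε = 1 ∨ ε = -1) (hδ : δ = 1 ∨ δ = -1)
    (h1 : nrm (mv i j ε v) ≤ nrm v) (h2 : nrm (mv j l δ v) < nrm v) :
    S.P m (nrm v) (mv i j ε v) (S.x i j ^ (-ε) * S.x j l ^ δ) := by
  have hε' : -ε = 1 ∨ -ε = -1 := by omega
  have hτ : (-ε) * δ = 1 ∨ (-ε) * δ = -1 := by
    rcases hε with rfl | rfl <;> rcases hδ with rfl | rfl <;> simp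
  have a1 := nrm_mv i j ε v
  have a2 := nrm_mv j l δ v
  have b1 := nrm_mv i l ((-ε) * δ) (mv i j ε v)
  have c1 := nrm_mv j l δ (mv i j ε v)
  simp only [mv_self, mv_ne hij, mv_ne hij.symm, mv_ne hjl, mv_ne hjl.symm, mv_ne hil,
    mv_ne hil.symm] at b1 c1
  have hg := S.heis hij hjl hil (-ε) δ
  by_cases hp1 : nrm (mv i l ((-ε) * δ) (mv i j ε v)) < nrm v
  · rw [hg, mul_assoc]
    have b2 := nrm_mv j l δ (mv i l ((-ε) * δ) (mv i j ε v))
    have b3 := nrm_mv i j (-ε) (mv j l δ (mv i l ((-ε) * δ) (mv i j ε v)))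
    simp only [mv_self, mv_ne hij, mv_ne hij.symm, mv_ne hjl, mv_ne hjl.symm, mv_ne hil,
      mv_ne hil.symm] at b2 b3
    refine P.cx _ _ i l _ hil hi hl hτ hp1 (P.cx _ _ j l δ hjl hj hl hδ ?_
      (S.one_x' hij hi hj hε' ?_))
    · rcases hε with rfl | rfl <;> rcases hδ with rfl | rfl <;> omega
    · rcases hε with rfl | rfl <;> rcases hδ with rfl | rfl <;> omega
  · by_cases hp2 : nrm (mv j l δ (mv i j ε v)) < nrm v
    · have hg2 : S.x i j ^ (-ε) * S.x j l ^ δ =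
          S.x j l ^ δ * (S.x i l ^ ((-ε) * δ) * S.x i j ^ (-ε)) := by
        rw [hg, S.commz hil hjl hjl.symm hil, mul_assoc]
      rw [hg2]
      have b2 := nrm_mv i l ((-ε) * δ) (mv j l δ (mv i j ε v))
      have b3 := nrm_mv i j (-ε) (mv i l ((-ε) * δ) (mv j l δ (mv i j ε v)))
      simp only [mv_self, mv_ne hij, mv_ne hij.symm, mv_ne hjl, mv_ne hjl.symm, mv_ne hil,
        mv_ne hil.symm] at b2 b3
      refine P.cx _ _ j l δ hjl hj hl hδ hp2 (P.cx _ _ i l _ hil hi hl hτ ?_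
        (S.one_x' hij hi hj hε' ?_))
      · rcases hε with rfl | rfl <;> rcases hδ with rfl | rfl <;> omega
      · rcases hε with rfl | rfl <;> rcases hδ with rfl | rfl <;> omega
    · -- use the third move
      have a3 := nrm_mv j i ε v
      have h3 : nrm (mv j i ε v) < nrm v := by
        rcases hε with rfl | rfl <;> rcases hδ with rfl | rfl <;> omega
      have p1 := S.case5 v hij hi hj hε hε h1 h3
      have p2 := S.case1 v hij.symm hjl hij hjl hil hj hi hj hl hε hδ h3.le h2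
      have hact : S.act (mv i j ε v) (S.x i j ^ (-ε) * S.x j i ^ ε) = mv j i ε v := by
        rw [S.act_mul, S.act_x hij, mv_mv_neg i j hij, S.act_x hij.symm]
      rw [← hact] at p2
      refine P.congr S (P.append S p1 p2) ?_
      group

/-- Case 4': `(i,j)` and `(k,i)`. -/
theorem case4' (hij : i ≠ j) (hki : k ≠ i) (hjk : j ≠ k)
    (hi : (i : ℕ) < m) (hj : (j : ℕ) < m) (hk : (k : ℕ) < m)
    (hε : ε = 1 ∨ ε = -1) (hδ : δ = 1 ∨ δ = -1)
    (h1 : nrm (mv i j ε v) ≤ nrm v) (h2 : nrm (mv k i δ v) < nrm v) :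
    S.P m (nrm v) (mv i j ε v) (S.x i j ^ (-ε) * S.x k i ^ δ) := by
  have hε' : -ε = 1 ∨ -ε = -1 := by omega
  have hτ : -(δ * (-ε)) = 1 ∨ -(δ * (-ε)) = -1 := by
    rcases hε with rfl | rfl <;> rcases hδ with rfl | rfl <;> simp
  have a1 := nrm_mv i j ε v
  have a2 := nrm_mv k i δ v
  have b1 := nrm_mv k i δ (mv i j ε v)
  have b2 := nrm_mv i j (-ε) (mv k i δ (mv i j ε v))
  simp only [mv_self, mv_ne hij, mv_ne hij.symm, mv_ne hjk, mv_ne hjk.symm, mv_ne hki,
    mv_ne hki.symm] at b1 b2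
  by_cases hp1 : nrm (mv i j (-ε) (mv k i δ (mv i j ε v))) < nrm v
  · have hg : S.x i j ^ (-ε) * S.x k i ^ δ =
        S.x k i ^ δ * (S.x i j ^ (-ε) * S.x k j ^ (-(δ * (-ε)))) := by
      have h3 := S.heis hki hij hjk.symm δ (-ε)
      have c1 := S.commz hki hjk.symm hki.symm hjk.symm δ (-(δ * (-ε)))
      have c2 := S.commz hij hjk.symm hjk hij (-ε) (-(δ * (-ε)))
      rw [← mul_assoc, h3, mul_assoc, c1, ← mul_assoc, mul_assoc (S.x k j ^ (δ * (-ε))), c2]
      group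
    rw [hg]
    have b3 := nrm_mv k j (-(δ * (-ε))) (mv i j (-ε) (mv k i δ (mv i j ε v)))
    simp only [mv_self, mv_ne hij, mv_ne hij.symm, mv_ne hjk, mv_ne hjk.symm, mv_ne hki,
      mv_ne hki.symm] at b3
    refine P.cx _ _ k i δ hki hk hi hδ ?_ (P.cx _ _ i j (-ε) hij hi hj hε' hp1
      (S.one_x' hjk.symm hk hj hτ ?_))
    · rcases hε with rfl | rfl <;> rcases hδ with rfl | rfl <;> omega
    · rcases hε with rfl | rfl <;> rcases hδ with rfl | rfl <;> omega
  · have a3 := nrm_mv i k δ v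
    have h3 : nrm (mv i k δ v) < nrm v := by
      rcases hε with rfl | rfl <;> rcases hδ with rfl | rfl <;> omega
    have p1 := S.case1 v hij hki.symm hij.symm hki.symm hjk hi hj hi hk hε hδ h1 h3
    have p2 := S.case5 v hki.symm hi hk hδ hδ h3.le h2
    have hact : S.act (mv i j ε v) (S.x i j ^ (-ε) * S.x i k ^ δ) = mv i k δ v := by
      rw [S.act_mul, S.act_x hij, mv_mv_neg i j hij, S.act_x hki.symm]
    rw [← hact] at p2
    refine P.congr S (P.append S p1 p2) ?_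
    group

end cases

theorem nrm_single (k : Fin n) (c : ℤ) : nrm (Pi.single k c) = c.natAbs := by
  unfold nrm
  rw [Finset.sum_eq_single k]
  · simp
  · intro b _ hb; simp [Pi.single_eq_of_ne hb]
  · intro h; exact absurd (Finset.mem_univ _) h

theorem mv_single_ne {i j k : Fin n} (h : i ≠ k) (a c : ℤ) :
    mv i j a (Pi.single k c) = Pi.single k c := by
  ext l
  by_cases hl : l = j
  · subst hl; rw [mv_self]; simp [h]
  · rw [mv_ne hl]

theorem nrm_mv_single {i j : Fin n} (h : i ≠ j) {ε : ℤ} (hε : ε = 1 ∨ ε = -1) :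
    nrm (mv i j ε (Pi.single i 1)) = 2 := by
  have h1 := nrm_mv i j ε (Pi.single i 1)
  rw [nrm_single] at h1
  simp only [Pi.single_eq_same, Pi.single_eq_of_ne h.symm] at h1
  rcases hε with rfl | rfl <;> simp at h1 <;> omega

theorem act_add (u v : Fin n → ℤ) (g : E) : S.act (u + v) g = S.act u g + S.act v g := by
  simp [act, Matrix.add_vecMul]

theorem act_smul (c : ℤ) (v : Fin n → ℤ) (g : E) : S.act (c • v) g = c • S.act v g := by
  rw [act, act, Matrix.smul_vecMul]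

/-- For an element of `OM p` the coordinates `≥ p` of vectors are preserved. -/
theorem OM_coord {m : ℕ} {w : E} (hw : w ∈ S.OM m) {p : Fin n} (hp : m ≤ (p : ℕ))
    {u : Fin n → ℤ} (hu : u p = 0) : S.act u w p = 0 := by
  set y := S.act u w with hy
  have h1 : S.act (u + (-(y p)) • (Pi.single p 1 : Fin n → ℤ)) w
      = y + (-(y p)) • (Pi.single p 1 : Fin n → ℤ) := by
    rw [S.act_add, S.act_smul, hw.2 p hp]
  have h2 := S.act_w hw.1 (u + (-(y p)) • (Pi.single p 1 : Fin n → ℤ))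
  rw [h1] at h2
  have h3 := S.act_w hw.1 u
  rw [← hy] at h3
  have e1 : y + (-(y p)) • (Pi.single p 1 : Fin n → ℤ) = Function.update y p 0 := by
    ext l
    by_cases hl : l = p
    · subst hl; simp
    · simp [hl]
  have e2 : u + (-(y p)) • (Pi.single p 1 : Fin n → ℤ) = Function.update u p (-(y p)) := by
    ext l
    by_cases hl : l = p
    · subst hl; simp [hu]
    · simp [hl]
  rw [e1, e2] at h2
  have a1 := nrm_update y p 0
  have a2 := nrm_update u p (-(y p))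
  rw [hu] at a2
  simp only [Int.natAbs_zero, Int.natAbs_neg] at a1 a2
  omega

theorem conjOM {m : ℕ} {w : E} (hw : w ∈ S.OM m) {i j : Fin n} (hij : i ≠ j) (hi : (i : ℕ) < m)
    (hj : (j : ℕ) < m) {δ : ℤ} (hδ : δ = 1 ∨ δ = -1) :
    ∃ i' j' : Fin n, ∃ ε : ℤ, i' ≠ j' ∧ (i' : ℕ) < m ∧ (j' : ℕ) < m ∧ (ε = 1 ∨ ε = -1) ∧
      w * S.x i j ^ δ = S.x i' j' ^ ε * w := by
  obtain ⟨i', j', ε, hij', hε, h⟩ := S.conj w hw.1 i j hij
  have hi' : (i' : ℕ) < m := by
    by_contra hc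
    push Not at hc
    have h1 : S.act (Pi.single i' 1) (w * S.x i j) = Pi.single i' 1 := by
      rw [S.act_mul, hw.2 i' hc, ← zpow_one (S.x i j), S.act_x hij, mv_single_ne]
      rintro rfl; omega
    rw [h, S.act_mul, S.act_x hij'] at h1
    have h2 := congrArg nrm h1
    rw [S.act_w hw.1, nrm_single, nrm_mv_single hij' hε] at h2
    simp at h2
  have hj' : (j' : ℕ) < m := by
    by_contra hc
    push Not at hc
    have e1 : mv i' j' ε (Pi.single i' 1)
        = Pi.single i' 1 + ε • (Pi.single j' 1 : Fin n → ℤ) := by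
      ext l
      by_cases hl : l = j'
      · subst hl; rw [mv_self]; simp
      · rw [mv_ne hl]; simp [hl]
    have h1 : S.act (Pi.single i' 1) (w * S.x i j) =
        mv i j 1 (S.act (Pi.single i' 1) w) := by
      rw [S.act_mul, ← zpow_one (S.x i j), S.act_x hij]
    rw [h, S.act_mul, S.act_x hij', e1, S.act_add, S.act_smul, hw.2 j' hc] at h1
    have h2 := congrFun h1 j'
    have hjj : j' ≠ j := by rintro rfl; omega
    rw [mv_ne hjj] at h2
    simp at h2
    omega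
  rcases hδ with rfl | rfl
  · exact ⟨i', j', ε, hij', hi', hj', hε, by rw [zpow_one, h]⟩
  · refine ⟨i', j', -ε, hij', hi', hj', by omega, ?_⟩
    have h2 : w * S.x i j * w⁻¹ = S.x i' j' ^ ε := by rw [h]; group
    have h3 : w * (S.x i j) ^ (-1 : ℤ) * w⁻¹ = S.x i' j' ^ (-ε) := by
      rw [zpow_neg (S.x i' j'), ← h2]; group
    rw [← h3]; group

theorem local_x {m : ℕ} {i j k l : Fin n} {ε δ : ℤ} (v : Fin n → ℤ) (hij : i ≠ j) (hkl : k ≠ l)
    (hi : (i : ℕ) < m) (hj : (j : ℕ) < m) (hk : (k : ℕ) < m) (hl : (l : ℕ) < m)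
    (hε : ε = 1 ∨ ε = -1) (hδ : δ = 1 ∨ δ = -1)
    (h1 : nrm (mv i j ε v) ≤ nrm v) (h2 : nrm (mv k l δ v) < nrm v) :
    S.P m (nrm v) (mv i j ε v) (S.x i j ^ (-ε) * S.x k l ^ δ) := by
  by_cases hjl : j = l
  · subst hjl
    by_cases hik : i = k
    · subst hik
      exact S.case0 v hε hδ h1 h2
    · exact S.case2 v hij hkl hik hi hj hk hε hδ h1 h2
  · by_cases hjk : j = k
    · subst hjk
      by_cases hil : i = l
      · subst hil
        exact S.case5 v hij hi hj hε hδ h1 h2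
      · exact S.case4 v hij hkl hil hi hj hl hε hδ h1 h2
    · by_cases hil : i = l
      · subst hil
        exact S.case4' v hij hkl hjk hi hj hk hε hδ h1 h2
      · exact S.case1 v hij hkl hjk hil hjl hi hj hk hl hε hδ h1 h2

theorem lower {m N : ℕ} {v : Fin n → ℤ} {g : E} (h : S.P m (N + 1) v g) :
    nrm v ≤ N → nrm (S.act v g) < N → S.P m N v g := by
  induction h with
  | nil v => intro _ _; exact P.nil v
  | cx v g i j ε hij hi hj hε hn hp ih =>
    intro hv he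
    rw [S.act_mul, S.act_x hij] at he
    have hn' : nrm (mv i j ε v) ≤ N := by omega
    have ih' := ih hn' he
    by_cases hlt : nrm (mv i j ε v) < N
    · exact P.cx v g i j ε hij hi hj hε hlt ih'
    · have heq : nrm (mv i j ε v) = N := by omega
      cases ih' with
      | nil => rw [S.act_one] at he; omega
      | cx _ g2 k l δ hkl hk hl hδ hn2 hp2 =>
        have hε' : -ε = 1 ∨ -ε = -1 := by omega
        have hback := mv_mv_neg i j hij ε v
        have hloc := S.local_x (m := m) (ε := -ε) (δ := δ) (mv i j ε v) hij hkl hi hj hk hl hε' hδ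
          (by rw [hback, heq]; exact hv) (by rw [heq]; exact hn2)
        rw [hback, heq, neg_neg] at hloc
        have hact : S.act v (S.x i j ^ ε * S.x k l ^ δ) = mv k l δ (mv i j ε v) := by
          rw [S.act_mul, S.act_x hij, S.act_x hkl]
        rw [← hact] at hp2
        have := P.append S hloc hp2
        rwa [mul_assoc] at this
      | cw _ g2 w hw hn2 hp2 =>
        rw [S.act_w hw.1] at hn2
        omega
  | cw v g w hw hn hp ih =>
    intro hv he
    rw [S.act_mul] at he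
    have hn' : nrm (S.act v w) ≤ N := by omega
    have ih' := ih hn' he
    by_cases hlt : nrm (S.act v w) < N
    · exact P.cw v g w hw hlt ih'
    · have heq : nrm (S.act v w) = N := by omega
      cases ih' with
      | nil => rw [S.act_one] at he; omega
      | cx _ g2 k l δ hkl hk hl hδ hn2 hp2 =>
        obtain ⟨k', l', δ', hkl', hk', hl', hδ', hconj⟩ := S.conjOM hw hkl hk hl hδ
        have hact : S.act (mv k' l' δ' v) w = mv k l δ (S.act v w) := by
          rw [← S.act_x hkl', ← S.act_mul, ← hconj, S.act_mul, S.act_x hkl]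
        have hn3 : nrm (mv k' l' δ' v) < N := by
          rw [← S.act_w hw.1, hact]; exact hn2
        have h4 : S.P m N v (S.x k' l' ^ δ' * (w * g2)) := by
          refine P.cx v _ k' l' δ' hkl' hk' hl' hδ' hn3 (P.cw _ g2 w hw ?_ ?_)
          · rw [hact]; exact hn2
          · rw [hact]; exact hp2
        refine P.congr S h4 ?_
        rw [← mul_assoc, hconj, mul_assoc]
      | cw _ g2 w' hw' hn2 hp2 =>
        rw [S.act_w hw'.1] at hn2
        omega

theorem desc {m M : ℕ} {v : Fin n → ℤ} {g : E} (h : S.P m (M + 2) v g) (hv : nrm v ≤ 1)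
    (he : nrm (S.act v g) ≤ 1) : S.P m 2 v g := by
  induction M with
  | zero => exact h
  | succ M ih =>
    exact ih (S.lower h (by omega) (by omega))

theorem P.mono {m N N' : ℕ} (hN : N ≤ N') {v : Fin n → ℤ} {g : E} (h : S.P m N v g) :
    S.P m N' v g := by
  induction h with
  | nil v => exact P.nil v
  | cx v g i j ε hij hi hj hε hn hp ih => exact P.cx v g i j ε hij hi hj hε (by omega) ih
  | cw v g w hw hn hp ih => exact P.cw v g w hw (by omega) ih

/-- The subgroup generated at level `m`. -/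
def Sg (m : ℕ) : Subgroup E :=
  Subgroup.closure ({g | ∃ i j : Fin n, i ≠ j ∧ (i : ℕ) < m ∧ (j : ℕ) < m ∧ g = S.x i j} ∪
    (S.OM m : Set E))

theorem exists_P {m : ℕ} {g : E} (hg : g ∈ S.Sg m) : ∀ v : Fin n → ℤ, ∃ M, S.P m M v g := by
  have hg' := hg
  rw [Sg, ← Subgroup.mem_toSubmonoid, Subgroup.closure_toSubmonoid] at hg'
  obtain ⟨L, hL0, rfl⟩ := Submonoid.exists_list_of_mem_closure hg'
  clear hg hg'
  have hL : ∀ y ∈ L, y ∈ ({g | ∃ i j : Fin n, i ≠ j ∧ (i : ℕ) < m ∧ (j : ℕ) < m ∧ g = S.x i j} ∪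
    (S.OM m : Set E)) ∨ y⁻¹ ∈ ({g | ∃ i j : Fin n, i ≠ j ∧ (i : ℕ) < m ∧ (j : ℕ) < m ∧
      g = S.x i j} ∪ (S.OM m : Set E)) := fun y hy => hL0 y hy
  clear hL0
  induction L with
  | nil => intro v; exact ⟨0, P.nil v⟩
  | cons y L ih =>
    intro v
    have ih' := ih (fun z hz => hL z (List.mem_cons_of_mem _ hz))
    rw [List.prod_cons]
    have hy := hL y List.mem_cons_self
    have key : (∃ i j : Fin n, ∃ ε : ℤ, i ≠ j ∧ (i : ℕ) < m ∧ (j : ℕ) < m ∧ (ε = 1 ∨ ε = -1) ∧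
        y = S.x i j ^ ε) ∨ y ∈ S.OM m := by
      rcases hy with (⟨i, j, hij, hi, hj, rfl⟩ | hw) | (⟨i, j, hij, hi, hj, h⟩ | hw)
      · exact Or.inl ⟨i, j, 1, hij, hi, hj, Or.inl rfl, by simp⟩
      · exact Or.inr hw
      · exact Or.inl ⟨i, j, -1, hij, hi, hj, Or.inr rfl, by rw [← h]; simp⟩
      · exact Or.inr (by simpa using (S.OM m).inv_mem hw)
    rcases key with ⟨i, j, ε, hij, hi, hj, hε, rfl⟩ | hw
    · obtain ⟨M, hM⟩ := ih' (mv i j ε v)
      exact ⟨max M (nrm (mv i j ε v) + 1), P.cx v _ i j ε hij hi hj hε (by omega)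
        (P.mono S (by omega) hM)⟩
    · obtain ⟨M, hM⟩ := ih' (S.act v y)
      exact ⟨max M (nrm (S.act v y) + 1), P.cw v _ y hw (by omega)
        (P.mono S (by omega) hM)⟩

/-- Generated by the `x i j` with `i, j < m`. -/
def X (m : ℕ) : Subgroup E :=
  Subgroup.closure {g | ∃ i j : Fin n, i ≠ j ∧ (i : ℕ) < m ∧ (j : ℕ) < m ∧ g = S.x i j}

theorem x_mem_X {m : ℕ} {i j : Fin n} (hij : i ≠ j) (hi : (i : ℕ) < m) (hj : (j : ℕ) < m) :
    S.x i j ∈ S.X m := Subgroup.subset_closure ⟨i, j, hij, hi, hj, rfl⟩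

/-- Generated by the `x i p` with `i < k`. -/
def T (p : Fin n) (k : ℕ) : Subgroup E :=
  Subgroup.closure {g | ∃ i : Fin n, i ≠ p ∧ (i : ℕ) < k ∧ g = S.x i p}

theorem x_mem_T {p i : Fin n} {k : ℕ} (hi : i ≠ p) (hk : (i : ℕ) < k) : S.x i p ∈ S.T p k :=
  Subgroup.subset_closure ⟨i, hi, hk, rfl⟩

/-- Generated by the `x i j`, `i, j ≤ p`, `i ≠ p`. -/
def H (p : Fin n) : Subgroup E :=
  Subgroup.closure {g | ∃ i j : Fin n, i ≠ j ∧ (i : ℕ) < p ∧ (j : ℕ) ≤ p ∧ g = S.x i j}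

theorem extract (p : Fin n) {v : Fin n → ℤ} {g : E} (h : S.P ((p : ℕ) + 1) 2 v g) :
    ∀ w0 ∈ S.OM ((p : ℕ) + 1), v = S.act (Pi.single p 1) w0 →
      ∃ h ∈ S.H p, ∃ w ∈ S.OM ((p : ℕ) + 1), w0 * g = h * w := by
  induction h with
  | nil v => intro w0 hw0 _; exact ⟨1, Subgroup.one_mem _, w0, hw0, by group⟩
  | cx v g i j ε hij hi hj hε hn hp ih =>
    intro w0 hw0 hv
    obtain ⟨i', j', ε', hij', hi', hj', hε', hc⟩ := S.conjOM hw0 hij hi hj hε
    have hact : S.act (mv i' j' ε' (Pi.single p 1)) w0 = mv i j ε v := by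
      rw [← S.act_x hij', ← S.act_mul, ← hc, S.act_mul, S.act_x hij, hv]
    have hi'p : i' ≠ p := by
      rintro rfl
      have h1 := congrArg nrm hact
      rw [S.act_w hw0.1, nrm_mv_single hij' hε'] at h1
      omega
    rw [mv_single_ne hi'p] at hact
    obtain ⟨h, hh, w, hw, he⟩ := ih w0 hw0 hact.symm
    refine ⟨S.x i' j' ^ ε' * h, Subgroup.mul_mem _ (Subgroup.zpow_mem _ ?_ _) hh, w, hw, ?_⟩
    · refine Subgroup.subset_closure ⟨i', j', hij', ?_, by omega, rfl⟩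
      have : (i' : ℕ) ≠ (p : ℕ) := fun h => hi'p (Fin.ext h)
      omega
    · rw [← mul_assoc, hc, mul_assoc, he, mul_assoc]
  | cw v g w hw hn hp ih =>
    intro w0 hw0 hv
    obtain ⟨h, hh, w', hw', he⟩ := ih (w0 * w) (Subgroup.mul_mem _ hw0 hw)
      (by rw [S.act_mul, hv])
    exact ⟨h, hh, w', hw', by rw [← mul_assoc, he]⟩

theorem T_conj (p : Fin n) {i j : Fin n} (hij : i ≠ j) (hi : (i : ℕ) < p) (hj : (j : ℕ) < p)
    (ε : ℤ) {t : E} (ht : t ∈ S.T p p) : S.x i j ^ (-ε) * t * S.x i j ^ ε ∈ S.T p p := by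
  have hip : i ≠ p := by rintro rfl; omega
  have hjp : j ≠ p := by rintro rfl; omega
  have key : S.T p p ≤ (S.T p p).comap (MulAut.conj (S.x i j ^ (-ε))).toMonoidHom := by
    rw [T, Subgroup.closure_le]
    rintro _ ⟨k, hkp, hk, rfl⟩
    show MulAut.conj (S.x i j ^ (-ε)) (S.x k p) ∈ S.T p p
    rw [MulAut.conj_apply]
    by_cases hkj : j = k
    · subst hkj
      have h1 := S.heis hij hjp hip (-ε) 1
      rw [zpow_one] at h1
      rw [h1]
      have h2 : S.x i p ^ (-ε * 1) * S.x j p * S.x i j ^ (-ε) * (S.x i j ^ (-ε))⁻¹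
          = S.x i p ^ (-ε * 1) * S.x j p := by group
      rw [h2]
      exact Subgroup.mul_mem _ (Subgroup.zpow_mem _ (S.x_mem_T hip hi) _) (S.x_mem_T hjp hj)
    · have h1 := S.commz hij hkp hkj hip (-ε) 1
      rw [zpow_one] at h1
      rw [h1]
      have h2 : S.x k p * S.x i j ^ (-ε) * (S.x i j ^ (-ε))⁻¹ = S.x k p := by group
      rw [h2]
      exact S.x_mem_T hkp hk
  have h3 : MulAut.conj (S.x i j ^ (-ε)) t ∈ S.T p p := key ht
  rw [MulAut.conj_apply] at h3
  convert h3 using 1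
  group

theorem H_decomp (p : Fin n) {h : E} (hh : h ∈ S.H p) :
    ∃ a ∈ S.X p, ∃ t ∈ S.T p p, h = a * t := by
  have hstep : ∀ (z : E), (∃ a ∈ S.X p, ∃ t ∈ S.T p p, z = a * t) → ∀ (i j : Fin n), i ≠ j →
      (i : ℕ) < p → (j : ℕ) ≤ p → ∀ ε : ℤ, ∃ a ∈ S.X p, ∃ t ∈ S.T p p,
      z * S.x i j ^ ε = a * t := by
    rintro _ ⟨a, ha, t, ht, rfl⟩ i j hij hi hj ε
    by_cases hjp : j = p
    · subst hjp
      exact ⟨a, ha, t * S.x i j ^ ε, Subgroup.mul_mem _ ht
        (Subgroup.zpow_mem _ (S.x_mem_T hij hi) _), by group⟩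
    · have hj' : (j : ℕ) < p := by
        have : (j : ℕ) ≠ (p : ℕ) := fun h => hjp (Fin.ext h)
        omega
      exact ⟨a * S.x i j ^ ε, Subgroup.mul_mem _ ha (Subgroup.zpow_mem _ (S.x_mem_X hij hi hj') _),
        S.x i j ^ (-ε) * t * S.x i j ^ ε, S.T_conj p hij hi hj' ε ht, by group⟩
  refine Subgroup.closure_induction_right (p := fun h _ => ∃ a ∈ S.X p, ∃ t ∈ S.T p p, h = a * t)
    ?_ ?_ ?_ hh
  · exact ⟨1, Subgroup.one_mem _, 1, Subgroup.one_mem _, by group⟩
  · rintro z hz _ ⟨i, j, hij, hi, hj, rfl⟩ ih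
    have := hstep z ih i j hij hi hj 1
    rwa [zpow_one] at this
  · rintro z hz _ ⟨i, j, hij, hi, hj, rfl⟩ ih
    have := hstep z ih i j hij hi hj (-1)
    rwa [zpow_neg_one] at this

theorem X_coord {m : ℕ} {p : Fin n} (hp : m ≤ (p : ℕ)) {a : E} (ha : a ∈ S.X m) :
    ∀ u : Fin n → ℤ, S.act u a p = u p := by
  rw [X] at ha
  induction ha using Subgroup.closure_induction with
  | mem y hy =>
    obtain ⟨i, j, hij, hi, hj, rfl⟩ := hy
    intro u
    rw [← zpow_one (S.x i j), S.act_x hij, mv_ne]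
    rintro rfl; omega
  | one => intro u; rw [S.act_one]
  | mul y z _ _ hy hz => intro u; rw [S.act_mul, hz, hy]
  | inv y _ hy =>
    intro u
    have := hy (S.act u y⁻¹)
    rw [← S.act_mul, inv_mul_cancel, S.act_one] at this
    exact this.symm

theorem X_fix {m : ℕ} {p : Fin n} (hp : m ≤ (p : ℕ)) {a : E} (ha : a ∈ S.X m) :
    S.act (Pi.single p 1) a = Pi.single p 1 := by
  rw [X] at ha
  induction ha using Subgroup.closure_induction with
  | mem y hy =>
    obtain ⟨i, j, hij, hi, hj, rfl⟩ := hy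
    rw [← zpow_one (S.x i j), S.act_x hij, mv_single_ne]
    rintro rfl; omega
  | one => rw [S.act_one]
  | mul y z _ _ hy hz => rw [S.act_mul, hy, hz]
  | inv y _ hy =>
    have : S.act (S.act (Pi.single p 1) y) y⁻¹ = Pi.single p 1 := by
      rw [← S.act_mul, mul_inv_cancel, S.act_one]
    rwa [hy] at this

/-- `T p k` fixes the basis vectors `e_i` with `i ≥ k` or `i = p`. -/
theorem T_fix {p : Fin n} {k : ℕ} {q : Fin n} (hq : k ≤ (q : ℕ) ∨ q = p) {t : E}
    (ht : t ∈ S.T p k) : S.act (Pi.single q 1) t = Pi.single q 1 := by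
  rw [T] at ht
  induction ht using Subgroup.closure_induction with
  | mem y hy =>
    obtain ⟨i, hip, hi, rfl⟩ := hy
    rw [← zpow_one (S.x i p), S.act_x hip, mv_single_ne]
    rintro rfl
    rcases hq with hq | hq
    · omega
    · exact hip hq
  | one => rw [S.act_one]
  | mul y z _ _ hy hz => rw [S.act_mul, hy, hz]
  | inv y _ hy =>
    have : S.act (S.act (Pi.single q 1) y) y⁻¹ = Pi.single q 1 := by
      rw [← S.act_mul, mul_inv_cancel, S.act_one]
    rwa [hy] at this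

theorem T_commute {p : Fin n} {k : ℕ} {i : Fin n} (hip : i ≠ p) {t : E} (ht : t ∈ S.T p k) :
    Commute t (S.x i p) := by
  rw [T] at ht
  induction ht using Subgroup.closure_induction with
  | mem y hy =>
    obtain ⟨j, hjp, hj, rfl⟩ := hy
    exact S.comm j p i p hjp hip hip.symm hjp
  | one => exact Commute.one_left _
  | mul y z _ _ hy hz => exact hy.mul_left hz
  | inv y _ hy => exact hy.inv_left

theorem T_split {p : Fin n} {k : ℕ} (hk : k < n) (hkp : k ≠ (p : ℕ)) {t : E}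
    (ht : t ∈ S.T p (k + 1)) : ∃ s ∈ S.T p k, ∃ a : ℤ, t = s * S.x ⟨k, hk⟩ p ^ a := by
  have hkp' : (⟨k, hk⟩ : Fin n) ≠ p := by
    intro h; exact hkp (congrArg Fin.val h)
  rw [T] at ht
  induction ht using Subgroup.closure_induction with
  | mem y hy =>
    obtain ⟨j, hjp, hj, rfl⟩ := hy
    by_cases hjk : j = ⟨k, hk⟩
    · subst hjk
      exact ⟨1, Subgroup.one_mem _, 1, by group⟩
    · have : (j : ℕ) ≠ k := fun h => hjk (Fin.ext h)
      exact ⟨S.x j p, S.x_mem_T hjp (by omega), 0, by group⟩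
  | one => exact ⟨1, Subgroup.one_mem _, 0, by group⟩
  | mul y z _ _ hy hz =>
    obtain ⟨s, hs, a, rfl⟩ := hy
    obtain ⟨s', hs', a', rfl⟩ := hz
    refine ⟨s * s', Subgroup.mul_mem _ hs hs', a + a', ?_⟩
    have h1 : Commute s' (S.x ⟨k, hk⟩ p ^ a) := (S.T_commute hkp' hs').zpow_right a
    calc s * S.x ⟨k, hk⟩ p ^ a * (s' * S.x ⟨k, hk⟩ p ^ a')
        = s * (S.x ⟨k, hk⟩ p ^ a * s') * S.x ⟨k, hk⟩ p ^ a' := by group
      _ = s * (s' * S.x ⟨k, hk⟩ p ^ a) * S.x ⟨k, hk⟩ p ^ a' := by rw [h1.eq]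
      _ = s * s' * S.x ⟨k, hk⟩ p ^ (a + a') := by rw [zpow_add]; group
  | inv y _ hy =>
    obtain ⟨s, hs, a, rfl⟩ := hy
    refine ⟨s⁻¹, Subgroup.inv_mem _ hs, -a, ?_⟩
    have h1 : Commute s⁻¹ (S.x ⟨k, hk⟩ p ^ (-a)) := ((S.T_commute hkp' hs).inv_left).zpow_right _
    rw [h1.eq]
    group

theorem T_trivial {p : Fin n} : ∀ k : ℕ, k ≤ (p : ℕ) → ∀ t ∈ S.T p k,
    (∀ i : Fin n, (i : ℕ) < k → S.act (Pi.single i 1) t p = 0) → t = 1 := by
  intro k
  induction k with
  | zero =>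
    intro _ t ht _
    have : S.T p 0 = ⊥ := by
      rw [T, Subgroup.closure_eq_bot_iff]
      rintro y ⟨i, _, hi, _⟩
      omega
    rw [this] at ht
    exact Subgroup.mem_bot.mp ht
  | succ k ih =>
    intro hk t ht h0
    have hkn : k < n := by have := p.isLt; omega
    obtain ⟨s, hs, a, rfl⟩ := S.T_split hkn (by omega) ht
    have hkp' : (⟨k, hkn⟩ : Fin n) ≠ p := by
      intro h; have := congrArg Fin.val h; simp at this; omega
    have h1 := h0 ⟨k, hkn⟩ (by simp)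
    rw [S.act_mul, S.T_fix (Or.inl (by simp)) hs, S.act_x hkp', mv_self] at h1
    simp [Pi.single_eq_of_ne hkp'.symm] at h1
    subst h1
    rw [zpow_zero, mul_one] at h0 ⊢
    exact ih (by omega) s hs (fun i hi => h0 i (by omega))

theorem X_le_Sg (m : ℕ) : S.X m ≤ S.Sg m :=
  Subgroup.closure_mono Set.subset_union_left

theorem OM_le_Sg (m : ℕ) : S.OM m ≤ S.Sg m := by
  intro w hw
  exact Subgroup.subset_closure (Or.inr hw)

theorem ker_step (p : Fin n) {g : E} (hg : g ∈ S.Sg ((p : ℕ) + 1)) (h1 : S.pr g = 1) :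
    g ∈ S.Sg p := by
  have hact : ∀ v, S.act v g = v := by
    intro v; simp [act, h1]
  obtain ⟨M, hM⟩ := S.exists_P hg (Pi.single p 1)
  have hM2 : S.P ((p : ℕ) + 1) 2 (Pi.single p 1) g := by
    refine S.desc (M := M) (P.mono S (by omega) hM) ?_ ?_
    · rw [nrm_single]; simp
    · rw [hact, nrm_single]; simp
  obtain ⟨h, hh, w, hw, he⟩ := S.extract p hM2 1 (Subgroup.one_mem _) (by rw [S.act_one])
  rw [one_mul] at he
  obtain ⟨a, ha, t, ht, rfl⟩ := S.H_decomp p hh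
  -- `w` fixes `e_p`
  have hwp : S.act (Pi.single p 1) w = Pi.single p 1 := by
    have h2 := hact (Pi.single p 1)
    rw [he, S.act_mul, S.act_mul, S.X_fix le_rfl ha, S.T_fix (Or.inr rfl) ht] at h2
    exact h2
  have hwO : w ∈ S.OM p := by
    refine ⟨hw.1, fun k hk => ?_⟩
    by_cases hkp : k = p
    · subst hkp; exact hwp
    · have : (k : ℕ) ≠ (p : ℕ) := fun h => hkp (Fin.ext h)
      exact hw.2 k (by omega)
  have ht1 : t = 1 := by
    refine S.T_trivial (p : ℕ) le_rfl t ht (fun i hi => ?_)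
    have e1 : t = a⁻¹ * g * w⁻¹ := by rw [he]; group
    rw [e1, S.act_mul, S.act_mul, hact]
    refine S.OM_coord (Subgroup.inv_mem _ hwO) le_rfl ?_
    rw [S.X_coord le_rfl (Subgroup.inv_mem _ ha)]
    refine Pi.single_eq_of_ne ?_ _
    rintro rfl; omega
  subst ht1
  rw [he, mul_one]
  exact Subgroup.mul_mem _ (S.X_le_Sg _ ha) (S.OM_le_Sg _ hwO)

theorem ker_trivial : ∀ m : ℕ, m ≤ n → ∀ g ∈ S.Sg m, S.pr g = 1 → g = 1 := by
  intro m
  induction m with
  | zero =>
    intro _ g hg h1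
    have h2 : S.Sg 0 ≤ S.Om := by
      rw [Sg, Subgroup.closure_le]
      rintro y (⟨i, j, _, hi, _⟩ | hy)
      · omega
      · exact hy.1
    exact S.inj g (h2 hg) h1
  | succ m ih =>
    intro hm g hg h1
    exact ih (by omega) g (S.ker_step ⟨m, by omega⟩ hg h1) h1

/-- The main result: the subgroup generated by the `x i j` and `Om` meets the kernel trivially. -/
theorem ker_main {g : E}
    (hg : g ∈ Subgroup.closure ({g | ∃ i j : Fin n, i ≠ j ∧ g = S.x i j} ∪ (S.Om : Set E)))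
    (h1 : S.pr g = 1) : g = 1 := by
  refine S.ker_trivial n le_rfl g ?_ h1
  refine (Subgroup.closure_mono ?_) hg
  rintro y (⟨i, j, hij, rfl⟩ | hy)
  · exact Or.inl ⟨i, j, hij, i.isLt, j.isLt, rfl⟩
  · refine Or.inr ⟨hy, fun k hk => ?_⟩
    have := k.isLt
    omega

end Sys

end Pool.Agent.H887R2
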