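import Pool.Agent.H887R2.Lift2

set_option autoImplicit false
set_option linter.unusedSimpArgs false
set_option linter.unusedVariables false

/-! Extensions of `SL_5(ℤ)` by `ℤ^5` are residually finite. -/

namespace Pool.Agent.H887R2

open scoped Matrix
open Matrix (SpecialLinearGroup)

/-- The lattice. -/
abbrev VZ := Fin 5 → ℤ

/-- A group extension of `SL_5(ℤ)` by `ℤ^5`. -/
structure ZExt (G : Type*) [Group G] where
  p : G →* SLn 5
  j : VZ → G
  j_add : ∀ v w, j (v + w) = j v * j w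
  j_inj : Function.Injective j
  ker : ∀ e, p e = 1 ↔ ∃ v, j v = e
  surj : Function.Surjective p

/-- cast -/
def cv (v : VZ) : VQ := fun i => (v i : ℚ)

theorem cv_add (v w : VZ) : cv (v + w) = cv v + cv w := by ext i; simp [cv]
theorem cv_neg (v : VZ) : cv (-v) = - cv v := by ext i; simp [cv]
theorem cv_zero : cv 0 = 0 := by ext i; simp [cv]
theorem cv_inj : Function.Injective cv := by
  intro v w h
  ext i
  have := congrFun h i
  simpa [cv] using this

theorem cv_mulVec (A : Matrix (Fin 5) (Fin 5) ℤ) (v : VZ) :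
    (Int.castRingHom ℚ).mapMatrix A *ᵥ cv v = cv (A *ᵥ v) := by
  ext i
  simp [cv, Matrix.mulVec, dotProduct]

namespace ZExt

variable {G : Type*} [Group G] (Z : ZExt G)

theorem j_zero : Z.j 0 = 1 := by
  have := Z.j_add 0 0
  rw [add_zero] at this
  exact (mul_eq_left.mp this.symm)

theorem j_neg (v : VZ) : Z.j (-v) = (Z.j v)⁻¹ := by
  rw [eq_inv_iff_mul_eq_one, ← Z.j_add, neg_add_cancel, Z.j_zero]

theorem p_j (v : VZ) : Z.p (Z.j v) = 1 := (Z.ker _).mpr ⟨v, rfl⟩

theorem exists_act (e : G) (v : VZ) : ∃ w, Z.j w = e * Z.j v * e⁻¹ := by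
  apply (Z.ker _).mp
  rw [map_mul, map_mul, Z.p_j, mul_one, map_inv, mul_inv_cancel]

/-- The conjugation action. -/
noncomputable def actFun (e : G) (v : VZ) : VZ := Classical.choose (Z.exists_act e v)

theorem j_actFun (e : G) (v : VZ) : Z.j (Z.actFun e v) = e * Z.j v * e⁻¹ :=
  Classical.choose_spec (Z.exists_act e v)

theorem actFun_add (e : G) (v w : VZ) : Z.actFun e (v + w) = Z.actFun e v + Z.actFun e w := by
  apply Z.j_inj
  rw [Z.j_actFun, Z.j_add, Z.j_add, Z.j_actFun, Z.j_actFun]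
  group

theorem actFun_zero (e : G) : Z.actFun e 0 = 0 := by
  apply Z.j_inj
  rw [Z.j_actFun, Z.j_zero]
  group

theorem actFun_mul (e f : G) (v : VZ) : Z.actFun (e * f) v = Z.actFun e (Z.actFun f v) := by
  apply Z.j_inj
  rw [Z.j_actFun, Z.j_actFun, Z.j_actFun]
  group

theorem j_comm (v w : VZ) : Z.j v * Z.j w = Z.j w * Z.j v := by
  rw [← Z.j_add, add_comm, Z.j_add]

theorem actFun_j (w v : VZ) : Z.actFun (Z.j w) v = v := by
  apply Z.j_inj
  rw [Z.j_actFun, Z.j_comm]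
  group

theorem actFun_one (v : VZ) : Z.actFun 1 v = v := by
  apply Z.j_inj
  rw [Z.j_actFun]
  group

/-- linear version -/
noncomputable def actLin (e : G) : VZ →ₗ[ℤ] VZ := AddMonoidHom.toIntLinearMap
    { toFun := Z.actFun e, map_zero' := Z.actFun_zero _, map_add' := Z.actFun_add _ }

/-- matrix version -/
noncomputable def A : G →* Matrix (Fin 5) (Fin 5) ℤ where
  toFun e := LinearMap.toMatrix' (Z.actLin e)
  map_one' := by
    have : Z.actLin 1 = LinearMap.id := LinearMap.ext (fun v => Z.actFun_one v)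
    rw [this, LinearMap.toMatrix'_id]
  map_mul' a b := by
    have : Z.actLin (a * b) = Z.actLin a ∘ₗ Z.actLin b := LinearMap.ext (fun v => Z.actFun_mul a b v)
    rw [this, LinearMap.toMatrix'_comp]

theorem A_mulVec (e : G) (v : VZ) : Z.A e *ᵥ v = Z.actFun e v := by
  show LinearMap.toMatrix' (Z.actLin e) *ᵥ v = _
  rw [LinearMap.toMatrix'_mulVec]
  rfl

theorem A_j (w : VZ) : Z.A (Z.j w) = 1 := by
  have : Z.actLin (Z.j w) = LinearMap.id := LinearMap.ext (fun v => Z.actFun_j w v)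
  show LinearMap.toMatrix' (Z.actLin (Z.j w)) = 1
  rw [this, LinearMap.toMatrix'_id]

/-- rational matrices -/
noncomputable def AQ : G →* Matrix (Fin 5) (Fin 5) ℚ :=
  ((Int.castRingHom ℚ).mapMatrix : Matrix (Fin 5) (Fin 5) ℤ →+* Matrix (Fin 5) (Fin 5) ℚ).toMonoidHom.comp Z.A

theorem AQ_cv (e : G) (v : VZ) : Z.AQ e *ᵥ cv v = cv (Z.A e *ᵥ v) := cv_mulVec _ _

theorem AQ_j (w : VZ) : Z.AQ (Z.j w) = 1 := by
  show (Int.castRingHom ℚ).mapMatrix (Z.A (Z.j w)) = 1
  rw [Z.A_j, map_one]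

/-- The semidirect product `ℚ^5 ⋊ G`. -/
@[ext] structure SD (Z : ZExt G) where
  v : VQ
  g : G

noncomputable instance : Mul (SD Z) := ⟨fun a b => ⟨a.v + Z.AQ a.g *ᵥ b.v, a.g * b.g⟩⟩
instance : One (SD Z) := ⟨⟨0, 1⟩⟩
noncomputable instance : Inv (SD Z) := ⟨fun a => ⟨-(Z.AQ a.g⁻¹ *ᵥ a.v), a.g⁻¹⟩⟩

theorem SD.mul_def (a b : SD Z) : a * b = ⟨a.v + Z.AQ a.g *ᵥ b.v, a.g * b.g⟩ := rfl
theorem SD.one_def : (1 : SD Z) = ⟨0, 1⟩ := rfl
theorem SD.inv_def (a : SD Z) : a⁻¹ = ⟨-(Z.AQ a.g⁻¹ *ᵥ a.v), a.g⁻¹⟩ := rfl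

noncomputable instance : Group (SD Z) := Group.ofLeftAxioms
  (by
    intro a b c
    simp only [SD.mul_def, map_mul, Matrix.mulVec_add, Matrix.mulVec_mulVec, mul_assoc, add_assoc])
  (by
    intro a
    simp only [SD.mul_def, SD.one_def, map_one, Matrix.one_mulVec, zero_add, one_mul])
  (by
    intro a
    simp only [SD.mul_def, SD.one_def, SD.inv_def, inv_mul_cancel, neg_add_cancel])

/-- The antidiagonal copy of `ℤ^5`. -/
def K : Subgroup (SD Z) where
  carrier := {a | ∃ n : VZ, a = ⟨-cv n, Z.j n⟩}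
  mul_mem' := by
    rintro a b ⟨n, rfl⟩ ⟨m, rfl⟩
    refine ⟨n + m, ?_⟩
    rw [SD.mul_def, Z.AQ_j, Matrix.one_mulVec, Z.j_add, cv_add, neg_add]
  one_mem' := ⟨0, by rw [SD.one_def, cv_zero, neg_zero, Z.j_zero]⟩
  inv_mem' := by
    rintro a ⟨n, rfl⟩
    refine ⟨-n, ?_⟩
    rw [SD.inv_def]
    have : (Z.j n)⁻¹ = Z.j (-n) := (Z.j_neg n).symm
    simp only [this, Z.AQ_j, Matrix.one_mulVec, cv_neg]

theorem mem_K {a : SD Z} : a ∈ Z.K ↔ ∃ n : VZ, a = ⟨-cv n, Z.j n⟩ := Iff.rfl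

instance : (Z.K).Normal := by
  constructor
  rintro a ⟨n, rfl⟩ b
  refine ⟨Z.A b.g *ᵥ n, ?_⟩
  have h1 : Z.j (Z.A b.g *ᵥ n) = b.g * Z.j n * b.g⁻¹ := by rw [Z.A_mulVec, Z.j_actFun]
  rw [SD.mul_def, SD.mul_def, SD.inv_def, ← Z.AQ_cv, h1]
  ext1
  · simp only [map_mul, Z.AQ_j, mul_one, Matrix.mulVec_neg, Matrix.mulVec_mulVec]
    rw [← map_mul, mul_inv_cancel, map_one, Matrix.one_mulVec]
    abel
  · rfl

/-- The pushout. -/
abbrev Q (Z : ZExt G) := SD Z ⧸ Z.K

/-- projection on the semidirect product -/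
noncomputable def pSD : SD Z →* SLn 5 where
  toFun a := Z.p a.g
  map_one' := map_one _
  map_mul' a b := map_mul _ _ _

/-- the rational extension -/
noncomputable def toExt : Ext (Q Z) where
  pr := QuotientGroup.lift Z.K Z.pSD (by
    rintro a ⟨n, rfl⟩
    exact Z.p_j n)
  ι v := QuotientGroup.mk (⟨v, 1⟩ : SD Z)
  ι_add v w := by
    rw [← QuotientGroup.mk_mul, SD.mul_def]
    simp only [map_one, Matrix.one_mulVec, mul_one]
  ι_inj := by
    intro v w h
    have h1 := QuotientGroup.eq.mp h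
    obtain ⟨n, hn⟩ := h1
    rw [SD.inv_def, SD.mul_def] at hn
    simp only [SD.mk.injEq, inv_one, map_one, Matrix.one_mulVec, mul_one] at hn
    have h2 : n = 0 := Z.j_inj (hn.2.symm.trans Z.j_zero.symm)
    rw [h2, cv_zero, neg_zero] at hn
    have h3 := hn.1
    have : w = v := by
      rw [← sub_eq_zero, ← h3]; abel
    exact this.symm
  ker := by
    intro e
    induction e using QuotientGroup.induction_on with
    | H a =>
      constructor
      · intro h
        have h1 : Z.p a.g = 1 := h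
        obtain ⟨n, hn⟩ := (Z.ker _).mp h1
        refine ⟨a.v + cv n, ?_⟩
        apply QuotientGroup.eq.mpr
        refine ⟨n, ?_⟩
        rw [SD.inv_def, SD.mul_def]
        ext1
        · simp only [inv_one, map_one, Matrix.one_mulVec]
          abel
        · simp only [inv_one, one_mul, hn]
      · rintro ⟨v, hv⟩
        rw [← hv]
        show Z.p 1 = 1
        exact map_one _
  surj := by
    intro a
    obtain ⟨g, hg⟩ := Z.surj a
    exact ⟨QuotientGroup.mk (⟨0, g⟩ : SD Z), hg⟩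

/-- The map from `G`. -/
noncomputable def jG : G →* Q Z where
  toFun g := QuotientGroup.mk (⟨0, g⟩ : SD Z)
  map_one' := rfl
  map_mul' a b := by
    rw [← QuotientGroup.mk_mul, SD.mul_def]
    simp only [Matrix.mulVec_zero, add_zero]

theorem pr_jG (g : G) : Z.toExt.pr (Z.jG g) = Z.p g := rfl

theorem jG_j (n : VZ) : Z.jG (Z.j n) = Z.toExt.ι (cv n) := by
  apply QuotientGroup.eq.mpr
  refine ⟨-n, ?_⟩
  rw [SD.inv_def, SD.mul_def]
  ext1
  · simp only [← Z.j_neg, Z.AQ_j, Matrix.one_mulVec, cv_neg]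
    abel
  · simp only [mul_one, Z.j_neg]

theorem ρ_jG (g : G) (v : VQ) : Z.toExt.ρ (Z.p g) v = Z.AQ g *ᵥ v := by
  apply Z.toExt.ι_inj
  rw [← Z.pr_jG, ← Z.toExt.conj']
  show Z.jG g * (QuotientGroup.mk (⟨v, 1⟩ : SD Z)) * (Z.jG g)⁻¹ = (QuotientGroup.mk (⟨_, 1⟩ : SD Z))
  rw [mul_inv_eq_iff_eq_mul]
  show (QuotientGroup.mk (⟨0, g⟩ : SD Z)) * (QuotientGroup.mk (⟨v, 1⟩ : SD Z)) =
    (QuotientGroup.mk (⟨_, 1⟩ : SD Z)) * (QuotientGroup.mk (⟨0, g⟩ : SD Z))
  rw [← QuotientGroup.mk_mul, ← QuotientGroup.mk_mul, SD.mul_def, SD.mul_def]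
  simp only [map_one, mul_one, one_mul, zero_add, Matrix.one_mulVec, add_zero]

/-- A rational cocycle extending the inclusion. -/
theorem exists_cocycle : ∃ c : G → VQ, (∀ n, c (Z.j n) = cv n) ∧
    ∀ g h, c (g * h) = c g + Z.AQ g *ᵥ c h := by
  obtain ⟨c, h1, h2⟩ := Z.toExt.exists_cocycle
  refine ⟨fun g => c (Z.jG g), fun n => ?_, fun g h => ?_⟩
  · show c (Z.jG (Z.j n)) = cv n
    rw [Z.jG_j, h1]
  · show c (Z.jG (g * h)) = _
    rw [map_mul, h2, Z.pr_jG, Z.ρ_jG]

/-- common denominator of a vector -/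
def den (v : VQ) : ℕ := ∏ i, (v i).den

theorem den_spec (v : VQ) (m : ℕ) (h : den v ∣ m) : ∃ b : VZ, (m : ℚ) • v = cv b := by
  have h1 : ∀ i, ∃ b : ℤ, (m : ℚ) * v i = b := by
    intro i
    obtain ⟨k, rfl⟩ := (Finset.dvd_prod_of_mem (fun i => (v i).den) (Finset.mem_univ i)).trans h
    refine ⟨k * (v i).num, ?_⟩
    have := Rat.mul_den_eq_num (v i)
    push_cast
    linear_combination (k : ℚ) * this
  choose b hb using h1
  exact ⟨b, by ext i; simp [cv, hb i]⟩

/-- An integral cocycle extending a multiple of the inclusion. -/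
theorem exists_cocycleZ : ∃ (M : ℕ) (b : G → VZ), M ≠ 0 ∧ (∀ n, b (Z.j n) = M • n) ∧
    ∀ g h, b (g * h) = b g + Z.A g *ᵥ b h := by
  obtain ⟨c, hc1, hc2⟩ := Z.exists_cocycle
  have hc0 : c 1 = 0 := by rw [← Z.j_zero, hc1, cv_zero]
  let y : Fin 5 → Fin 5 → G := fun i k => Function.surjInv Z.surj (el i k)
  have hy : ∀ i k, Z.p (y i k) = el i k := fun i k => Function.surjInv_eq Z.surj _
  let M : ℕ := ∏ i, ∏ k, den (c (y i k))
  have hM : M ≠ 0 := by
    refine Finset.prod_ne_zero_iff.mpr (fun i _ => Finset.prod_ne_zero_iff.mpr (fun k _ => ?_))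
    exact Finset.prod_ne_zero_iff.mpr (fun l _ => (c (y i k) l).den_nz)
  have hdvd : ∀ i k, den (c (y i k)) ∣ M := fun i k =>
    (Finset.dvd_prod_of_mem (fun k => den (c (y i k))) (Finset.mem_univ k)).trans
      (Finset.dvd_prod_of_mem (fun i => ∏ k, den (c (y i k))) (Finset.mem_univ i))
  let H : Subgroup G :=
    { carrier := {g | ∃ b : VZ, (M : ℚ) • c g = cv b}
      mul_mem' := by
        rintro g h ⟨b, hb⟩ ⟨d, hd⟩
        refine ⟨b + Z.A g *ᵥ d, ?_⟩
        rw [hc2, smul_add, ← Matrix.mulVec_smul, hb, hd, Z.AQ_cv, cv_add]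
      one_mem' := ⟨0, by rw [hc0, smul_zero, cv_zero]⟩
      inv_mem' := by
        rintro g ⟨b, hb⟩
        refine ⟨-(Z.A g⁻¹ *ᵥ b), ?_⟩
        have h1 := hc2 g⁻¹ g
        rw [inv_mul_cancel, hc0] at h1
        have h2 : c g⁻¹ = -(Z.AQ g⁻¹ *ᵥ c g) := by
          rw [eq_neg_iff_add_eq_zero]; exact h1.symm
        rw [h2, smul_neg, ← Matrix.mulVec_smul, hb, Z.AQ_cv, cv_neg] }
  have hjH : ∀ n, Z.j n ∈ H := by
    intro n
    refine ⟨(M : ℤ) • n, ?_⟩
    rw [hc1]
    ext i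
    simp [cv]
  have hyH : ∀ i k, y i k ∈ H := fun i k => den_spec _ _ (hdvd i k)
  have hpH : ∀ a : SLn 5, ∃ h ∈ H, Z.p h = a := by
    intro a
    have ha : a ∈ Subgroup.closure {g : SLn 5 | ∃ i j, i ≠ j ∧ g = el i j} := by
      rw [closure_el]; trivial
    induction ha using Subgroup.closure_induction with
    | mem z hz =>
      obtain ⟨i, j, hij, rfl⟩ := hz
      exact ⟨y i j, hyH i j, hy i j⟩
    | one => exact ⟨1, Subgroup.one_mem _, map_one _⟩
    | mul y z _ _ hy hz =>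
      obtain ⟨g, hg, rfl⟩ := hy
      obtain ⟨h, hh, rfl⟩ := hz
      exact ⟨g * h, Subgroup.mul_mem _ hg hh, map_mul _ _ _⟩
    | inv y _ hy =>
      obtain ⟨g, hg, rfl⟩ := hy
      exact ⟨g⁻¹, Subgroup.inv_mem _ hg, map_inv _ _⟩
  have hall : ∀ g, ∃ b : VZ, (M : ℚ) • c g = cv b := by
    intro g
    have hg : g ∈ H := by
      obtain ⟨h, hh, hp⟩ := hpH (Z.p g)
      have h1 : Z.p (g * h⁻¹) = 1 := by rw [map_mul, map_inv, hp, mul_inv_cancel]
      obtain ⟨n, hn⟩ := (Z.ker _).mp h1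
      have : g = Z.j n * h := by rw [hn]; group
      rw [this]
      exact H.mul_mem (hjH n) hh
    exact hg
  choose b hb using hall
  refine ⟨M, b, hM, fun n => ?_, fun g h => ?_⟩
  · apply cv_inj
    rw [← hb, hc1]
    ext i
    simp [cv]
  · apply cv_inj
    rw [← hb, hc2, smul_add, ← Matrix.mulVec_smul, hb, hb, Z.AQ_cv, cv_add]

theorem int_zero {a : ℤ} (h : ∀ r : ℕ, r ≠ 0 → ((a : ℤ) : ZMod r) = 0) : a = 0 := by
  have h1 := h (a.natAbs + 1) (by omega)
  rw [ZMod.intCast_zmod_eq_zero_iff_dvd] at h1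
  by_contra hne
  have h2 := Int.natAbs_dvd_natAbs.mpr h1
  rw [Int.natAbs_natCast] at h2
  have h3 := Nat.le_of_dvd (by omega) h2
  omega

include Z in
theorem rf (g : G) (hg : ∀ H : Subgroup G, H.FiniteIndex → g ∈ H) : g = 1 := by
  -- the image in `SL_5(ℤ)`
  have hp : Z.p g = 1 := by
    ext a b
    have h1 : ∀ r : ℕ, r ≠ 0 → ((((Z.p g).1 a b - (1 : Matrix (Fin 5) (Fin 5) ℤ) a b : ℤ)) : ZMod r) = 0 := by
      intro r hr
      haveI : NeZero r := ⟨hr⟩
      haveI : Finite (SpecialLinearGroup (Fin 5) (ZMod r)) := Subtype.finite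
      let φ : G →* SpecialLinearGroup (Fin 5) (ZMod r) :=
        (SpecialLinearGroup.map (Int.castRingHom (ZMod r))).comp Z.p
      have h2 := hg φ.ker inferInstance
      have h3 : φ g = 1 := h2
      have h4 : (φ g).1 a b = ((1 : SpecialLinearGroup (Fin 5) (ZMod r))).1 a b := by rw [h3]
      have h5 : (φ g).1 a b = (((Z.p g).1 a b : ℤ) : ZMod r) := rfl
      rw [h5] at h4
      push_cast
      rw [h4]
      show (1 : Matrix (Fin 5) (Fin 5) (ZMod r)) a b - (((1 : Matrix (Fin 5) (Fin 5) ℤ) a b : ℤ) : ZMod r) = 0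
      by_cases hab : a = b
      · subst hab; simp
      · simp [hab]
    have := int_zero h1
    show (Z.p g).1 a b = (1 : Matrix (Fin 5) (Fin 5) ℤ) a b
    omega
  obtain ⟨n, rfl⟩ := (Z.ker _).mp hp
  obtain ⟨M, b, hM, hb1, hb2⟩ := Z.exists_cocycleZ
  have hb0 : b 1 = 0 := by
    have := hb1 0
    rwa [Z.j_zero, smul_zero] at this
  suffices n = 0 by rw [this, Z.j_zero]
  ext i
  have h1 : ∀ r : ℕ, r ≠ 0 → (((M : ℤ) * n i : ℤ) : ZMod r) = 0 := by
    intro r hr
    haveI : NeZero r := ⟨hr⟩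
    let Ar : G →* Matrix (Fin 5) (Fin 5) (ZMod r) :=
      ((Int.castRingHom (ZMod r)).mapMatrix :
        Matrix (Fin 5) (Fin 5) ℤ →+* Matrix (Fin 5) (Fin 5) (ZMod r)).toMonoidHom.comp Z.A
    let br : G → (Fin 5 → ZMod r) := fun g i => ((b g i : ℤ) : ZMod r)
    have hbr : ∀ g h, br (g * h) = br g + Ar g *ᵥ br h := by
      intro g h
      ext k
      show ((b (g * h) k : ℤ) : ZMod r) = ((b g k : ℤ) : ZMod r) +
        ((Int.castRingHom (ZMod r)).mapMatrix (Z.A g) *ᵥ br h) k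
      rw [hb2]
      simp [Matrix.mulVec, dotProduct, br]
    letI : MulAction G (Fin 5 → ZMod r) :=
      { smul := fun g x => br g + Ar g *ᵥ x
        one_smul := by
          intro x
          show br 1 + Ar 1 *ᵥ x = x
          have : br 1 = 0 := by ext k; simp [br, hb0]
          rw [this, map_one, Matrix.one_mulVec, zero_add]
        mul_smul := by
          intro g h x
          show br (g * h) + Ar (g * h) *ᵥ x = br g + Ar g *ᵥ (br h + Ar h *ᵥ x)
          rw [hbr, map_mul, Matrix.mulVec_add, Matrix.mulVec_mulVec, add_assoc] }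
    have h2 := hg (MulAction.toPermHom G (Fin 5 → ZMod r)).ker inferInstance
    have h3 : MulAction.toPermHom G (Fin 5 → ZMod r) (Z.j n) = 1 := h2
    have h4 : br (Z.j n) + Ar (Z.j n) *ᵥ 0 = 0 := by
      have := congrArg (fun e : Equiv.Perm (Fin 5 → ZMod r) => e 0) h3
      exact this
    rw [Matrix.mulVec_zero, add_zero] at h4
    have h5 := congrFun h4 i
    simp only [br, hb1] at h5
    simpa using h5
  have h2 := int_zero h1
  rcases mul_eq_zero.mp h2 with h | h
  · exact absurd (by exact_mod_cast h) hM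
  · simpa using h

end ZExt

theorem final (G : Type) [Group G] (N : Subgroup G) [N.Normal]
    (e1 : N ≃* Multiplicative (Fin 5 → ℤ)) (e2 : G ⧸ N ≃* Matrix.SpecialLinearGroup (Fin 5) ℤ)
    (g : G) (hg : ∀ H : Subgroup G, H.FiniteIndex → g ∈ H) : g = 1 := by
  let Z : ZExt G :=
    { p := e2.toMonoidHom.comp (QuotientGroup.mk' N)
      j := fun v => (e1.symm (Multiplicative.ofAdd v) : G)
      j_add := by
        intro v w
        rw [ofAdd_add, map_mul]; rfl
      j_inj := by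
        intro v w h
        have := e1.symm.injective (Subtype.ext h)
        exact Multiplicative.ofAdd.injective this
      ker := by
        intro e
        have h1 : (e2.toMonoidHom.comp (QuotientGroup.mk' N)) e = 1 ↔ e ∈ N := by
          show e2 (QuotientGroup.mk' N e) = 1 ↔ _
          rw [e2.map_eq_one_iff]
          exact QuotientGroup.eq_one_iff e
        rw [h1]
        constructor
        · intro h
          refine ⟨Multiplicative.toAdd (e1 ⟨e, h⟩), ?_⟩
          simp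
        · rintro ⟨v, rfl⟩
          exact (e1.symm _).2
      surj := by
        exact e2.surjective.comp (QuotientGroup.mk'_surjective N) }
  exact Z.rf g hg

end Pool.Agent.H887R2
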