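import Pool.Agent.H887R2.Gen

set_option autoImplicit false
set_option linter.unusedSimpArgs false
set_option linter.unusedVariables false

/-! Signed permutation matrices in `SL_n(ℤ)`. -/

namespace Pool.Agent.H887R2

open scoped Matrix
open Matrix (SpecialLinearGroup)

/-- Abbreviation. -/
abbrev SLn (n : ℕ) := SpecialLinearGroup (Fin n) ℤ

variable {n : ℕ}

theorem sl_ext {g h : SLn n} (H : ∀ v : Fin n → ℤ, v ᵥ* g.1 = v ᵥ* h.1) : g = h := by
  ext a b
  have := congrFun (H (Pi.single a 1)) b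
  simpa [Matrix.single_one_vecMul] using this

theorem vm_mul1 (v : Fin n → ℤ) (g h : SLn n) : v ᵥ* (g * h).1 = (v ᵥ* g.1) ᵥ* h.1 := vm_mul v g h

theorem vm_one1 (v : Fin n → ℤ) : v ᵥ* (1 : SLn n).1 = v := vm_one v

theorem vm_mul_inv1 (v : Fin n → ℤ) (g : SLn n) : (v ᵥ* g.1) ᵥ* (g⁻¹).1 = v := vm_mul_inv v g

theorem vm_inv_mul1 (v : Fin n → ℤ) (g : SLn n) : (v ᵥ* (g⁻¹).1) ᵥ* g.1 = v := vm_inv_mul v g

/-- The elementary matrix. -/
def el (i j : Fin n) : SLn n := if h : i ≠ j then SpecialLinearGroup.transvection h 1 else 1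

theorem el_of {i j : Fin n} (h : i ≠ j) : el i j = SpecialLinearGroup.transvection h 1 := by
  rw [el, dif_pos h]

theorem vm_el {i j : Fin n} (h : i ≠ j) (v : Fin n → ℤ) : v ᵥ* (el i j).1 = mv i j 1 v := by
  rw [el_of h]; exact vecMul_transvection h 1 v

theorem vm_elz {i j : Fin n} (h : i ≠ j) (a : ℤ) (v : Fin n → ℤ) :
    v ᵥ* (el i j ^ a).1 = mv i j a v := by
  rw [el_of h, transvection_zpow]; exact vecMul_transvection h a v

theorem vm_el_inv {i j : Fin n} (h : i ≠ j) (v : Fin n → ℤ) : v ᵥ* ((el i j)⁻¹).1 = mv i j (-1) v := by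
  rw [← vm_elz h, zpow_neg_one]

theorem closure_el : Subgroup.closure {g : SLn n | ∃ i j, i ≠ j ∧ g = el i j} = ⊤ := by
  rw [eq_top_iff, ← closure_transvections]
  refine Subgroup.closure_mono ?_
  rintro y ⟨i, j, hij, rfl⟩
  exact ⟨i, j, hij, (el_of hij).symm⟩

theorem el_comm {i j k l : Fin n} (hij : i ≠ j) (hkl : k ≠ l) (hjk : j ≠ k) (hil : i ≠ l) :
    el i j * el k l = el k l * el i j := by
  refine sl_ext (fun v => ?_)
  rw [vm_mul1, vm_mul1, vm_el hij, vm_el hkl, vm_el hkl, vm_el hij]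
  ext a
  by_cases h1 : a = j
  · subst h1
    by_cases h2 : a = l
    · subst h2
      simp only [mv_self, mv_ne hij, mv_ne hkl, mv_ne hjk, mv_ne hil, mv_ne hjk.symm]; ring
    · simp only [mv_self, mv_ne h2, mv_ne hij, mv_ne hkl, mv_ne hjk, mv_ne hil, mv_ne hjk.symm]
  · by_cases h2 : a = l
    · subst h2
      simp only [mv_self, mv_ne h1, mv_ne hij, mv_ne hkl, mv_ne hjk, mv_ne hil, mv_ne hjk.symm]
    · simp only [mv_ne h1, mv_ne h2]

theorem el_stein {i j k : Fin n} (hij : i ≠ j) (hjk : j ≠ k) (hik : i ≠ k) :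
    el i j * el j k = el i k * el j k * el i j := by
  refine sl_ext (fun v => ?_)
  rw [vm_mul1, vm_mul1, vm_mul1, vm_el hij, vm_el hjk, vm_el hik, vm_el hjk, vm_el hij]
  ext a
  by_cases h1 : a = j
  · subst h1
    simp only [mv_self, mv_ne hij, mv_ne hjk, mv_ne hik]
  · by_cases h2 : a = k
    · subst h2
      simp only [mv_self, mv_ne hij, mv_ne hjk, mv_ne hik, mv_ne hij.symm, mv_ne hjk.symm, mv_ne hik.symm]
      ring
    · simp only [mv_ne h1, mv_ne h2]

/-- The weyl element. -/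
def wd (i j : Fin n) : SLn n := el i j * (el j i)⁻¹ * el i j

theorem vm_wd_i {i j : Fin n} (h : i ≠ j) (v : Fin n → ℤ) : (v ᵥ* (wd i j).1) i = - v j := by
  rw [wd, vm_mul1, vm_mul1, vm_el h, vm_el_inv h.symm, vm_el h]
  simp only [mv_self, mv_ne h, mv_ne h.symm]; ring

theorem vm_wd_j {i j : Fin n} (h : i ≠ j) (v : Fin n → ℤ) : (v ᵥ* (wd i j).1) j = v i := by
  rw [wd, vm_mul1, vm_mul1, vm_el h, vm_el_inv h.symm, vm_el h]
  simp only [mv_self, mv_ne h, mv_ne h.symm]; ring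

theorem vm_wd_ne {i j k : Fin n} (h : i ≠ j) (hi : k ≠ i) (hj : k ≠ j) (v : Fin n → ℤ) :
    (v ᵥ* (wd i j).1) k = v k := by
  rw [wd, vm_mul1, vm_mul1, vm_el h, vm_el_inv h.symm, vm_el h]
  simp only [mv_ne hi, mv_ne hj]

/-- Norm preserving matrices. -/
def Wg (n : ℕ) : Subgroup (SLn n) where
  carrier := {g | ∀ v : Fin n → ℤ, nrm (v ᵥ* g.1) = nrm v}
  mul_mem' := by
    intro a b ha hb v
    rw [vm_mul1, hb, ha]
  one_mem' := fun v => by rw [vm_one1]
  inv_mem' := by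
    intro a ha v
    have := ha (v ᵥ* (a⁻¹).1)
    rw [vm_inv_mul1] at this
    exact this.symm

theorem mem_Wg {g : SLn n} : g ∈ Wg n ↔ ∀ v : Fin n → ℤ, nrm (v ᵥ* g.1) = nrm v := Iff.rfl

/-- `g` acts by the signed permutation `(σ, s)`. -/
def SP (g : SLn n) (σ : Equiv.Perm (Fin n)) (s : Fin n → ℤˣ) : Prop :=
  ∀ (v : Fin n → ℤ) (l : Fin n), (v ᵥ* g.1) (σ l) = v l * (s l : ℤ)

theorem SP.mem {g : SLn n} {σ : Equiv.Perm (Fin n)} {s : Fin n → ℤˣ} (h : SP g σ s) : g ∈ Wg n := by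
  intro v
  unfold nrm
  rw [← Equiv.sum_comp σ]
  refine Finset.sum_congr rfl (fun l _ => ?_)
  rw [h v l, Int.natAbs_mul, Int.units_natAbs, mul_one]

theorem SP.conj_el {g : SLn n} {σ : Equiv.Perm (Fin n)} {s : Fin n → ℤˣ} (h : SP g σ s)
    {i j : Fin n} (hij : i ≠ j) :
    g * el (σ i) (σ j) = el i j ^ ((s i : ℤ) * (s j : ℤ)) * g := by
  have hσ : σ i ≠ σ j := fun h => hij (σ.injective h)
  refine sl_ext (fun v => ?_)
  rw [vm_mul1, vm_mul1, vm_el hσ, vm_elz hij]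
  ext a
  obtain ⟨l, rfl⟩ := σ.surjective a
  rw [h]
  by_cases hl : l = j
  · subst hl
    rw [mv_self, mv_self, h, h]
    have : ((s l : ℤ)) * (s l : ℤ) = 1 := by
      rw [← Units.val_mul, Int.units_mul_self, Units.val_one]
    linear_combination (- v i * (s i : ℤ)) * this
  · have hl' : σ l ≠ σ j := fun h => hl (σ.injective h)
    rw [mv_ne hl', mv_ne hl, h]

/-- Sign vectors of product one. -/
def DG (n : ℕ) : Subgroup (Fin n → ℤˣ) where
  carrier := {ε | ∏ i, ε i = 1}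
  mul_mem' := by
    intro a b ha hb
    simp only [Set.mem_ofPred_eq, Pi.mul_apply, Finset.prod_mul_distrib] at *
    rw [ha, hb, one_mul]
  one_mem' := by simp
  inv_mem' := by
    intro a ha
    simp only [Set.mem_ofPred_eq, Pi.inv_apply, Finset.prod_inv_distrib] at *
    rw [ha, inv_one]

/-- Diagonal sign matrices. -/
def dg : DG n →* SLn n where
  toFun ε := ⟨Matrix.diagonal (fun i => ((ε.1 i : ℤˣ) : ℤ)), by
    rw [Matrix.det_diagonal, ← Units.coe_prod, show ∏ i, ε.1 i = 1 from ε.2, Units.val_one]⟩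
  map_one' := by
    apply Subtype.ext
    show Matrix.diagonal (fun i => (((1 : DG n).1 i : ℤˣ) : ℤ)) = (1 : Matrix (Fin n) (Fin n) ℤ)
    simp
  map_mul' a b := by
    apply Subtype.ext
    show Matrix.diagonal (fun i => (((a * b : DG n).1 i : ℤˣ) : ℤ)) =
      Matrix.diagonal (fun i => ((a.1 i : ℤˣ) : ℤ)) * Matrix.diagonal (fun i => ((b.1 i : ℤˣ) : ℤ))
    rw [Matrix.diagonal_mul_diagonal]
    simp

theorem vm_dg (ε : DG n) (v : Fin n → ℤ) (k : Fin n) : (v ᵥ* (dg ε).1) k = v k * (ε.1 k : ℤ) := by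
  show (v ᵥ* Matrix.diagonal _) k = _
  rw [Matrix.vecMul_diagonal]

theorem dg_SP (ε : DG n) : SP (dg ε) 1 ε.1 := fun v l => vm_dg ε v l

theorem dg_mem (ε : DG n) : dg ε ∈ Wg n := (dg_SP ε).mem

theorem wd_SP {i j : Fin n} (h : i ≠ j) : ∃ s, SP (wd i j) (Equiv.swap i j) s := by
  refine ⟨fun l => if l = j then -1 else 1, fun v l => ?_⟩
  beta_reduce
  by_cases hi : l = i
  · subst hi
    rw [Equiv.swap_apply_left, vm_wd_j h, if_neg h]; simp
  · by_cases hj : l = j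
    · subst hj
      rw [Equiv.swap_apply_right, vm_wd_i h, if_pos rfl]; simp
    · rw [Equiv.swap_apply_of_ne_of_ne hi hj, vm_wd_ne h hi hj, if_neg hj]; simp

theorem wd_mem {i j : Fin n} (h : i ≠ j) : wd i j ∈ Wg n := by
  obtain ⟨s, hs⟩ := wd_SP h
  exact hs.mem

theorem SP.mul {g h : SLn n} {σ τ : Equiv.Perm (Fin n)} {s t : Fin n → ℤˣ} (h1 : SP g σ s)
    (h2 : SP h τ t) : SP (g * h) (τ * σ) (fun l => s l * t (σ l)) := by
  intro v l
  rw [vm_mul1, Equiv.Perm.mul_apply, h2, h1]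
  push_cast; ring

theorem exists_SP (σ : Equiv.Perm (Fin n)) : ∃ g s, SP g σ s := by
  induction σ using Equiv.Perm.swap_induction_on with
  | one => exact ⟨1, 1, fun v l => by rw [vm_one1]; simp⟩
  | swap_mul f x y hxy ih =>
    obtain ⟨g, s, hg⟩ := ih
    obtain ⟨t, ht⟩ := wd_SP hxy
    exact ⟨_, _, hg.mul ht⟩

/-- Even permutation matrices. -/
def pm (τ : Equiv.Perm (Fin n)) (hτ : Equiv.Perm.sign τ = 1) : SLn n :=
  ⟨τ.permMatrix ℤ, by rw [Matrix.det_permutation, hτ]; rfl⟩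

theorem pm_SP (τ : Equiv.Perm (Fin n)) (hτ : Equiv.Perm.sign τ = 1) : SP (pm τ hτ) τ 1 := by
  intro v l
  show (v ᵥ* τ.permMatrix ℤ) (τ l) = _
  rw [Matrix.vecMul_permMatrix]
  simp

theorem nrm_neg (v : Fin n → ℤ) : nrm (-v) = nrm v := by
  unfold nrm; simp

theorem nrm_pi_single (k : Fin n) (a : ℤ) : nrm (Pi.single k a) = a.natAbs := by
  unfold nrm
  rw [Finset.sum_eq_single k]
  · simp
  · intro b _ hb; rw [Pi.single_eq_of_ne hb]; rfl
  · intro h; exact absurd (Finset.mem_univ _) h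

theorem nrm_one_struct {v : Fin n → ℤ} (h : nrm v = 1) : ∃ k, ∃ s : ℤˣ, v = Pi.single k (s : ℤ) := by
  have hne : ∃ k, v k ≠ 0 := by
    by_contra hh
    push Not at hh
    unfold nrm at h
    simp [hh] at h
  obtain ⟨k, hk⟩ := hne
  unfold nrm at h
  have h1 := Finset.add_sum_erase Finset.univ (fun i => (v i).natAbs) (Finset.mem_univ k)
  rw [h] at h1
  have h2 : (v k).natAbs = 1 ∧ ∑ x ∈ Finset.univ.erase k, (v x).natAbs = 0 := by
    have : (v k).natAbs ≠ 0 := by simpa using hk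
    omega
  obtain ⟨s, hs⟩ : ∃ s : ℤˣ, (s : ℤ) = v k := Int.isUnit_iff_natAbs_eq.mpr h2.1
  refine ⟨k, s, ?_⟩
  ext l
  by_cases hl : l = k
  · subst hl; simp [hs]
  · rw [Pi.single_eq_of_ne hl]
    have := (Finset.sum_eq_zero_iff.mp h2.2) l (Finset.mem_erase.mpr ⟨hl, Finset.mem_univ _⟩)
    simpa using this

theorem W_struct {g : SLn n} (hg : g ∈ Wg n) : ∃ σ s, SP g σ s := by
  have h1 : ∀ k : Fin n, ∃ l, ∃ s : ℤˣ, (Pi.single k 1 : Fin n → ℤ) ᵥ* g.1 = Pi.single l (s : ℤ) := by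
    intro k
    apply nrm_one_struct
    rw [hg, nrm_pi_single]; rfl
  choose f s hfs using h1
  have hv : ∀ v : Fin n → ℤ, v ᵥ* g.1 = ∑ k, v k • Pi.single (f k) ((s k : ℤˣ) : ℤ) := by
    intro v
    have : v = ∑ k, v k • (Pi.single k 1 : Fin n → ℤ) := by
      ext l
      rw [Finset.sum_apply, Finset.sum_eq_single l]
      · simp
      · intro b _ hb; simp [Pi.single_eq_of_ne hb.symm]
      · intro h; exact absurd (Finset.mem_univ _) h
    conv_lhs => rw [this]
    rw [Matrix.sum_vecMul]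
    refine Finset.sum_congr rfl (fun k _ => ?_)
    rw [Matrix.smul_vecMul, hfs]
  have hinj : Function.Injective f := by
    intro a b hab
    by_contra hne
    have h2 : (Pi.single a ((s a : ℤˣ) : ℤ) - Pi.single b ((s b : ℤˣ) : ℤ) : Fin n → ℤ) ᵥ* g.1 = 0 := by
      rw [Matrix.sub_vecMul]
      have e : ∀ c, (Pi.single c ((s c : ℤˣ) : ℤ) : Fin n → ℤ) ᵥ* g.1 = Pi.single (f c) 1 := by
        intro c
        have : (Pi.single c ((s c : ℤˣ) : ℤ) : Fin n → ℤ) = ((s c : ℤˣ) : ℤ) • Pi.single c 1 := by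
          rw [← Pi.single_smul]; simp
        rw [this, Matrix.smul_vecMul, hfs, ← Pi.single_smul, smul_eq_mul, ← Units.val_mul,
          Int.units_mul_self]
        rfl
      rw [e, e, hab, sub_self]
    have h3 := hg (Pi.single a ((s a : ℤˣ) : ℤ) - Pi.single b ((s b : ℤˣ) : ℤ))
    rw [h2] at h3
    have h4 : ((Pi.single a ((s a : ℤˣ) : ℤ) - Pi.single b ((s b : ℤˣ) : ℤ) : Fin n → ℤ) a).natAbs
        ≤ nrm (Pi.single a ((s a : ℤˣ) : ℤ) - Pi.single b ((s b : ℤˣ) : ℤ) : Fin n → ℤ) := by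
      unfold nrm
      exact Finset.single_le_sum (f := fun i =>
        ((Pi.single a ((s a : ℤˣ) : ℤ) - Pi.single b ((s b : ℤˣ) : ℤ) : Fin n → ℤ) i).natAbs)
        (fun _ _ => Nat.zero_le _) (Finset.mem_univ a)
    rw [← h3, Pi.sub_apply, Pi.single_eq_same, Pi.single_eq_of_ne hne, sub_zero,
      Int.units_natAbs] at h4
    have h5 : nrm (0 : Fin n → ℤ) = 0 := by unfold nrm; simp
    omega
  refine ⟨Equiv.ofBijective f (Finite.injective_iff_bijective.mp hinj), s, fun v l => ?_⟩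
  rw [hv, Finset.sum_apply, Finset.sum_eq_single l]
  · simp
  · intro b _ hb
    have : f l ≠ f b := fun h => hb (hinj h).symm
    simp [Equiv.ofBijective_apply, Pi.single_eq_of_ne this]
  · intro h; exact absurd (Finset.mem_univ _) h

instance Wg_finite : Finite (Wg n) := by
  have hfin : (Set.Icc (fun _ _ => (-1 : ℤ)) (fun _ _ => (1 : ℤ)) : Set (Fin n → Fin n → ℤ)).Finite :=
    Set.finite_Icc _ _
  have : Finite (Set.Icc (fun _ _ => (-1 : ℤ)) (fun _ _ => (1 : ℤ)) : Set (Fin n → Fin n → ℤ)) := hfin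
  refine Finite.of_injective (β := (Set.Icc (fun _ _ => (-1 : ℤ)) (fun _ _ => (1 : ℤ)) :
    Set (Fin n → Fin n → ℤ))) (fun g => ⟨fun k l => g.1.1 k l, ?_⟩) ?_
  · have key : ∀ k l, (g.1.1 k l).natAbs ≤ 1 := by
      intro k l
      have h1 := g.2 (Pi.single k 1)
      rw [nrm_pi_single] at h1
      have h2 : ((Pi.single k 1 ᵥ* g.1.1) l).natAbs ≤ nrm (Pi.single k 1 ᵥ* g.1.1) := by
        unfold nrm
        exact Finset.single_le_sum (f := fun i => ((Pi.single k 1 ᵥ* g.1.1) i).natAbs)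
          (fun _ _ => Nat.zero_le _) (Finset.mem_univ l)
      rw [h1, Matrix.single_one_vecMul] at h2
      simpa using h2
    constructor
    · intro k l
      have := key k l
      show (-1 : ℤ) ≤ g.1.1 k l
      omega
    · intro k l
      have := key k l
      show g.1.1 k l ≤ 1
      omega
  · intro a b hab
    apply Subtype.ext
    apply Subtype.ext
    have := congrArg Subtype.val hab
    exact this

/-- Permuting a sign vector. -/
def DG.perm (σ : Equiv.Perm (Fin n)) (ε : DG n) : DG n :=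
  ⟨fun i => ε.1 (σ i), by
    show ∏ i, ε.1 (σ i) = 1
    rw [Equiv.prod_comp σ (fun i => ε.1 i)]
    exact ε.2⟩

theorem SP.conj_dg {g : SLn n} {σ : Equiv.Perm (Fin n)} {s : Fin n → ℤˣ} (h : SP g σ s)
    (ε : DG n) : g * dg ε = dg (DG.perm σ ε) * g := by
  refine sl_ext (fun v => ?_)
  rw [vm_mul1, vm_mul1]
  ext a
  obtain ⟨l, rfl⟩ := σ.surjective a
  rw [vm_dg, h, h, vm_dg]
  simp only [DG.perm]
  ring

/-- The sign vector with `-1` at `a` and `b`. -/
def flip (a b : Fin n) (h : a ≠ b) : DG n :=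
  ⟨fun k => if k = a ∨ k = b then -1 else 1, by
    show ∏ i, (if i = a ∨ i = b then (-1 : ℤˣ) else 1) = 1
    rw [Finset.prod_ite]
    simp only [Finset.prod_const, one_pow, mul_one]
    have : (Finset.univ.filter (fun i => i = a ∨ i = b)) = {a, b} := by
      ext; simp
    rw [this, Finset.card_pair h]
    norm_num⟩

theorem flip_a {a b : Fin n} (h : a ≠ b) : (flip a b h).1 a = -1 := by simp [flip]
theorem flip_b {a b : Fin n} (h : a ≠ b) : (flip a b h).1 b = -1 := by simp [flip]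
theorem flip_ne {a b k : Fin n} (h : a ≠ b) (h1 : k ≠ a) (h2 : k ≠ b) : (flip a b h).1 k = 1 := by
  simp [flip, h1, h2]

end Pool.Agent.H887R2
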